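import Pool.Agent.Q241.SPL.MU

/-!
Sampled values of the Mertens function: one-sided windows and the maximal inequality.
-/

set_option autoImplicit false

open MeasureTheory Filter Topology Set
open Pool.Agent.H295R2

namespace Q241SPL

noncomputable section

/-- both signs in every window, in mean square -/
theorem Between.signs {θ a : ℝ} {m : ℝ → ℝ} (h : Between θ a m) (hθ0 : 0 ≤ θ) (hθ : θ < 1) {ρ : ℂ}
    (hρ : ρ ∈ Zer) :
    ∃ c : ℝ, 0 < c ∧ ∀ᶠ x : ℝ in atTop, ∀ s : ℝ, s = 1 ∨ s = -1 →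
      c * x ^ (2 * ρ.re - 1) ≤ ∫ y in x..(x * Real.log x), (max (s * m y) 0 / y) ^ 2 := by
  obtain ⟨ρ', hρ', h12, hΘ, hle⟩ : ∃ ρ' ∈ Zer, 1 / 2 ≤ ρ'.re ∧ zetaSup - (1 - θ) / 2 < ρ'.re ∧ ρ.re ≤ ρ'.re := by
    rcases le_or_gt ρ.re (zetaSup - (1 - θ) / 4) with h | h
    · obtain ⟨ρ', hρ', h12, h2⟩ := exists_right (κ := (1 - θ) / 4) (by linarith)
      exact ⟨ρ', hρ', h12, by linarith, by linarith⟩
    · rcases le_or_gt (1 / 2) ρ.re with h3 | h3
      · exact ⟨ρ, hρ, h3, by linarith, le_rfl⟩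
      · exact ⟨1 - ρ, Zer_refl hρ, by simp; linarith, by simp; linarith, by simp; linarith⟩
  obtain ⟨c, hc, hw⟩ := h.window hθ0 hθ h12 hρ'.2.2 hΘ (W := fun _ => 1) (Eventually.of_forall fun _ => le_rfl) (by
    obtain ⟨c, hc, h2⟩ := H313.TK.sq_low1 ρ' hρ'.1 h12 hρ'.2.2
    exact ⟨c, hc, h2.mono fun x hx s hs => by rw [one_mul]; exact hx s hs⟩)
  refine ⟨c, hc, ?_⟩
  filter_upwards [hw, eventually_ge_atTop 1] with x hx hx1 s hs
  refine le_trans ?_ (hx s hs)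
  rw [one_mul]
  have : x ^ (2 * ρ.re - 1) ≤ x ^ (2 * ρ'.re - 1) := Real.rpow_le_rpow_of_exponent_le hx1 (by linarith)
  gcongr

lemma log_sq_le (η : ℝ) (hη : 0 < η) : ∀ᶠ x : ℝ in atTop, Real.log x ^ 2 ≤ x ^ η := by
  have h4 := isLittleO_log_rpow_atTop (r := η / 2) (by linarith)
  filter_upwards [h4.bound (show (0:ℝ) < 1 by norm_num), eventually_ge_atTop 1] with x hx hx1
  have hx0 : 0 < x := by linarith
  rw [one_mul, Real.norm_of_nonneg (Real.log_nonneg hx1), Real.norm_of_nonneg (by positivity)] at hx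
  calc Real.log x ^ 2 ≤ (x ^ (η / 2)) ^ 2 := pow_le_pow_left₀ (Real.log_nonneg hx1) hx 2
    _ = x ^ η := by rw [sq, ← Real.rpow_add hx0]; congr 1; ring

/-- the same at a multiple zero -/
theorem Between.signs_multiple {θ a : ℝ} {m : ℝ → ℝ} (h : Between θ a m) (hθ0 : 0 ≤ θ) (hθ : θ < 1) {ρ : ℂ}
    (hρ : ρ ∈ Zer) (hd : deriv riemannZeta ρ = 0) :
    ∃ c : ℝ, 0 < c ∧ ∀ᶠ x : ℝ in atTop, ∀ s : ℝ, s = 1 ∨ s = -1 →
      c * (Real.log x ^ 2 * x ^ (2 * ρ.re - 1)) ≤ ∫ y in x..(x * Real.log x), (max (s * m y) 0 / y) ^ 2 := by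
  rcases le_or_gt ρ.re (zetaSup - (1 - θ) / 4) with hh | hh
  · obtain ⟨ρ', hρ', h12, h2⟩ := exists_right (κ := (1 - θ) / 8) (by linarith)
    obtain ⟨c, hc, h3⟩ := h.signs hθ0 hθ hρ'
    have hlt : ρ.re < ρ'.re := by linarith
    refine ⟨c, hc, ?_⟩
    filter_upwards [h3, log_sq_le (2 * (ρ'.re - ρ.re)) (by linarith), eventually_gt_atTop 0] with x hx hl hx0 s hs
    refine le_trans ?_ (hx s hs)
    have h6 : Real.log x ^ 2 * x ^ (2 * ρ.re - 1) ≤ x ^ (2 * ρ'.re - 1) := by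
      calc Real.log x ^ 2 * x ^ (2 * ρ.re - 1) ≤ x ^ (2 * (ρ'.re - ρ.re)) * x ^ (2 * ρ.re - 1) := by gcongr
        _ = x ^ (2 * ρ'.re - 1) := by rw [← Real.rpow_add hx0]; congr 1; ring
    gcongr
  · obtain ⟨ρ', hρ', hd', h12, hΘ, hle⟩ : ∃ ρ' ∈ Zer, deriv riemannZeta ρ' = 0 ∧ 1 / 2 ≤ ρ'.re ∧
        zetaSup - (1 - θ) / 2 < ρ'.re ∧ ρ.re ≤ ρ'.re := by
      rcases le_or_gt (1 / 2) ρ.re with h3 | h3
      · exact ⟨ρ, hρ, hd, h3, by linarith, le_rfl⟩
      · obtain ⟨k1, k2⟩ := Zer_refl_multiple hρ hd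
        exact ⟨1 - (starRingEnd ℂ) ρ, k1, k2, by simp; linarith, by simp; linarith, by simp; linarith⟩
    have hW : ∀ᶠ x : ℝ in atTop, 1 ≤ Real.log x ^ 2 := by
      filter_upwards [Real.tendsto_log_atTop.eventually_ge_atTop 1] with x hx
      exact one_le_pow₀ hx
    obtain ⟨c, hc, hw⟩ := h.window hθ0 hθ h12 hρ'.2.2 hΘ hW (H313.TK.sq_low2 ρ' hρ'.1 hd' h12 hρ'.2.2)
    refine ⟨c, hc, ?_⟩
    filter_upwards [hw, eventually_ge_atTop 1] with x hx hx1 s hs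
    refine le_trans ?_ (hx s hs)
    have : x ^ (2 * ρ.re - 1) ≤ x ^ (2 * ρ'.re - 1) := Real.rpow_le_rpow_of_exponent_le hx1 (by linarith)
    gcongr

/-- the one-sided criterion -/
theorem Between.crit {θ a : ℝ} {m : ℝ → ℝ} (h : Between θ a m) (hθ0 : 0 ≤ θ) (hθ : θ < 1) {s : ℝ}
    (hs : s = 1 ∨ s = -1)
    (hf : ∀ ε : ℝ, 0 < ε → ∃ᶠ x : ℝ in atTop,
      ∫ y in x..(x * Real.log x), (max (s * m y) 0 / y) ^ 2 ≤ ε * Real.log x ^ 2) {ρ : ℂ} (hρ : ρ ∈ Zer) :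
    ρ.re = 1 / 2 ∧ deriv riemannZeta ρ ≠ 0 := by
  have key : ∀ ρ ∈ Zer, ρ.re ≤ 1 / 2 := by
    intro ρ hρ
    by_contra hcon
    push Not at hcon
    obtain ⟨c, hc, h3⟩ := h.signs hθ0 hθ hρ
    have hgrow : ∀ᶠ x : ℝ in atTop, Real.log x ^ 2 ≤ x ^ (ρ.re - 1 / 2) := log_sq_le _ (by linarith)
    have ht : ∀ᶠ x : ℝ in atTop, 2 / c ≤ x ^ (ρ.re - 1 / 2) :=
      (tendsto_rpow_atTop (by linarith)).eventually_ge_atTop _
    obtain ⟨x, hx1, hx2, hx3, hx4, hx5⟩ :=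
      ((hf 1 one_pos).and_eventually (h3.and (hgrow.and (ht.and (eventually_gt_atTop (1:ℝ)))))).exists
    have h6 := hx2 s hs
    have hx0 : 0 < x := by linarith
    have e1 : x ^ (2 * ρ.re - 1) = x ^ (ρ.re - 1 / 2) * x ^ (ρ.re - 1 / 2) := by
      rw [← Real.rpow_add hx0]; congr 1; ring
    have h7 : 0 < Real.log x := Real.log_pos hx5
    have h8 : 0 < x ^ (ρ.re - 1 / 2) := Real.rpow_pos_of_pos hx0 _
    rw [div_le_iff₀ hc] at hx4
    rw [e1] at h6
    have h9 : 0 < Real.log x ^ 2 := by positivity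
    nlinarith
  have hre : ρ.re = 1 / 2 := by
    refine le_antisymm (key ρ hρ) ?_
    have := key _ (Zer_refl hρ)
    simp at this
    linarith
  refine ⟨hre, fun hd => ?_⟩
  obtain ⟨c, hc, h3⟩ := h.signs_multiple hθ0 hθ hρ hd
  obtain ⟨x, hx1, hx2, hx3⟩ := ((hf (c / 2) (by positivity)).and_eventually (h3.and (eventually_gt_atTop (1:ℝ)))).exists
  have h6 := hx2 s hs
  rw [hre] at h6
  norm_num at h6
  have h7 : 0 < Real.log x := Real.log_pos hx3
  have h9 : 0 < c * Real.log x ^ 2 := by positivity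
  linarith

/-- **Maximal inequality.** -/
theorem Between.maximal {θ a : ℝ} {m : ℝ → ℝ} (h : Between θ a m) (hθ0 : 0 ≤ θ) (hθ : θ < 1) (ha : 1 ≤ a)
    {Θ κ : ℝ} (hΘ : ∀ ρ ∈ Zer, ρ.re ≤ Θ) (hκ : 2 * Θ - 1 + θ < κ) :
    IntegrableOn (fun u => (m u - Mx u) ^ 2 * u ^ (-1 - κ)) (Ici a) := by
  have hs := zetaSup_le hΘ
  obtain ⟨B, hBm, hB0, hBi, V, hV, haV, hB⟩ := h.err hθ0 hθ (κ := κ) (by linarith)
  have hmeas : Measurable (fun u => (m u - Mx u) ^ 2 * u ^ (-1 - κ)) :=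
    ((h.meas.sub Mx_meas).pow_const 2).mul (by fun_prop)
  have h1 : IntegrableOn (fun u => (m u - Mx u) ^ 2 * u ^ (-1 - κ)) (Icc a (Real.exp V)) := by
    have hc : ContinuousOn (fun u : ℝ => u ^ (-1 - κ)) (Icc a (Real.exp V)) := by
      refine ContinuousOn.rpow_const continuousOn_id fun x hx => Or.inl ?_
      have h9 := hx.1
      exact (lt_of_lt_of_le (by linarith : (0:ℝ) < a) h9).ne'
    obtain ⟨C, hC⟩ := isCompact_Icc.exists_bound_of_continuousOn hc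
    refine Measure.integrableOn_of_bounded (M := (6 * Real.exp V) ^ 2 * C) (by simp) hmeas.aestronglyMeasurable ?_
    filter_upwards [ae_restrict_mem measurableSet_Icc] with u hu
    have h2 := h.bd hθ ha hu.1
    have h3 := Mx_abs u
    have hu0 : 0 ≤ u := by linarith [hu.1]
    rw [abs_of_nonneg hu0] at h3
    rw [norm_mul, Real.norm_of_nonneg (sq_nonneg (m u - Mx u))]
    have h4 : |m u - Mx u| ≤ 6 * Real.exp V := by
      have := abs_sub (m u) (Mx u)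
      linarith [hu.2]
    have h5 : (m u - Mx u) ^ 2 ≤ (6 * Real.exp V) ^ 2 := by
      rw [← sq_abs]; exact pow_le_pow_left₀ (abs_nonneg _) h4 2
    exact mul_le_mul h5 (hC u hu) (norm_nonneg _) (by positivity)
  have h2 : IntegrableOn (fun u => (m u - Mx u) ^ 2 * u ^ (-1 - κ)) (Ici (Real.exp V)) := by
    have himg : Real.exp '' Ici V = Ici (Real.exp V) := by
      ext y
      simp only [mem_image, mem_Ici]
      constructor
      · rintro ⟨x, hx, rfl⟩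
        exact Real.exp_le_exp.2 hx
      · intro hy
        have hy0 : 0 < y := (Real.exp_pos V).trans_le hy
        exact ⟨Real.log y, (Real.le_log_iff_exp_le hy0).2 hy, Real.exp_log hy0⟩
    rw [← himg, integrableOn_image_iff_integrableOn_abs_deriv_smul measurableSet_Ici
      (fun x _ => (Real.hasDerivAt_exp x).hasDerivWithinAt) (Real.exp_injective.injOn)]
    refine Integrable.mono' (hBi.mono_set (Ici_subset_Ici.2 hV)) ?_ ?_
    · exact ((continuous_abs.measurable.comp Real.measurable_exp).mul (hmeas.comp Real.measurable_exp)).aestronglyMeasurable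
    · filter_upwards [ae_restrict_mem measurableSet_Ici] with v hv
      have e1 : Real.exp v * Real.exp v ^ (-1 - κ) = Real.exp (-(κ * v)) := by
        rw [← Real.exp_mul, ← Real.exp_add]; congr 1; ring
      have hpos : 0 < Real.exp v := Real.exp_pos v
      rw [smul_eq_mul, abs_of_pos hpos, Real.norm_of_nonneg (by positivity)]
      calc Real.exp v * ((m (Real.exp v) - Mx (Real.exp v)) ^ 2 * Real.exp v ^ (-1 - κ))
          = (m (Real.exp v) - Mx (Real.exp v)) ^ 2 * (Real.exp v * Real.exp v ^ (-1 - κ)) := by ring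
        _ = (m (Real.exp v) - Mx (Real.exp v)) ^ 2 * Real.exp (-(κ * v)) := by rw [e1]
        _ ≤ _ := by
          have := hB v hv
          gcongr
  refine (h1.union h2).mono_set ?_
  intro u hu
  rcases le_total u (Real.exp V) with hh | hh
  · exact Or.inl ⟨hu, hh⟩
  · exact Or.inr hh

end

end Q241SPL
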