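import Pool.Agent.Q241.SPL.MV

/-!
Smallest and largest values on short intervals, and values at the `k`-th powers.
-/

set_option autoImplicit false

open MeasureTheory Filter Topology Set
open Pool.Agent.H295R2

namespace Q241SPL

noncomputable section

/-- sign, with `sg 0 = 1` -/
def sg (t : ℝ) : ℝ := if 0 ≤ t then 1 else -1

lemma sg_meas : Measurable sg := Measurable.ite measurableSet_Ici measurable_const measurable_const

lemma sg_sq (t : ℝ) : sg t ^ 2 = 1 := by unfold sg; split_ifs <;> norm_num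

lemma sg_abs (t : ℝ) : sg t * |t| = t := by
  unfold sg
  split_ifs with h
  · rw [abs_of_nonneg h, one_mul]
  · rw [abs_of_neg (not_le.1 h)]; ring

lemma abs_sg (t : ℝ) : |sg t| = 1 := by unfold sg; split_ifs <;> simp

lemma between_abs {θ a : ℝ} {g : ℝ → ℝ} (hg : Measurable g)
    (h : ∀ u : ℝ, a ≤ u → 0 ≤ u ∧ ∃ y : ℝ, |y - u| ≤ u ^ θ ∧ g u = |Mx y|) :
    Between θ a (fun u => sg (Mx u) * g u) := by
  refine ⟨(sg_meas.comp Mx_meas).mul hg, fun x hx => ?_⟩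
  obtain ⟨hx0, y, hy, hgy⟩ := h x hx
  refine ⟨y, x, hy, by rw [sub_self, abs_zero]; positivity, ?_⟩
  have e : sg (Mx x) * g x - Mx x = sg (Mx x) * (|Mx y| - |Mx x|) := by
    rw [mul_sub, sg_abs, hgy]
  rw [e, abs_mul, abs_sg, one_mul]
  exact abs_abs_sub_abs_le_abs_sub _ _

/-- the values of `|M|` on `[u - u^θ, u + u^θ]` -/
def vals (θ u : ℝ) : Set ℝ := (fun y => |Mx y|) '' {y : ℝ | |y - u| ≤ u ^ θ}

/-- the values of `|M|` at the integers in `[p, q]` -/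
def nvals (pq : ℕ × ℕ) : Set ℝ := (fun n : ℕ => |Mx n|) '' Icc pq.1 pq.2

lemma Mx_floor (y : ℝ) : Mx (⌊y⌋₊ : ℝ) = Mx y := by
  unfold Mx
  rw [Nat.floor_natCast]

lemma vals_eq {θ u : ℝ} (hu : 0 ≤ u) : vals θ u = nvals (⌊u - u ^ θ⌋₊, ⌊u + u ^ θ⌋₊) := by
  ext t
  simp only [vals, nvals, mem_image, mem_Icc, mem_ofPred_eq]
  constructor
  · rintro ⟨y, hy, rfl⟩
    have h := abs_le.1 hy
    refine ⟨⌊y⌋₊, ⟨Nat.floor_mono (by linarith [h.1]), Nat.floor_mono (by linarith [h.2])⟩, ?_⟩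
    rw [Mx_floor]
  · rintro ⟨n, ⟨h1, h2⟩, rfl⟩
    have hθ : 0 ≤ u ^ θ := by positivity
    have h3 : (n : ℝ) ≤ u + u ^ θ := (Nat.cast_le.2 h2).trans (Nat.floor_le (by positivity))
    rcases le_or_gt (u - u ^ θ) n with hh | hh
    · refine ⟨n, ?_, rfl⟩
      rw [abs_le]
      constructor <;> linarith
    · have h4 : n ≤ ⌊u - u ^ θ⌋₊ := Nat.le_floor hh.le
      have h5 : n = ⌊u - u ^ θ⌋₊ := le_antisymm h4 h1
      refine ⟨u - u ^ θ, ?_, ?_⟩
      · rw [show u - u ^ θ - u = -(u ^ θ) by ring, abs_neg, abs_of_nonneg hθ]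
      · rw [h5, Mx_floor]

lemma vals_fin {θ u : ℝ} (hu : 0 ≤ u) : (vals θ u).Finite := by
  rw [vals_eq hu]
  exact (Set.finite_Icc _ _).image _

lemma vals_ne {θ u : ℝ} (hu : 0 ≤ u) : (vals θ u).Nonempty :=
  ⟨_, u, by show |u - u| ≤ u ^ θ; rw [sub_self, abs_zero]; positivity, rfl⟩

lemma vals_meas (F : Set ℝ → ℝ) (θ : ℝ) :
    Measurable (fun u : ℝ => F (nvals (⌊u - u ^ θ⌋₊, ⌊u + u ^ θ⌋₊))) := by
  have h1 : Measurable (fun pq : ℕ × ℕ => F (nvals pq)) := measurable_of_countable _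
  have h2 : Measurable (fun u : ℝ => ((⌊u - u ^ θ⌋₊, ⌊u + u ^ θ⌋₊) : ℕ × ℕ)) := by
    refine Measurable.prodMk ?_ ?_
    · exact Nat.measurable_floor.comp (by fun_prop)
    · exact Nat.measurable_floor.comp (by fun_prop)
  exact h1.comp h2

/-- a selection of values of `|M|` -/
lemma between_vals (F : Set ℝ → ℝ) (hF : ∀ s : Set ℝ, s.Finite → s.Nonempty → F s ∈ s) (θ : ℝ) :
    Between θ 1 (fun u => sg (Mx u) * F (nvals (⌊u - u ^ θ⌋₊, ⌊u + u ^ θ⌋₊))) := by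
  refine between_abs (vals_meas F θ) fun u hu => ?_
  have hu0 : 0 ≤ u := by linarith
  refine ⟨hu0, ?_⟩
  rw [← vals_eq hu0]
  obtain ⟨y, hy, hy2⟩ := hF _ (vals_fin (θ := θ) hu0) (vals_ne hu0)
  exact ⟨y, hy, hy2.symm⟩

/-- the integral with the selected values -/
lemma vals_integral (F : Set ℝ → ℝ) (θ : ℝ) {x : ℝ} (hx : 1 ≤ x) :
    ∫ u in (1:ℝ)..x, (F (vals θ u) / u) ^ 2 =
      JP id (fun u => sg (Mx u) * F (nvals (⌊u - u ^ θ⌋₊, ⌊u + u ^ θ⌋₊))) 0 (Real.log x) := by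
  have h := JP_eq' id (fun u => sg (Mx u) * F (nvals (⌊u - u ^ θ⌋₊, ⌊u + u ^ θ⌋₊))) one_pos hx
  rw [Real.log_one] at h
  rw [← h]
  refine intervalIntegral.integral_congr fun u hu => ?_
  rw [uIcc_of_le hx] at hu
  simp only [id]
  rw [← vals_eq (by linarith [hu.1]), div_pow, div_pow, mul_pow, sg_sq, one_mul]

open Pool.Agent.W120.WM (ZC NT) in
/-- the mean square of the smallest or the largest value of `|M|` on short intervals -/
theorem vals_limit (F : Set ℝ → ℝ) (hF : ∀ s : Set ℝ, s.Finite → s.Nonempty → F s ∈ s) {θ : ℝ}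
    (hθ0 : 0 ≤ θ) (hθ : θ < 1) :
    (ZC → Tendsto (fun x : ℝ => (∫ u in (1:ℝ)..x, (F (vals θ u) / u) ^ 2) / Real.log x) atTop
      (𝓝 (∑' ρ : NT, 1 / ‖(ρ : ℂ) * deriv riemannZeta ρ‖ ^ 2))) ∧
    (¬ ZC → Tendsto (fun x : ℝ => (∫ u in (1:ℝ)..x, (F (vals θ u) / u) ^ 2) / Real.log x) atTop atTop) := by
  obtain ⟨h1, h2⟩ := (between_vals F hF θ).limit hθ0 hθ le_rfl one_pos le_rfl
  have e : ∀ L : ℝ, max (Real.log 1) ((1 - 1) * L) = 0 := by intro L; simp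
  simp only [e, one_mul] at h1 h2
  have hc : ∀ l : Filter ℝ, Tendsto (fun L : ℝ =>
      JP id (fun u => sg (Mx u) * F (nvals (⌊u - u ^ θ⌋₊, ⌊u + u ^ θ⌋₊))) 0 L / L) atTop l →
      Tendsto (fun x : ℝ => (∫ u in (1:ℝ)..x, (F (vals θ u) / u) ^ 2) / Real.log x) atTop l := by
    intro l hl
    refine (hl.comp Real.tendsto_log_atTop).congr' ?_
    filter_upwards [eventually_ge_atTop 1] with x hx
    simp only [Function.comp]
    rw [vals_integral F θ hx]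
  exact ⟨fun hZ => hc _ (h1 hZ), fun hZ => hc _ (h2 hZ)⟩

/-! ### powers -/

/-- the largest `k`-th power up to `u` -/
def pw (k : ℕ) (u : ℝ) : ℝ := ((⌊u ^ (1 / k : ℝ)⌋₊ : ℕ) : ℝ) ^ k

lemma pw_meas (k : ℕ) : Measurable (pw k) := by
  unfold pw
  refine Measurable.pow_const ?_ k
  exact (measurable_of_countable (fun n : ℕ => (n : ℝ))).comp (Nat.measurable_floor.comp (by fun_prop))

lemma pw_near {k : ℕ} (hk : 1 ≤ k) : ∃ X : ℝ, 1 ≤ X ∧ ∀ x : ℝ, X ≤ x → |pw k x - x| ≤ x ^ (1 - 1 / (2 * k) : ℝ) := by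
  have hk0 : (0:ℝ) < k := by exact_mod_cast hk
  have ht : Tendsto (fun x : ℝ => x ^ (1 / (2 * k) : ℝ)) atTop atTop := tendsto_rpow_atTop (by positivity)
  obtain ⟨X, hX⟩ := eventually_atTop.1 (ht.eventually_ge_atTop (k : ℝ))
  refine ⟨max X 1, le_max_right _ _, fun x hx => ?_⟩
  have hx1 : 1 ≤ x := (le_max_right _ _).trans hx
  have hx0 : 0 < x := by linarith
  have h6 := hX x ((le_max_left _ _).trans hx)
  set r : ℝ := x ^ (1 / k : ℝ) with hr
  have hr1 : 1 ≤ r := Real.one_le_rpow hx1 (by positivity)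
  have hrk : r ^ k = x := by
    rw [hr, ← Real.rpow_natCast, ← Real.rpow_mul hx0.le]
    have : 1 / (k:ℝ) * k = 1 := by field_simp
    rw [this, Real.rpow_one]
  have hpw : pw k x = ((⌊r⌋₊ : ℕ) : ℝ) ^ k := rfl
  rw [hpw]
  set n : ℕ := ⌊r⌋₊ with hn
  have hn1 : (n : ℝ) ≤ r := Nat.floor_le (by linarith)
  have hn2 : r < n + 1 := Nat.lt_floor_add_one r
  have h1 : (n : ℝ) ^ k ≤ x := by rw [← hrk]; exact pow_le_pow_left₀ (Nat.cast_nonneg n) hn1 k
  rw [abs_sub_comm, abs_of_nonneg (by linarith)]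
  have h2 : x - (n : ℝ) ^ k ≤ k * r ^ (k - 1) := by
    have h3 := abs_pow_sub_pow_le r (n : ℝ) k
    rw [hrk, abs_of_nonneg (by linarith), abs_of_nonneg (by linarith), abs_of_nonneg (by linarith),
      abs_of_nonneg (Nat.cast_nonneg n), max_eq_left hn1] at h3
    have h5 : 0 ≤ r ^ (k - 1) := by positivity
    have h6 : r - n ≤ 1 := by linarith
    calc x - (n : ℝ) ^ k ≤ (r - n) * k * r ^ (k - 1) := h3
      _ ≤ 1 * k * r ^ (k - 1) := by gcongr
      _ = _ := by ring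
  have h4 : (k:ℝ) * r ^ (k - 1) ≤ x ^ (1 - 1 / (2 * k) : ℝ) := by
    have h5 : r ^ (k - 1) = x ^ (1 - 1 / k : ℝ) := by
      rw [hr, ← Real.rpow_natCast, ← Real.rpow_mul hx0.le, Nat.cast_sub hk]
      congr 1
      push_cast
      field_simp
    calc (k:ℝ) * r ^ (k - 1) ≤ x ^ (1 / (2 * k) : ℝ) * x ^ (1 - 1 / k : ℝ) := by rw [h5]; gcongr
      _ = x ^ (1 - 1 / (2 * k) : ℝ) := by
        rw [← Real.rpow_add hx0]; congr 1; field_simp; ring
  exact h2.trans h4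

lemma between_pw {k : ℕ} (hk : 1 ≤ k) : ∃ a₀ : ℕ, 1 ≤ a₀ ∧
    Between (1 - 1 / (2 * k)) ((a₀ : ℝ) ^ k) (fun u => Mx (pw k u)) := by
  obtain ⟨X, hX1, hX⟩ := pw_near hk
  refine ⟨⌈X⌉₊, Nat.one_le_iff_ne_zero.2 (by positivity), Mx_meas.comp (pw_meas k), fun x hx => ?_⟩
  have h0 : (1:ℝ) ≤ ⌈X⌉₊ := hX1.trans (Nat.le_ceil X)
  have h1 : X ≤ x := by
    calc X ≤ ⌈X⌉₊ := Nat.le_ceil X
      _ ≤ (⌈X⌉₊ : ℝ) ^ k := le_self_pow₀ h0 (by omega)
      _ ≤ x := hx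
  have hx0 : 0 ≤ x := by linarith
  exact ⟨pw k x, x, hX x h1, by rw [sub_self, abs_zero]; positivity, le_rfl⟩

lemma pw_eq {k : ℕ} (hk : 1 ≤ k) {n : ℕ} {u : ℝ} (h1 : (n : ℝ) ^ k ≤ u) (h2 : u < ((n : ℝ) + 1) ^ k) :
    pw k u = (n : ℝ) ^ k := by
  have hk0 : (0:ℝ) < k := by exact_mod_cast hk
  have hu0 : 0 ≤ u := le_trans (by positivity) h1
  have e : ∀ z : ℝ, 0 ≤ z → (z ^ k) ^ (1 / k : ℝ) = z := by
    intro z hz
    rw [← Real.rpow_natCast, ← Real.rpow_mul hz]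
    have : (k:ℝ) * (1 / k) = 1 := by field_simp
    rw [this, Real.rpow_one]
  have h3 : (n : ℝ) ≤ u ^ (1 / k : ℝ) := by
    rw [← e n (Nat.cast_nonneg n)]
    exact Real.rpow_le_rpow (by positivity) h1 (by positivity)
  have h4 : u ^ (1 / k : ℝ) < (n : ℝ) + 1 := by
    rw [← e (n + 1) (by positivity)]
    exact Real.rpow_lt_rpow hu0 h2 (by positivity)
  unfold pw
  have : ⌊u ^ (1 / k : ℝ)⌋₊ = n := by
    rw [Nat.floor_eq_iff (by positivity)]
    exact ⟨h3, h4⟩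
  rw [this]

/-- the weight of the interval `[n^k, (n+1)^k]` -/
def wt (k n : ℕ) : ℝ := 1 / (n : ℝ) ^ k - 1 / ((n : ℝ) + 1) ^ k

lemma JP_piece {k : ℕ} (hk : 1 ≤ k) {n : ℕ} (hn : 1 ≤ n) :
    JP id (fun u => Mx (pw k u)) (Real.log ((n : ℝ) ^ k)) (Real.log (((n : ℝ) + 1) ^ k)) =
      Mx ((n : ℝ) ^ k) ^ 2 * wt k n := by
  have hn0 : (0:ℝ) < n := by exact_mod_cast hn
  have hle : Real.log ((n : ℝ) ^ k) ≤ Real.log (((n : ℝ) + 1) ^ k) := by
    apply Real.log_le_log (by positivity)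
    gcongr
    linarith
  unfold JP
  rw [integral_Ioc_eq_integral_Ioo]
  have h1 : ∫ v in Ioo (Real.log ((n : ℝ) ^ k)) (Real.log (((n : ℝ) + 1) ^ k)), id (Mx (pw k (Real.exp v))) ^ 2 * Real.exp (-v) =
      ∫ v in Ioo (Real.log ((n : ℝ) ^ k)) (Real.log (((n : ℝ) + 1) ^ k)), Mx ((n : ℝ) ^ k) ^ 2 * Real.exp (-v) := by
    refine setIntegral_congr_fun measurableSet_Ioo fun v hv => ?_
    simp only [id]
    rw [pw_eq hk (n := n)]
    · rw [← Real.log_le_iff_le_exp (by positivity)]; exact hv.1.le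
    · rw [← Real.lt_log_iff_exp_lt (by positivity)]; exact hv.2
  rw [h1, ← integral_Ioc_eq_integral_Ioo, ← intervalIntegral.integral_of_le hle, intervalIntegral.integral_const_mul]
  congr 1
  have h2 : ∫ x in Real.log ((n : ℝ) ^ k)..Real.log (((n : ℝ) + 1) ^ k), Real.exp (-x) =
      ∫ x in (-Real.log (((n : ℝ) + 1) ^ k))..(-Real.log ((n : ℝ) ^ k)), Real.exp x :=
    intervalIntegral.integral_comp_neg (fun x => Real.exp x)
  rw [h2, integral_exp, Real.exp_neg, Real.exp_neg, Real.exp_log (by positivity), Real.exp_log (by positivity)]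
  unfold wt
  rw [one_div, one_div]

lemma JP_sum {k : ℕ} (hk : 1 ≤ k) {a₀ : ℕ} (ha₀ : 1 ≤ a₀)
    (h : Between (1 - 1 / (2 * k)) ((a₀ : ℝ) ^ k) (fun u => Mx (pw k u))) {N : ℕ} (hN : a₀ ≤ N) :
    JP id (fun u => Mx (pw k u)) (Real.log ((a₀ : ℝ) ^ k)) (Real.log ((N : ℝ) ^ k)) =
      ∑ n ∈ Finset.Ico a₀ N, Mx ((n : ℝ) ^ k) ^ 2 * wt k n := by
  have hk0 : (0:ℝ) < k := by exact_mod_cast hk
  have ha0 : (1:ℝ) ≤ a₀ := by exact_mod_cast ha₀
  have hθ : (1 - 1 / (2 * k) : ℝ) < 1 := by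
    have : 0 < 1 / (2 * (k:ℝ)) := by positivity
    linarith
  induction N, hN using Nat.le_induction with
  | base =>
    rw [Finset.Ico_self, Finset.sum_empty]
    unfold JP
    rw [Ioc_self, setIntegral_empty]
  | succ N hN ih =>
    have hN1 : 1 ≤ N := ha₀.trans hN
    have hN0 : (0:ℝ) < N := by exact_mod_cast hN1
    have haN : (a₀ : ℝ) ≤ N := by exact_mod_cast hN
    have l1 : Real.log ((a₀ : ℝ) ^ k) ≤ Real.log ((N : ℝ) ^ k) := by
      apply Real.log_le_log (by positivity)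
      gcongr
    have l2 : Real.log ((N : ℝ) ^ k) ≤ Real.log (((N : ℝ) + 1) ^ k) := by
      apply Real.log_le_log (by positivity)
      gcongr
      linarith
    rw [Finset.sum_Ico_succ_top hN, ← ih, ← JP_piece hk hN1]
    push_cast
    exact JP_add l1 l2 (h.integrable hθ (one_le_pow₀ ha0) measurable_id (fun x => le_rfl) le_rfl)

lemma wt_le {k n : ℕ} (hn : 1 ≤ n) : wt k n ≤ k / (n : ℝ) ^ (k + 1) := by
  have hn0 : (0:ℝ) < n := by exact_mod_cast hn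
  have h1 := one_add_mul_le_pow (a := -(1 / ((n:ℝ) + 1))) (by
    have : 1 / ((n:ℝ) + 1) ≤ 1 := by rw [div_le_one (by positivity)]; linarith
    linarith) k
  have e1 : (1 + -(1 / ((n:ℝ) + 1))) = n / (n + 1) := by field_simp; ring
  rw [e1, div_pow] at h1
  unfold wt
  have h2 : 1 / (n : ℝ) ^ k - 1 / ((n : ℝ) + 1) ^ k = (1 / (n : ℝ) ^ k) * (1 - (n:ℝ) ^ k / ((n : ℝ) + 1) ^ k) := by
    field_simp
  rw [h2]
  calc (1 / (n : ℝ) ^ k) * (1 - (n:ℝ) ^ k / ((n : ℝ) + 1) ^ k) ≤ (1 / (n : ℝ) ^ k) * (k * (1 / ((n:ℝ) + 1))) := by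
        gcongr
        linarith
    _ ≤ (1 / (n : ℝ) ^ k) * (k * (1 / n)) := by
        gcongr
        linarith
    _ = _ := by rw [pow_succ]; field_simp

lemma wt_ge {k n : ℕ} (hn : 1 ≤ n) : k / (n : ℝ) ^ (k + 1) * ((n : ℝ) / (n + 1)) ^ k ≤ wt k n := by
  have hn0 : (0:ℝ) < n := by exact_mod_cast hn
  have h1 := one_add_mul_le_pow (a := (1 / (n:ℝ))) (by
    have : 0 < 1 / (n:ℝ) := by positivity
    linarith) k
  have e1 : (1 + (1 / (n:ℝ))) = (n + 1) / n := by field_simp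
  rw [e1, div_pow] at h1
  unfold wt
  have h2 : 1 / (n : ℝ) ^ k - 1 / ((n : ℝ) + 1) ^ k = (1 / ((n : ℝ) + 1) ^ k) * (((n:ℝ) + 1) ^ k / (n : ℝ) ^ k - 1) := by
    field_simp
  rw [h2]
  calc k / (n : ℝ) ^ (k + 1) * ((n : ℝ) / (n + 1)) ^ k = (1 / ((n : ℝ) + 1) ^ k) * (k * (1 / n)) := by
        rw [div_pow, pow_succ]; field_simp
    _ ≤ _ := by
        gcongr
        linarith

lemma wt_nonneg {k n : ℕ} (hn : 1 ≤ n) : 0 ≤ wt k n := by
  have := wt_ge (k := k) hn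
  refine le_trans ?_ this
  positivity

lemma sum_cmp (u w : ℕ → ℝ) (hu : ∀ n, 0 ≤ u n) (hw : ∀ n, 1 ≤ n → 0 ≤ w n) {a₀ : ℕ} (ha₀ : 1 ≤ a₀) {c : ℝ}
    (hc : 0 ≤ c) (h : ∀ᶠ n : ℕ in atTop, u n ≤ c * w n) :
    ∃ C : ℝ, ∀ N : ℕ, ∑ n ∈ Finset.Icc 1 N, u n ≤ c * ∑ n ∈ Finset.Ico a₀ (N + 1), w n + C := by
  obtain ⟨n₀, hn₀⟩ := eventually_atTop.1 h
  refine ⟨∑ n ∈ Finset.range (max n₀ a₀), u n, fun N => ?_⟩
  have hsub : Finset.Icc 1 N ⊆ Finset.range (max n₀ a₀) ∪ (Finset.Ico a₀ (N + 1)).filter (fun n => n₀ ≤ n) := by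
    intro n hn
    rw [Finset.mem_Icc] at hn
    rw [Finset.mem_union, Finset.mem_range, Finset.mem_filter, Finset.mem_Ico]
    rcases lt_or_ge n (max n₀ a₀) with hh | hh
    · exact Or.inl hh
    · exact Or.inr ⟨⟨(le_max_right _ _).trans hh, by omega⟩, (le_max_left _ _).trans hh⟩
  calc ∑ n ∈ Finset.Icc 1 N, u n
      ≤ ∑ n ∈ Finset.range (max n₀ a₀) ∪ (Finset.Ico a₀ (N + 1)).filter (fun n => n₀ ≤ n), u n :=
        Finset.sum_le_sum_of_subset_of_nonneg hsub fun n _ _ => hu n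
    _ ≤ ∑ n ∈ Finset.range (max n₀ a₀), u n + ∑ n ∈ (Finset.Ico a₀ (N + 1)).filter (fun n => n₀ ≤ n), u n := by
        rw [← Finset.sum_union_inter]
        have : 0 ≤ ∑ n ∈ Finset.range (max n₀ a₀) ∩ (Finset.Ico a₀ (N + 1)).filter (fun n => n₀ ≤ n), u n :=
          Finset.sum_nonneg fun n _ => hu n
        linarith
    _ ≤ ∑ n ∈ Finset.range (max n₀ a₀), u n + ∑ n ∈ (Finset.Ico a₀ (N + 1)).filter (fun n => n₀ ≤ n), c * w n := by
        gcongr with n hn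
        rw [Finset.mem_filter] at hn
        exact hn₀ n hn.2
    _ ≤ ∑ n ∈ Finset.range (max n₀ a₀), u n + ∑ n ∈ Finset.Ico a₀ (N + 1), c * w n := by
        refine add_le_add le_rfl ?_
        refine Finset.sum_le_sum_of_subset_of_nonneg (Finset.filter_subset (fun n => n₀ ≤ n) _) fun n hn _ => ?_
        rw [Finset.mem_Ico] at hn
        exact mul_nonneg hc (hw n (ha₀.trans hn.1))
    _ = _ := by rw [Finset.mul_sum, add_comm]

/-- `∑_{n ≤ N} M(n^k)²/n^(k+1)` -/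
def PS (k N : ℕ) : ℝ := ∑ n ∈ Finset.Icc 1 N, Mx ((n : ℝ) ^ k) ^ 2 / (n : ℝ) ^ (k + 1)

open Pool.Agent.W120.WM (ZC NT) in
/-- **The mean square at the `k`-th powers.** -/
theorem powers_limit {k : ℕ} (hk : 1 ≤ k) :
    (ZC → Tendsto (fun N : ℕ => PS k N / Real.log N) atTop
      (𝓝 (∑' ρ : NT, 1 / ‖(ρ : ℂ) * deriv riemannZeta ρ‖ ^ 2))) ∧
    (¬ ZC → Tendsto (fun N : ℕ => PS k N / Real.log N) atTop atTop) := by
  have hk0 : (0:ℝ) < k := by exact_mod_cast hk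
  have hk1 : (1:ℝ) ≤ k := by exact_mod_cast hk
  obtain ⟨a₀, ha₀, hB⟩ := between_pw hk
  have ha0 : (1:ℝ) ≤ a₀ := by exact_mod_cast ha₀
  have hθ : (1 - 1 / (2 * k) : ℝ) < 1 := by
    have : 0 < 1 / (2 * (k:ℝ)) := by positivity
    linarith
  have hθ0 : (0:ℝ) ≤ 1 - 1 / (2 * k) := by
    have : 1 / (2 * (k:ℝ)) ≤ 1 := by rw [div_le_one (by positivity)]; linarith
    linarith
  obtain ⟨h1, h2⟩ := hB.limit hθ0 hθ (one_le_pow₀ ha0) one_pos le_rfl
  have hlog0 : 0 ≤ Real.log ((a₀ : ℝ) ^ k) := Real.log_nonneg (one_le_pow₀ ha0)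
  have e : ∀ L : ℝ, max (Real.log ((a₀ : ℝ) ^ k)) ((1 - 1) * L) = Real.log ((a₀ : ℝ) ^ k) := by
    intro L; rw [sub_self, zero_mul, max_eq_left hlog0]
  simp only [e, one_mul] at h1 h2
  -- the weighted sum
  set G : ℕ → ℝ := fun N => ∑ n ∈ Finset.Ico a₀ (N + 1), Mx ((n : ℝ) ^ k) ^ 2 * wt k n with hG
  set F : ℕ → ℝ := fun N => ∑ n ∈ Finset.Icc 1 N, Mx ((n : ℝ) ^ k) ^ 2 * (k / (n : ℝ) ^ (k + 1)) with hF
  set ℓ : ℕ → ℝ := fun N => Real.log (((N : ℝ) + 1) ^ k) with hℓ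
  have hℓt : Tendsto ℓ atTop atTop := by
    refine Real.tendsto_log_atTop.comp ?_
    refine (tendsto_pow_atTop (by omega)).comp ?_
    exact tendsto_atTop_add_const_right _ _ tendsto_natCast_atTop_atTop
  have hconv : ∀ l : Filter ℝ, Tendsto (fun L : ℝ => JP id (fun u => Mx (pw k u)) (Real.log ((a₀ : ℝ) ^ k)) L / L) atTop l →
      Tendsto (fun N => G N / ℓ N) atTop l := by
    intro l hl
    refine (hl.comp hℓt).congr' ?_
    filter_upwards [eventually_ge_atTop a₀] with N hN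
    simp only [Function.comp, hG, hℓ]
    rw [← JP_sum hk ha₀ hB (show a₀ ≤ N + 1 by omega)]
    push_cast
    rfl
  have hFG : ∀ ε : ℝ, 0 < ε → ∃ C : ℝ, ∀ᶠ N : ℕ in atTop, F N ≤ (1 + ε) * G N + C := by
    intro ε hε
    have hr : Tendsto (fun n : ℕ => (1 + ε) * ((n : ℝ) / (n + 1)) ^ k) atTop (𝓝 ((1 + ε) * 1 ^ k)) :=
      (tendsto_natCast_div_add_atTop (1:ℝ)).pow k |>.const_mul _
    rw [one_pow, mul_one] at hr
    obtain ⟨C, hC⟩ := sum_cmp (fun n => Mx ((n : ℝ) ^ k) ^ 2 * (k / (n : ℝ) ^ (k + 1)))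
      (fun n => Mx ((n : ℝ) ^ k) ^ 2 * wt k n) (fun n => by positivity)
      (fun n hn => mul_nonneg (sq_nonneg _) (wt_nonneg hn)) ha₀ (c := 1 + ε) (by linarith) (by
        filter_upwards [hr.eventually (lt_mem_nhds (show (1:ℝ) < 1 + ε by linarith)), eventually_ge_atTop 1] with n hn hn1
        have h3 := wt_ge (k := k) hn1
        have h4 : (0:ℝ) ≤ k / (n : ℝ) ^ (k + 1) := by positivity
        have h5 : k / (n : ℝ) ^ (k + 1) ≤ (1 + ε) * wt k n := by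
          calc k / (n : ℝ) ^ (k + 1) ≤ k / (n : ℝ) ^ (k + 1) * ((1 + ε) * ((n : ℝ) / (n + 1)) ^ k) := by
                nlinarith
            _ = (1 + ε) * (k / (n : ℝ) ^ (k + 1) * ((n : ℝ) / (n + 1)) ^ k) := by ring
            _ ≤ _ := by gcongr
        calc Mx ((n : ℝ) ^ k) ^ 2 * (k / (n : ℝ) ^ (k + 1)) ≤ Mx ((n : ℝ) ^ k) ^ 2 * ((1 + ε) * wt k n) := by gcongr
          _ = _ := by ring)
    exact ⟨C, Eventually.of_forall hC⟩
  have hGF : ∀ ε : ℝ, 0 < ε → ∃ C : ℝ, ∀ᶠ N : ℕ in atTop, G N ≤ (1 + ε) * F N + C := by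
    intro ε hε
    refine ⟨0, Eventually.of_forall fun N => ?_⟩
    have h3 : G N ≤ F N := by
      calc G N ≤ ∑ n ∈ Finset.Ico a₀ (N + 1), Mx ((n : ℝ) ^ k) ^ 2 * (k / (n : ℝ) ^ (k + 1)) := by
            refine Finset.sum_le_sum fun n hn => ?_
            rw [Finset.mem_Ico] at hn
            have := wt_le (k := k) (ha₀.trans hn.1)
            gcongr
        _ ≤ F N := by
            refine Finset.sum_le_sum_of_subset_of_nonneg ?_ fun n _ _ => by positivity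
            intro n hn
            rw [Finset.mem_Ico] at hn
            rw [Finset.mem_Icc]
            omega
    have h4 : 0 ≤ F N := Finset.sum_nonneg fun n _ => by positivity
    nlinarith
  -- from `F/ℓ` to the final quotient
  have hFP : ∀ N, F N = k * PS k N := by
    intro N
    simp only [hF]
    unfold PS
    rw [Finset.mul_sum]
    refine Finset.sum_congr rfl fun n _ => ?_
    ring
  have hlogr : Tendsto (fun N : ℕ => Real.log ((N : ℝ) + 1) / Real.log N) atTop (𝓝 1) := by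
    have h3 : Tendsto (fun N : ℕ => Real.log (((N : ℝ) + 1) / N)) atTop (𝓝 0) := by
      have h4 : Tendsto (fun N : ℕ => ((N : ℝ) + 1) / N) atTop (𝓝 1) := by
        have h5 := (tendsto_natCast_div_add_atTop (1:ℝ)).inv₀ one_ne_zero
        rw [inv_one] at h5
        refine h5.congr fun N => ?_
        rw [inv_div]
      have := (Real.continuousAt_log (show (1:ℝ) ≠ 0 by norm_num)).tendsto.comp h4
      rw [Real.log_one] at this
      exact this
    have hln : Tendsto (fun N : ℕ => Real.log (N : ℝ)) atTop atTop :=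
      Real.tendsto_log_atTop.comp tendsto_natCast_atTop_atTop
    have h6 := (h3.div_atTop hln).const_add 1
    rw [add_zero] at h6
    refine h6.congr' ?_
    filter_upwards [eventually_ge_atTop 2] with N hN
    have hN0 : (0:ℝ) < N := by positivity
    have hl : 0 < Real.log (N : ℝ) := Real.log_pos (by exact_mod_cast hN)
    rw [Real.log_div (by positivity) hN0.ne']
    field_simp
    ring
  have hPS : ∀ᶠ N : ℕ in atTop, PS k N / Real.log N = F N / ℓ N * (Real.log ((N : ℝ) + 1) / Real.log N) := by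
    filter_upwards [eventually_ge_atTop 2] with N hN
    have hN0 : (0:ℝ) < N := by positivity
    have hN2 : (2:ℝ) ≤ N := by exact_mod_cast hN
    have hl : 0 < Real.log (N : ℝ) := Real.log_pos (by linarith)
    have hl2 : 0 < Real.log ((N : ℝ) + 1) := Real.log_pos (by linarith)
    rw [hFP]
    simp only [hℓ]
    rw [Real.log_pow]
    field_simp
  refine ⟨fun hZ => ?_, fun hZ => ?_⟩
  · have h3 := lim_transfer hℓt hFG hGF (hconv _ (h1 hZ))
    have h4 := h3.mul hlogr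
    rw [mul_one] at h4
    exact h4.congr' (hPS.mono fun N h => h.symm)
  · have h3 := top_transfer hℓt hGF (hconv _ (h2 hZ))
    have h4 := h3.atTop_mul_pos one_pos hlogr
    exact h4.congr' (hPS.mono fun N h => h.symm)

end

end Q241SPL
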