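import Pool.Agent.Q241.SPL.Inc

/-!
Sampling principle, part 2: dyadic chaining.
-/

set_option autoImplicit false

open MeasureTheory Filter Topology Set
open Pool.Agent.H295R2

namespace Q241SPL

noncomputable section

/-- one dyadic level of the increments of `g` on `[w - h, w]` -/
def lev (g : ℝ → ℝ) (h : ℝ) (i : ℕ) (w : ℝ) : ℝ :=
  ∑ m ∈ Finset.range (2 ^ i), (g (w - m * (h / 2 ^ i)) - g (w - m * (h / 2 ^ i) - h / 2 ^ i)) ^ 2

lemma lev_nonneg (g : ℝ → ℝ) (h : ℝ) (i : ℕ) (w : ℝ) : 0 ≤ lev g h i w :=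
  Finset.sum_nonneg fun _ _ => sq_nonneg _

lemma lev_term_le (g : ℝ → ℝ) (h : ℝ) (i : ℕ) (w : ℝ) {m : ℕ} (hm : m < 2 ^ i) :
    |g (w - m * (h / 2 ^ i)) - g (w - m * (h / 2 ^ i) - h / 2 ^ i)| ≤ Real.sqrt (lev g h i w) := by
  apply Real.le_sqrt_of_sq_le
  rw [sq_abs]
  unfold lev
  exact Finset.single_le_sum (f := fun m : ℕ =>
    (g (w - m * (h / 2 ^ i)) - g (w - m * (h / 2 ^ i) - h / 2 ^ i)) ^ 2)
    (fun _ _ => sq_nonneg _) (Finset.mem_range.2 hm)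

lemma chain (g : ℝ → ℝ) {h x : ℝ} (hx0 : 0 ≤ x) (hx1 : x ≤ 1) (w : ℝ) (L : ℕ) :
    |g w - g (w - (⌊x * 2 ^ L⌋₊ : ℝ) * (h / 2 ^ L))| ≤
      ∑ i ∈ Finset.range (L + 1), Real.sqrt (lev g h i w) := by
  induction L with
  | zero =>
    simp only [pow_zero, mul_one, div_one, zero_add, Finset.range_one, Finset.sum_singleton]
    rcases eq_or_lt_of_le hx1 with h1 | h1
    · rw [h1]
      have := lev_term_le g h 0 w (m := 0) (by norm_num)
      simpa using this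
    · have : ⌊x⌋₊ = 0 := Nat.floor_eq_zero.2 h1
      rw [this]
      simp
  | succ L ih =>
    rw [Finset.sum_range_succ]
    set q : ℕ := ⌊x * 2 ^ (L + 1)⌋₊ with hq
    have hdiv : ⌊x * 2 ^ L⌋₊ = q / 2 := by
      rw [hq, ← Nat.floor_div_ofNat]
      congr 1
      rw [pow_succ]
      have : (OfNat.ofNat 2 : ℝ) = 2 := rfl
      rw [this]
      ring
    have hqle : q ≤ 2 ^ (L + 1) := by
      rw [hq]
      have h1 : x * 2 ^ (L + 1) ≤ ((2 ^ (L + 1) : ℕ) : ℝ) := by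
        push_cast
        have : (0:ℝ) < 2 ^ (L + 1) := by positivity
        nlinarith
      exact Nat.floor_le_of_le h1
    rw [hdiv] at ih
    have hpt : w - ((q / 2 : ℕ) : ℝ) * (h / 2 ^ L) = w - ((2 * (q / 2) : ℕ) : ℝ) * (h / 2 ^ (L + 1)) := by
      push_cast
      rw [pow_succ]
      field_simp
    rw [hpt] at ih
    rcases Nat.mod_two_eq_zero_or_one q with h0 | h1
    · have h2 : 2 * (q / 2) = q := by omega
      rw [h2] at ih
      exact ih.trans (le_add_of_nonneg_right (Real.sqrt_nonneg _))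
    · have h2 : q = 2 * (q / 2) + 1 := by omega
      have hlt : 2 * (q / 2) < 2 ^ (L + 1) := by omega
      have h3 := lev_term_le g h (L + 1) w hlt
      have e1 : w - (q : ℝ) * (h / 2 ^ (L + 1)) =
          w - ((2 * (q / 2) : ℕ) : ℝ) * (h / 2 ^ (L + 1)) - h / 2 ^ (L + 1) := by
        have h4 : (q : ℝ) = ((2 * (q / 2) : ℕ) : ℝ) + 1 := by exact_mod_cast h2
        rw [h4]; ring
      rw [e1]
      calc |g w - g (w - ((2 * (q / 2) : ℕ) : ℝ) * (h / 2 ^ (L + 1)) - h / 2 ^ (L + 1))|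
          = |(g w - g (w - ((2 * (q / 2) : ℕ) : ℝ) * (h / 2 ^ (L + 1)))) +
            (g (w - ((2 * (q / 2) : ℕ) : ℝ) * (h / 2 ^ (L + 1))) -
              g (w - ((2 * (q / 2) : ℕ) : ℝ) * (h / 2 ^ (L + 1)) - h / 2 ^ (L + 1)))| := by
            congr 1; ring
        _ ≤ _ := (abs_add_le _ _).trans (add_le_add ih h3)

lemma sum_sqrt_sq_le (g : ℝ → ℝ) (h w : ℝ) (L : ℕ) :
    (∑ i ∈ Finset.range (L + 1), Real.sqrt (lev g h i w)) ^ 2 ≤
      (L + 1) * ∑ i ∈ Finset.range (L + 1), lev g h i w := by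
  have h1 := sq_sum_le_card_mul_sum_sq (s := Finset.range (L + 1)) (f := fun i => Real.sqrt (lev g h i w))
  rw [Finset.card_range] at h1
  push_cast at h1
  refine h1.trans (le_of_eq ?_)
  congr 1
  exact Finset.sum_congr rfl fun i _ => Real.sq_sqrt (lev_nonneg _ _ _ _)

/-- trivial bound for a short sum -/
lemma S_sub_le {f : ℕ → ℝ} {C η : ℝ} (hη : 0 < η) (hC : ∀ n : ℕ, 1 ≤ n → |f n| ≤ C * (n : ℝ) ^ η) {x y : ℝ} (hx : 0 ≤ x)
    (hxy : x ≤ y) : |S f y - S f x| ≤ C * y ^ η * (y - x + 1) := by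
  have hC0 : 0 ≤ C := by
    have := (abs_nonneg _).trans (hC 1 le_rfl)
    simpa using this
  have hfl : ⌊x⌋₊ ≤ ⌊y⌋₊ := Nat.floor_le_floor hxy
  have hy : 0 ≤ y := hx.trans hxy
  have e0 : Finset.Icc 1 ⌊y⌋₊ = Finset.Icc 1 ⌊x⌋₊ ∪ Finset.Ioc ⌊x⌋₊ ⌊y⌋₊ := by
    ext m
    simp only [Finset.mem_Icc, Finset.mem_union, Finset.mem_Ioc]
    omega
  have hd : Disjoint (Finset.Icc 1 ⌊x⌋₊) (Finset.Ioc ⌊x⌋₊ ⌊y⌋₊) := by
    rw [Finset.disjoint_left]
    intro m hm1 hm2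
    rw [Finset.mem_Icc] at hm1
    rw [Finset.mem_Ioc] at hm2
    omega
  have e1 : S f y - S f x = ∑ m ∈ Finset.Ioc ⌊x⌋₊ ⌊y⌋₊, f m := by
    unfold S
    rw [e0, Finset.sum_union hd]; ring
  rw [e1]
  calc |∑ m ∈ Finset.Ioc ⌊x⌋₊ ⌊y⌋₊, f m| ≤ ∑ m ∈ Finset.Ioc ⌊x⌋₊ ⌊y⌋₊, |f m| := Finset.abs_sum_le_sum_abs _ _
    _ ≤ ∑ m ∈ Finset.Ioc ⌊x⌋₊ ⌊y⌋₊, C * y ^ η := by
        refine Finset.sum_le_sum fun m hm => ?_
        rw [Finset.mem_Ioc] at hm
        refine (hC m (by omega)).trans ?_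
        have h1 : (m:ℝ) ≤ y := (Nat.le_floor_iff hy).1 hm.2
        gcongr
    _ = (⌊y⌋₊ - ⌊x⌋₊ : ℕ) * (C * y ^ η) := by simp
    _ ≤ (y - x + 1) * (C * y ^ η) := by
        have h1 : ((⌊y⌋₊ - ⌊x⌋₊ : ℕ) : ℝ) = (⌊y⌋₊ : ℝ) - ⌊x⌋₊ := by push_cast [hfl]; ring
        have h2 : (⌊y⌋₊ : ℝ) ≤ y := Nat.floor_le hy
        have h3 : x < ⌊x⌋₊ + 1 := Nat.lt_floor_add_one x
        rw [h1]
        gcongr
        linarith
    _ = _ := by ring

/-- the real partial sum in the logarithmic scale -/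
def G (f : ℕ → ℝ) (u : ℝ) : ℝ := S f (Real.exp u)

lemma G_meas (f : ℕ → ℝ) : Measurable (G f) := (S_meas f).comp Real.measurable_exp

lemma norm_dF_sq (f : ℕ → ℝ) (h u : ℝ) : ‖dF f h u‖ ^ 2 = (G f u - G f (u - h)) ^ 2 := by
  unfold dF F G
  rw [← Complex.ofReal_sub, Complex.norm_real, Real.norm_eq_abs, sq_abs]

/-- pointwise chaining for `G f` on `[w - h, w]` -/
lemma chain_G {f : ℕ → ℝ} {C η : ℝ} (hη : 0 < η) (hC : ∀ n : ℕ, 1 ≤ n → |f n| ≤ C * (n : ℝ) ^ η) {h w u : ℝ} (hh : 0 < h)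
    (h1 : w - h ≤ u) (h2 : u ≤ w) (L : ℕ) :
    (G f w - G f u) ^ 2 ≤ 2 * ((L + 1) * ∑ i ∈ Finset.range (L + 1), lev (G f) h i w) +
      2 * (C * Real.exp (η * w) * (Real.exp w * (h / 2 ^ L) + 1)) ^ 2 := by
  have hC0 : 0 ≤ C := by
    have := (abs_nonneg _).trans (hC 1 le_rfl)
    simpa using this
  set x : ℝ := (w - u) / h with hx
  have hx0 : 0 ≤ x := div_nonneg (by linarith) hh.le
  have hx1 : x ≤ 1 := by rw [hx, div_le_one hh]; linarith
  have hwu : u = w - x * h := by rw [hx]; field_simp; ring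
  set q : ℝ := (⌊x * 2 ^ L⌋₊ : ℝ) with hq
  have hp : (0:ℝ) < 2 ^ L := by positivity
  have hq1 : q ≤ x * 2 ^ L := Nat.floor_le (by positivity)
  have hq2 : x * 2 ^ L < q + 1 := Nat.lt_floor_add_one _
  have c1 := chain (G f) (h := h) hx0 hx1 w L
  rw [← hq] at c1
  set v : ℝ := w - q * (h / 2 ^ L) with hv
  have hvu : u ≤ v := by
    rw [hwu, hv]
    have : q * (h / 2 ^ L) ≤ x * h := by
      calc q * (h / 2 ^ L) ≤ (x * 2 ^ L) * (h / 2 ^ L) := by gcongr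
        _ = x * h := by field_simp
    linarith
  have hvu2 : v - u ≤ h / 2 ^ L := by
    rw [hwu, hv]
    have : x * h ≤ (q + 1) * (h / 2 ^ L) := by
      calc x * h = (x * 2 ^ L) * (h / 2 ^ L) := by field_simp
        _ ≤ (q + 1) * (h / 2 ^ L) := by gcongr
    nlinarith
  have hvw : v ≤ w := by
    rw [hv]
    have : 0 ≤ q * (h / 2 ^ L) := by positivity
    linarith
  have c2 : |G f v - G f u| ≤ C * Real.exp (η * w) * (Real.exp w * (h / 2 ^ L) + 1) := by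
    unfold G
    have h3 := S_sub_le hη hC (Real.exp_pos u).le (Real.exp_le_exp.2 hvu)
    refine h3.trans ?_
    have h4 : (Real.exp v) ^ η ≤ Real.exp (η * w) := by
      rw [← Real.exp_mul]
      apply Real.exp_le_exp.2
      nlinarith
    have h5 : Real.exp v - Real.exp u ≤ Real.exp w * (h / 2 ^ L) := by
      have h6 : Real.exp u = Real.exp v * Real.exp (u - v) := by rw [← Real.exp_add]; ring_nf
      have h7 := Real.add_one_le_exp (u - v)
      have h8 : Real.exp v ≤ Real.exp w := Real.exp_le_exp.2 hvw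
      calc Real.exp v - Real.exp u = Real.exp v * (1 - Real.exp (u - v)) := by rw [h6]; ring
        _ ≤ Real.exp v * (h / 2 ^ L) := by
          gcongr
          linarith
        _ ≤ Real.exp w * (h / 2 ^ L) := by gcongr
    have h9 : 0 ≤ Real.exp v - Real.exp u := by
      have := Real.exp_le_exp.2 hvu
      linarith
    gcongr
  have c3 : |G f w - G f u| ≤ (∑ i ∈ Finset.range (L + 1), Real.sqrt (lev (G f) h i w)) +
      C * Real.exp (η * w) * (Real.exp w * (h / 2 ^ L) + 1) := by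
    calc |G f w - G f u| = |(G f w - G f v) + (G f v - G f u)| := by congr 1; ring
      _ ≤ _ := (abs_add_le _ _).trans (add_le_add c1 c2)
  have hs0 : 0 ≤ ∑ i ∈ Finset.range (L + 1), Real.sqrt (lev (G f) h i w) :=
    Finset.sum_nonneg fun _ _ => Real.sqrt_nonneg _
  have c4 := sum_sqrt_sq_le (G f) h w L
  set A := ∑ i ∈ Finset.range (L + 1), Real.sqrt (lev (G f) h i w)
  set B := C * Real.exp (η * w) * (Real.exp w * (h / 2 ^ L) + 1)
  calc (G f w - G f u) ^ 2 = |G f w - G f u| ^ 2 := (sq_abs _).symm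
    _ ≤ (A + B) ^ 2 := pow_le_pow_left₀ (abs_nonneg _) c3 2
    _ ≤ 2 * A ^ 2 + 2 * B ^ 2 := by nlinarith [sq_nonneg (A - B)]
    _ ≤ _ := by linarith

end

end Q241SPL
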