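import Pool.Agent.Q241.SPL.Landau

/-!
Boundary behaviour of the Laplace transform of a function bounded on one side.
-/

set_option autoImplicit false

open MeasureTheory Filter Topology Set

namespace Q241SPL

noncomputable section

/-- a function with exponential growth has a Laplace transform -/
lemma Fi_of_bound {φ : ℝ → ℝ} (hm : Measurable φ) {C a σ : ℝ} (ha : a < σ)
    (hb : ∀ v, 0 ≤ v → |φ v| ≤ C * Real.exp (a * v)) : Fi φ σ := by
  unfold Fi
  have h1 : IntegrableOn (fun v : ℝ => C * Real.exp ((a - σ) * v)) (Ici 0) := by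
    refine Integrable.const_mul ?_ C
    exact (integrableOn_Ici_iff_integrableOn_Ioi).2 (integrableOn_exp_mul_Ioi (by linarith) 0)
  refine Integrable.mono' h1 ?_ ?_
  · exact (hm.mul (Continuous.measurable (by fun_prop))).aestronglyMeasurable
  · filter_upwards [ae_restrict_mem measurableSet_Ici] with v hv
    rw [norm_mul, Real.norm_of_nonneg (Real.exp_pos _).le, Real.norm_eq_abs]
    calc |φ v| * Real.exp (-(σ * v)) ≤ (C * Real.exp (a * v)) * Real.exp (-(σ * v)) := by
          gcongr; exact hb v hv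
      _ = C * Real.exp ((a - σ) * v) := by rw [mul_assoc, ← Real.exp_add]; congr 2; ring

/-- `e^(c v) v^j` -/
def E (c : ℝ) (j : ℕ) (v : ℝ) : ℝ := Real.exp (c * v) * v ^ j

lemma E_meas (c : ℝ) (j : ℕ) : Measurable (E c j) := by
  unfold E
  exact Continuous.measurable (by fun_prop)

lemma E_Fi {c σ : ℝ} (h : c < σ) (j : ℕ) : Fi (E c j) σ := by
  set δ : ℝ := (σ - c) / 2 with hδ
  have hδ0 : 0 < δ := by rw [hδ]; linarith
  refine Fi_of_bound (E_meas c j) (C := (j.factorial : ℝ) / δ ^ j) (a := c + δ) (by rw [hδ]; linarith) ?_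
  intro v hv
  unfold E
  rw [abs_of_nonneg (by positivity)]
  have h1 := Real.pow_div_factorial_le_exp (δ * v) (by positivity) j
  have hj : (0:ℝ) < j.factorial := by exact_mod_cast Nat.factorial_pos j
  have h2 : v ^ j ≤ (j.factorial : ℝ) / δ ^ j * Real.exp (δ * v) := by
    rw [div_le_iff₀ hj, mul_pow] at h1
    rw [div_mul_eq_mul_div, le_div_iff₀ (by positivity)]
    linarith
  calc Real.exp (c * v) * v ^ j ≤ Real.exp (c * v) * ((j.factorial : ℝ) / δ ^ j * Real.exp (δ * v)) := by gcongr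
    _ = (j.factorial : ℝ) / δ ^ j * (Real.exp (c * v) * Real.exp (δ * v)) := by ring
    _ = _ := by rw [← Real.exp_add]; ring_nf

lemma LL_E {c : ℝ} (j : ℕ) : ∀ s : ℂ, c < s.re → LL (E c j) s = j.factorial / (s - c) ^ (j + 1) := by
  induction j with
  | zero =>
    intro s hs
    unfold LL E
    rw [integral_Ici_eq_integral_Ioi]
    have h1 : ∀ v : ℝ, ((Real.exp (c * v) * v ^ 0 : ℝ) : ℂ) * Complex.exp (-(s * v)) =
        Complex.exp ((c - s) * v) := by
      intro v
      push_cast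
      rw [pow_zero, mul_one, ← Complex.exp_add]; congr 1; ring
    simp_rw [h1]
    rw [integral_exp_mul_complex_Ioi (by simpa using hs)]
    simp only [Complex.ofReal_zero, mul_zero, Complex.exp_zero, Nat.factorial_zero, Nat.cast_one, zero_add, pow_one]
    rw [neg_div, ← div_neg, neg_sub]
  | succ j ih =>
    intro s hs
    have h1 := LL_hasDerivAt (φ := E c j) (A := c) (fun σ hσ => E_Fi hσ j) hs
    have h2 : LL (fun v => v * E c j v) s = LL (E c (j + 1)) s := by
      refine LL_congr fun v _ => ?_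
      unfold E; ring
    rw [h2] at h1
    have hne : s - c ≠ 0 := by
      intro h
      have : (s - c).re = 0 := by rw [h]; simp
      simp at this
      linarith
    have h3 : HasDerivAt (fun z : ℂ => (j.factorial : ℂ) / (z - c) ^ (j + 1))
        (-((j + 1).factorial / (s - c) ^ (j + 1 + 1))) s := by
      have h4 : HasDerivAt (fun z : ℂ => (z - c) ^ (j + 1)) (((j + 1 : ℕ) : ℂ) * (s - c) ^ j * 1) s := by
        exact ((hasDerivAt_id s).sub_const (c:ℂ)).fun_pow (j + 1)
      have h5 := (h4.inv (pow_ne_zero _ hne)).const_mul (j.factorial : ℂ)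
      have h6 : (fun z : ℂ => (j.factorial : ℂ) / (z - c) ^ (j + 1)) =
          fun z : ℂ => (j.factorial : ℂ) * ((fun z : ℂ => (z - c) ^ (j + 1))⁻¹) z := by
        funext z; simp [div_eq_mul_inv]
      rw [h6]
      refine h5.congr_deriv ?_
      rw [Nat.factorial_succ]
      push_cast
      field_simp
      ring
    have hev : LL (E c j) =ᶠ[𝓝 s] fun z : ℂ => (j.factorial : ℂ) / (z - c) ^ (j + 1) := by
      filter_upwards [(halfplane_open' c).mem_nhds hs] with z hz
      exact ih z hz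
    have h7 := h1.unique (h3.congr_of_eventuallyEq hev)
    exact neg_injective h7

/-- the trigonometric moment -/
lemma trig_nonneg {φ : ℝ → ℝ} (h0 : ∀ v, 0 ≤ v → 0 ≤ φ v) {σ : ℝ} (hφ : Fi φ σ) {ι : Type*} (t : Finset ι)
    (c : ι → ℂ) (l : ι → ℝ)
    (hp : ∀ v : ℝ, 0 ≤ v → 0 ≤ ∑ k ∈ t, (c k * Complex.exp (-(l k * v * Complex.I))).re) :
    0 ≤ ∑ k ∈ t, (c k * LL φ (σ + l k * Complex.I)).re := by
  have hre : ∀ k, (σ + l k * Complex.I : ℂ).re = σ := fun k => by simp
  have hi : ∀ k, IntegrableOn (fun v : ℝ => c k * ((φ v : ℂ) * Complex.exp (-((σ + l k * Complex.I) * v)))) (Ici 0) := by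
    intro k
    exact (Fi.cplx (s := σ + l k * Complex.I) (by rw [hre]; exact hφ)).const_mul _
  have e1 : ∑ k ∈ t, (c k * LL φ (σ + l k * Complex.I)).re =
      ∫ v in Ici (0:ℝ), ∑ k ∈ t, (c k * ((φ v : ℂ) * Complex.exp (-((σ + l k * Complex.I) * v)))).re := by
    have hsum := integral_finsetSum (μ := volume.restrict (Ici (0:ℝ))) t
      (f := fun k (v : ℝ) => (c k * ((φ v : ℂ) * Complex.exp (-((σ + l k * Complex.I) * v)))).re) (fun k _ => (hi k).re)
    rw [hsum]
    refine Finset.sum_congr rfl fun k _ => ?_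
    have h1 := integral_re (hi k)
    have h2 : ∫ v in Ici (0:ℝ), c k * ((φ v : ℂ) * Complex.exp (-((σ + l k * Complex.I) * v))) =
        c k * LL φ (σ + l k * Complex.I) := by
      rw [integral_const_mul]; rfl
    rw [h2] at h1
    exact h1.symm
  rw [e1]
  refine setIntegral_nonneg measurableSet_Ici fun v hv => ?_
  have e2 : ∑ k ∈ t, (c k * ((φ v : ℂ) * Complex.exp (-((σ + l k * Complex.I) * v)))).re =
      (φ v * Real.exp (-(σ * v))) * ∑ k ∈ t, (c k * Complex.exp (-(l k * v * Complex.I))).re := by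
    rw [Finset.mul_sum]
    refine Finset.sum_congr rfl fun k _ => ?_
    rw [← Complex.re_ofReal_mul]
    congr 1
    push_cast
    have : Complex.exp (-((σ + l k * Complex.I) * v)) = Complex.exp (-(σ * v)) * Complex.exp (-(l k * v * Complex.I)) := by
      rw [← Complex.exp_add]; congr 1; ring
    rw [this]; ring
  rw [e2]
  exact mul_nonneg (mul_nonneg (h0 v hv) (Real.exp_pos _).le) (hp v hv)

/-- **The pole inequality.** -/
theorem pole_ineq {G b : ℝ → ℝ} {D τ a : ℝ} {j : ℕ} (hτ : τ < a) (hb : Fi b τ)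
    (hG : ∀ σ, a < σ → Fi G σ) (hle : ∀ v, 0 ≤ v → G v ≤ D * (Real.exp (a * v) * v ^ j) + b v)
    {ι : Type*} (t : Finset ι) (c : ι → ℂ) (l : ι → ℝ) (R : ι → ℂ)
    (hp : ∀ v : ℝ, 0 ≤ v → 0 ≤ ∑ k ∈ t, (c k * Complex.exp (-(l k * v * Complex.I))).re)
    (hR : ∀ k ∈ t, Tendsto (fun σ : ℝ => ((σ - a : ℝ) : ℂ) ^ (j + 1) * LL G (σ + l k * Complex.I)) (𝓝[>] a) (𝓝 (R k))) :
    0 ≤ ∑ k ∈ t, (c k * ((if l k = 0 then ((D * j.factorial : ℝ) : ℂ) else 0) - R k)).re := by
  set φ : ℝ → ℝ := fun v => (D * E a j v + b v) - G v with hφ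
  have hb' : ∀ σ, τ < σ → Fi b σ := fun σ hσ => hb.mono hσ.le
  have hE : ∀ σ, a < σ → Fi (fun v => D * E a j v) σ := by
    intro σ hσ
    have := E_Fi hσ j
    unfold Fi at *
    simp_rw [mul_assoc]
    exact Integrable.const_mul this D
  have hφF : ∀ σ, a < σ → Fi φ σ := fun σ hσ => ((hE σ hσ).add (hb' σ (by linarith))).sub (hG σ hσ)
  have hφ0 : ∀ v, 0 ≤ v → 0 ≤ φ v := fun v hv => sub_nonneg.2 (hle v hv)
  -- the transform of φ
  have hLL : ∀ σ : ℝ, a < σ → ∀ x : ℝ, LL φ (σ + x * Complex.I) =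
      D * (j.factorial / (σ + x * Complex.I - a) ^ (j + 1)) + LL b (σ + x * Complex.I) - LL G (σ + x * Complex.I) := by
    intro σ hσ x
    have hre : (σ + x * Complex.I : ℂ).re = σ := by simp
    rw [hφ, LL_sub (by rw [hre]; exact (hE σ hσ).add (hb' σ (by linarith))) (by rw [hre]; exact hG σ hσ),
      LL_add (by rw [hre]; exact hE σ hσ) (by rw [hre]; exact hb' σ (by linarith)), ← LL_E j _ (by rw [hre]; exact hσ)]
    congr 2
    unfold LL
    rw [← integral_const_mul]
    refine integral_congr_ae (Eventually.of_forall fun v => ?_)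
    simp only
    push_cast; ring
  have hlim : ∀ k ∈ t, Tendsto (fun σ : ℝ => ((σ - a : ℝ) : ℂ) ^ (j + 1) * LL φ (σ + l k * Complex.I)) (𝓝[>] a)
      (𝓝 ((if l k = 0 then ((D * j.factorial : ℝ) : ℂ) else 0) - R k)) := by
    intro k hk
    have hz : Tendsto (fun σ : ℝ => ((σ - a : ℝ) : ℂ)) (𝓝[>] a) (𝓝 0) := by
      have : ContinuousAt (fun σ : ℝ => ((σ - a : ℝ) : ℂ)) a := by fun_prop
      have h2 := this.tendsto
      simp only [sub_self, Complex.ofReal_zero] at h2
      exact h2.mono_left nhdsWithin_le_nhds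
    have hzp : Tendsto (fun σ : ℝ => ((σ - a : ℝ) : ℂ) ^ (j + 1)) (𝓝[>] a) (𝓝 0) := by
      have := hz.pow (j + 1)
      simpa using this
    have t2 : Tendsto (fun σ : ℝ => ((σ - a : ℝ) : ℂ) ^ (j + 1) * LL b (σ + l k * Complex.I)) (𝓝[>] a) (𝓝 0) := by
      have hc : ContinuousAt (LL b) (a + l k * Complex.I) :=
        (LL_differentiableAt hb' (by simpa using hτ)).continuousAt
      have hc2 : ContinuousAt (fun σ : ℝ => LL b (σ + l k * Complex.I)) a :=
        ContinuousAt.comp (f := fun σ : ℝ => (σ + l k * Complex.I : ℂ)) hc (by fun_prop)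
      have := hzp.mul (hc2.tendsto.mono_left nhdsWithin_le_nhds)
      simpa using this
    have t1 : Tendsto (fun σ : ℝ => ((σ - a : ℝ) : ℂ) ^ (j + 1) * (D * (j.factorial / (σ + l k * Complex.I - a) ^ (j + 1))))
        (𝓝[>] a) (𝓝 (if l k = 0 then ((D * j.factorial : ℝ) : ℂ) else 0)) := by
      split_ifs with h
      · refine Tendsto.congr' ?_ tendsto_const_nhds
        filter_upwards [self_mem_nhdsWithin] with σ hσ
        have hσ' : a < σ := hσ
        have hne : ((σ - a : ℝ) : ℂ) ≠ 0 := by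
          rw [Complex.ofReal_ne_zero]; linarith
        rw [h]
        have e1 : (σ + ((0:ℝ) : ℂ) * Complex.I - a : ℂ) = ((σ - a : ℝ) : ℂ) := by push_cast; ring
        rw [e1]
        push_cast at hne ⊢
        field_simp
      · have hne : (a + l k * Complex.I - a : ℂ) ≠ 0 := by
          intro h2
          have : (a + l k * Complex.I - a : ℂ).im = 0 := by rw [h2]; simp
          simp at this
          exact h this
        have hc : ContinuousAt (fun σ : ℝ => ((D : ℂ) * (j.factorial / (σ + l k * Complex.I - a) ^ (j + 1)))) a := by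
          refine ContinuousAt.mul continuousAt_const ?_
          refine ContinuousAt.div continuousAt_const (by fun_prop) (pow_ne_zero _ hne)
        have := hzp.mul (hc.tendsto.mono_left nhdsWithin_le_nhds)
        simpa using this
    have t3 := (t1.add t2).sub (hR k hk)
    rw [add_zero] at t3
    refine t3.congr' ?_
    filter_upwards [self_mem_nhdsWithin] with σ hσ
    rw [hLL σ hσ]; ring
  have hsum : Tendsto (fun σ : ℝ => ∑ k ∈ t, (c k * (((σ - a : ℝ) : ℂ) ^ (j + 1) * LL φ (σ + l k * Complex.I))).re) (𝓝[>] a)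
      (𝓝 (∑ k ∈ t, (c k * ((if l k = 0 then ((D * j.factorial : ℝ) : ℂ) else 0) - R k)).re)) := by
    refine tendsto_finsetSum _ fun k hk => ?_
    exact (Complex.continuous_re.tendsto _).comp ((hlim k hk).const_mul (c k))
  refine ge_of_tendsto hsum ?_
  filter_upwards [self_mem_nhdsWithin] with σ hσ
  have hσ' : a < σ := hσ
  have h1 := trig_nonneg hφ0 (hφF σ hσ) t c l hp
  have e1 : ∑ k ∈ t, (c k * (((σ - a : ℝ) : ℂ) ^ (j + 1) * LL φ (σ + l k * Complex.I))).re =
      (σ - a) ^ (j + 1) * ∑ k ∈ t, (c k * LL φ (σ + l k * Complex.I)).re := by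
    rw [Finset.mul_sum]
    refine Finset.sum_congr rfl fun k _ => ?_
    rw [← Complex.re_ofReal_mul]
    congr 1
    push_cast; ring
  rw [e1]
  exact mul_nonneg (pow_nonneg (by linarith) _) h1

/-- the inequality for one frequency -/
theorem pole_single {G b : ℝ → ℝ} {D τ a : ℝ} {j : ℕ} (hτ : τ < a) (hb : Fi b τ)
    (hG : ∀ σ, a < σ → Fi G σ) (hle : ∀ v, 0 ≤ v → G v ≤ D * (Real.exp (a * v) * v ^ j) + b v)
    {γ : ℝ} (hγ : γ ≠ 0) {R₀ R : ℂ}
    (hR₀ : Tendsto (fun σ : ℝ => ((σ - a : ℝ) : ℂ) ^ (j + 1) * LL G σ) (𝓝[>] a) (𝓝 R₀))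
    (hR : Tendsto (fun σ : ℝ => ((σ - a : ℝ) : ℂ) ^ (j + 1) * LL G (σ + γ * Complex.I)) (𝓝[>] a) (𝓝 R)) :
    ‖R‖ + R₀.re ≤ D * j.factorial := by
  obtain ⟨u, hu1, hu2⟩ : ∃ u : ℂ, ‖u‖ = 1 ∧ u * R = ‖R‖ := by
    rcases eq_or_ne R 0 with h | h
    · exact ⟨1, by simp, by simp [h]⟩
    · refine ⟨(starRingEnd ℂ) R / ‖R‖, ?_, ?_⟩
      · rw [norm_div, RCLike.norm_conj, Complex.norm_real, norm_norm, div_self (norm_ne_zero_iff.2 h)]
      · have h1 : (‖R‖ : ℂ) ≠ 0 := by exact_mod_cast norm_ne_zero_iff.2 h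
        rw [div_mul_eq_mul_div, mul_comm, Complex.mul_conj, Complex.normSq_eq_norm_sq]
        push_cast
        field_simp
  have key := pole_ineq hτ hb hG hle (Finset.univ : Finset (Fin 2)) ![1, u] ![0, γ] ![R₀, R] ?_ ?_
  · rw [Fin.sum_univ_two] at key
    simp only [Matrix.cons_val_zero, Matrix.cons_val_one, if_true, if_neg hγ, one_mul, zero_sub, mul_neg, hu2,
      Complex.sub_re, Complex.ofReal_re, Complex.neg_re] at key
    linarith
  · intro v _
    rw [Fin.sum_univ_two]
    simp only [Matrix.cons_val_zero, Matrix.cons_val_one]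
    have h1 : ‖u * Complex.exp (-(γ * v * Complex.I))‖ = 1 := by
      rw [norm_mul, hu1, one_mul, Complex.norm_exp]; simp
    have h2 := Complex.abs_re_le_norm (u * Complex.exp (-(γ * v * Complex.I)))
    rw [h1] at h2
    have h3 := (abs_le.1 h2).1
    simp only [Complex.ofReal_zero, zero_mul, neg_zero, Complex.exp_zero, mul_one, Complex.one_re]
    linarith
  · intro k _
    fin_cases k
    · simpa using hR₀
    · simpa using hR

end

end Q241SPL
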