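import Pool.Agent.Q241.SPL.Trans
import Pool.Agent.Q241.SPL.Poles
import Pool.Agent.H295R2.T6b
import Pool.Agent.H295R2.WM4
import Pool.Agent.Y21.FW.Zeros

/-!
The data for arithmetic functions with Dirichlet series `Q(s)/ζ(s)`.
-/

set_option autoImplicit false

open MeasureTheory Filter Topology Set
open Pool.Agent.H295R2

namespace Q241SPL

noncomputable section

/-- Dirichlet series and Laplace transform -/
lemma lap_big {f : ℕ → ℝ} (hf : ∀ η : ℝ, 0 < η → ∃ C : ℝ, ∀ n : ℕ, 1 ≤ n → |f n| ≤ C * (n : ℝ) ^ η) {s : ℂ}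
    (hs : 1 < s.re) : s * Lap (F f) s = LSeries (fun n => (f n : ℂ)) s := by
  set η : ℝ := (s.re - 1) / 2 with hη
  have hη0 : 0 < η := by rw [hη]; linarith
  obtain ⟨C, hC⟩ := hf η hη0
  have hC0 : 0 ≤ C := by
    have := (abs_nonneg _).trans (hC 1 le_rfl)
    simpa using this
  have hO : (fun n : ℕ => ∑ k ∈ Finset.Icc 1 n, ‖(f k : ℂ)‖) =O[atTop] fun n : ℕ => (n : ℝ) ^ (1 + η) := by
    refine Asymptotics.IsBigO.of_bound C ?_
    filter_upwards [eventually_ge_atTop 1] with n hn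
    rw [Real.norm_of_nonneg (Finset.sum_nonneg fun _ _ => norm_nonneg _),
      Real.norm_of_nonneg (by positivity)]
    have hn0 : (0:ℝ) < n := by exact_mod_cast hn
    calc ∑ k ∈ Finset.Icc 1 n, ‖(f k : ℂ)‖ ≤ ∑ k ∈ Finset.Icc 1 n, C * (n:ℝ) ^ η := by
          refine Finset.sum_le_sum fun k hk => ?_
          rw [Finset.mem_Icc] at hk
          rw [Complex.norm_real, Real.norm_eq_abs]
          refine (hC k hk.1).trans ?_
          have : (k:ℝ) ≤ n := by exact_mod_cast hk.2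
          gcongr
      _ = C * ((n:ℝ) ^ η * n) := by simp; ring
      _ = C * (n:ℝ) ^ (1 + η) := by
        rw [Real.rpow_add hn0, Real.rpow_one]; ring
  have h1 := LSeries_eq_mul_integral' (fun n => (f n : ℂ)) (r := 1 + η) (by positivity) (s := s)
    (by rw [hη]; linarith) hO
  rw [h1]
  congr 1
  rw [integral_Ioi_exp]
  unfold Lap
  rw [← setIntegral_eq_integral_of_forall_compl_eq_zero (s := Ici (0:ℝ)), integral_Ici_eq_integral_Ioi]
  · apply setIntegral_congr_fun measurableSet_Ioi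
    intro u _
    simp only
    unfold F S
    have hne : ((Real.exp u : ℝ) : ℂ) ≠ 0 := by exact_mod_cast (Real.exp_pos u).ne'
    rw [Complex.cpow_def_of_ne_zero hne, ← Complex.ofReal_log (Real.exp_pos u).le, Real.log_exp]
    have e1 : ((Real.exp u : ℝ) : ℂ) = Complex.exp u := Complex.ofReal_exp u
    rw [e1]
    have e2 : Complex.exp (-(s * u)) = Complex.exp u * Complex.exp ((u : ℂ) * (-(s + 1))) := by
      rw [← Complex.exp_add]; ring_nf
    rw [e2]; push_cast; ring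
  · intro u hu
    have : u < 0 := by simpa using hu
    unfold F
    rw [S_exp_neg this]; simp

/-- the Laplace transforms over the line and over the half line agree -/
lemma Lap_eq_LL (f : ℕ → ℝ) (s : ℂ) : Lap (F f) s = LL (G f) s := by
  unfold Lap LL
  rw [← setIntegral_eq_integral_of_forall_compl_eq_zero (s := Ici (0:ℝ))]
  · rfl
  · intro u hu
    have : u < 0 := by simpa using hu
    unfold F
    rw [S_exp_neg this]; simp

lemma Dat.fiG {f : ℕ → ℝ} {Θ : ℝ} {H : ℂ → ℂ} (d : Dat f Θ H) {σ : ℝ} (hσ : Θ < σ) : Fi (G f) σ := by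
  obtain ⟨C, hC0, hC⟩ := d.nice (show Θ < (Θ + σ) / 2 by linarith)
  refine Fi_of_bound (G_meas f) (C := C) (a := (Θ + σ) / 2) (by linarith) fun v _ => ?_
  have := hC.bound v
  unfold F at this
  rw [Complex.norm_real, Real.norm_eq_abs] at this
  exact this

/-- extension of an identity to the left -/
lemma ext_left {L A B : ℂ → ℂ} {a : ℝ} (ha : a < 2) (hL : ∀ s : ℂ, a < s.re → DifferentiableAt ℂ L s)
    (hA : ∀ s : ℂ, a < s.re → DifferentiableAt ℂ A s) (hB : ∀ s : ℂ, a < s.re → DifferentiableAt ℂ B s)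
    (h : ∀ s : ℂ, 1 < s.re → A s * L s = B s) : ∀ s : ℂ, a < s.re → A s * L s = B s := by
  have h1 : AnalyticOnNhd ℂ (fun s => A s * L s) {s : ℂ | a < s.re} :=
    DifferentiableOn.analyticOnNhd (fun s hs => ((hA s hs).mul (hL s hs)).differentiableWithinAt) (halfplane_open a)
  have h2 : AnalyticOnNhd ℂ B {s : ℂ | a < s.re} :=
    DifferentiableOn.analyticOnNhd (fun s hs => (hB s hs).differentiableWithinAt) (halfplane_open a)
  have h3 : (fun s => A s * L s) =ᶠ[𝓝 (2:ℂ)] B := by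
    filter_upwards [(halfplane_open 1).mem_nhds (show (1:ℝ) < (2:ℂ).re by norm_num)] with s hs
    exact h s hs
  have := h1.eqOn_of_preconnected_of_eventuallyEq h2 (halfplane_preconnected _) (z₀ := 2) (by simpa using ha) h3
  intro s hs
  exact this hs

/-- the data for a Dirichlet series `Q(s)/ζ(s)` -/
structure QD (f : ℕ → ℝ) (Q : ℂ → ℂ) : Prop where
  coef : ∀ n : ℕ, |f n| ≤ 1
  bound : ∀ σ : ℝ, zetaSup < σ → ∃ C : ℝ, ∀ y : ℝ, 1 ≤ y → |S f y| ≤ C * y ^ σ
  lser : ∀ s : ℂ, 1 < s.re → LSeries (fun n => (f n : ℂ)) s = Q s * fz s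
  diff : ∀ s : ℂ, 1 / 2 < s.re → DifferentiableAt ℂ Q s
  bdd : ∀ σ : ℝ, 1 / 2 < σ → ∃ C : ℝ, ∀ s : ℂ, s.re = σ → ‖Q s‖ ≤ C
  ne : ∀ s : ℂ, 1 / 2 < s.re → s ≠ 1 → Q s ≠ 0
  cont : ∀ γ : ℝ, γ ≠ 0 → ContinuousAt Q (1 / 2 + γ * Complex.I)
  ne' : ∀ γ : ℝ, γ ≠ 0 → Q (1 / 2 + γ * Complex.I) ≠ 0

lemma norm_ge_of_re {s : ℂ} (h : 1 / 2 < s.re) : 1 + |s.im| ≤ 4 * ‖s‖ := by
  have h1 : s.re ≤ ‖s‖ := (le_abs_self _).trans (Complex.abs_re_le_norm s)
  have h2 := Complex.abs_im_le_norm s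
  linarith [abs_nonneg s.im]

theorem QD.lap {f : ℕ → ℝ} {Q : ℂ → ℂ} (q : QD f Q) {a : ℝ} (ha : 1 / 2 ≤ a) (ha2 : a < 2)
    (hF : ∀ σ : ℝ, a < σ → Fi (G f) σ) :
    ∀ s : ℂ, a < s.re → (s * Zs s) * LL (G f) s = (s - 1) * Q s := by
  refine ext_left ha2 (fun s hs => LL_differentiableAt hF hs) (fun s _ => ?_) (fun s hs => ?_) (fun s hs => ?_)
  · exact differentiableAt_id.mul (Zs_differentiable s)
  · exact (by fun_prop : DifferentiableAt ℂ (fun s : ℂ => s - 1) s).mul (q.diff s (by linarith))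
  · have h1 := lap_big (f := f) (fun η hη => ⟨1, fun n hn => (q.coef n).trans (by
      rw [one_mul]; exact Real.one_le_rpow (by exact_mod_cast hn) hη.le)⟩) hs
    rw [q.lser s hs, Lap_eq_LL] at h1
    have hZ := Zs_ne_zero_of_one_le hs.le
    calc (s * Zs s) * LL (G f) s = (s * LL (G f) s) * Zs s := by ring
      _ = Q s * fz s * Zs s := by rw [h1]
      _ = _ := by unfold fz; field_simp

theorem QD.dat {f : ℕ → ℝ} {Q : ℂ → ℂ} (q : QD f Q) : Dat f zetaSup (fun s => Q s * fz s / s) where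
  half := half_le_zetaSup
  one := zetaSup_le_one
  coef := fun η hη => ⟨1, fun n hn => (q.coef n).trans (by
      rw [one_mul]; exact Real.one_le_rpow (by exact_mod_cast hn) hη.le)⟩
  bound := q.bound
  lap := by
    intro s hs
    rw [Lap_eq_LL]
    have hΘ := half_le_zetaSup
    have hF : ∀ σ : ℝ, zetaSup < σ → Fi (G f) σ := by
      intro σ hσ
      obtain ⟨C, hC⟩ := q.bound ((zetaSup + σ) / 2) (by linarith)
      refine Fi_of_bound (G_meas f) (C := C) (a := (zetaSup + σ) / 2) (by linarith) fun v hv => ?_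
      refine (hC _ (Real.one_le_exp hv)).trans (le_of_eq ?_)
      rw [← Real.exp_mul, mul_comm v]
    have h1 := q.lap hΘ (by linarith [zetaSup_le_one]) hF s hs
    have hs0 : s ≠ 0 := by rintro rfl; simp at hs; linarith
    have hZ := zetaSup_free s hs
    unfold fz
    have : LL (G f) s = ((s - 1) * Q s) / (s * Zs s) := by
      rw [← h1]; field_simp
    rw [this]; field_simp
  grow := by
    intro σ hσ hσ2 ε hε
    have hΘ := half_le_zetaSup
    obtain ⟨C1, hC1, h1⟩ := fz_bound (by linarith : (1:ℝ) / 4 ≤ zetaSup) zetaSup_free hσ hε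
    obtain ⟨C2, h2⟩ := q.bdd σ (by linarith)
    have hC2 : 0 ≤ C2 := (norm_nonneg _).trans (h2 σ (by simp))
    refine ⟨4 * C2 * C1, fun s hs => ?_⟩
    have h3 := h1 s hs.ge (by rw [hs]; exact hσ2)
    have h4 := h2 s hs
    have h5 := norm_ge_of_re (s := s) (by rw [hs]; linarith)
    have hb : 0 < 1 + |s.im| := by positivity
    have hn : 0 < ‖s‖ := by linarith
    rw [norm_div, norm_mul, div_le_iff₀ hn]
    have e : (1 + |s.im|) ^ (ε - 1) = (1 + |s.im|) ^ ε / (1 + |s.im|) := by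
      rw [Real.rpow_sub hb, Real.rpow_one]
    rw [e]
    calc ‖Q s‖ * ‖fz s‖ ≤ C2 * (C1 * (1 + |s.im|) ^ ε) := by gcongr
      _ = C2 * (C1 * (1 + |s.im|) ^ ε) * ((1 + |s.im|) / (1 + |s.im|)) := by rw [div_self hb.ne', mul_one]
      _ ≤ C2 * (C1 * (1 + |s.im|) ^ ε) * ((4 * ‖s‖) / (1 + |s.im|)) := by gcongr
      _ = _ := by ring

/-- the negative of a function -/
lemma S_neg (f : ℕ → ℝ) (y : ℝ) : S (fun n => -f n) y = -S f y := by
  unfold S; rw [Finset.sum_neg_distrib]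

lemma QD.neg {f : ℕ → ℝ} {Q : ℂ → ℂ} (q : QD f Q) : QD (fun n => -f n) (fun s => -Q s) where
  coef := fun n => by rw [abs_neg]; exact q.coef n
  bound := by
    intro σ hσ
    obtain ⟨C, hC⟩ := q.bound σ hσ
    exact ⟨C, fun y hy => by rw [S_neg, abs_neg]; exact hC y hy⟩
  lser := by
    intro s hs
    have h1 := q.lser s hs
    have : (fun n => ((-f n : ℝ) : ℂ)) = -(fun n => (f n : ℂ)) := by funext n; simp
    rw [this, LSeries_neg, h1]; ring
  diff := fun s hs => (q.diff s hs).neg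
  bdd := by
    intro σ hσ
    obtain ⟨C, hC⟩ := q.bdd σ hσ
    exact ⟨C, fun s hs => by rw [norm_neg]; exact hC s hs⟩
  ne := fun s hs h1 => neg_ne_zero.2 (q.ne s hs h1)
  cont := fun γ hγ => (q.cont γ hγ).neg
  ne' := fun γ hγ => neg_ne_zero.2 (q.ne' γ hγ)

/-- analyticity of the transform near the real axis -/
lemma Zs_real_ne {σ : ℝ} (hσ : 0 < σ) : Zs (σ : ℂ) ≠ 0 := by
  intro h
  have h1 := zeta_of_Zs h (by simpa using hσ)
  have h2 := h1.2.2
  rw [Complex.ofReal_re] at h2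
  exact Pool.Agent.Y21.FW.real_ne hσ h2 h1.1

/-- the continuation of the transform -/
lemma Hx_analyticAt {Q : ℂ → ℂ} (hQ : ∀ s : ℂ, 1 / 2 < s.re → DifferentiableAt ℂ Q s) {σ : ℝ} (hσ : 1 / 2 < σ) :
    AnalyticAt ℂ (fun s : ℂ => (s - 1) * Q s / (s * Zs s)) (σ : ℂ) := by
  have hQa : AnalyticAt ℂ Q (σ : ℂ) := by
    have hd : DifferentiableOn ℂ Q {s : ℂ | 1 / 2 < s.re} := fun s hs => (hQ s hs).differentiableWithinAt
    exact hd.analyticAt ((halfplane_open _).mem_nhds (by simpa using hσ))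
  have hZa : AnalyticAt ℂ Zs (σ : ℂ) := Zs_differentiable.analyticAt _
  refine AnalyticAt.div ((analyticAt_id.sub analyticAt_const).mul hQa) (analyticAt_id.mul hZa) ?_
  refine mul_ne_zero ?_ (Zs_real_ne (by linarith))
  simp only [id, ne_eq, Complex.ofReal_eq_zero]; linarith

/-- **A one-sided bound on a sparse set gives a zero-free half plane.** -/
theorem QD.zero_free {f : ℕ → ℝ} {Q : ℂ → ℂ} (q : QD f Q) {θ : ℝ} (hθ : θ < 1) {P : Set ℝ} (hP : Meets θ P)
    {c C : ℝ} (hc : 1 / 2 ≤ c) (hle : ∃ y₀ : ℝ, ∀ y ∈ P, y₀ ≤ y → S f y ≤ C * y ^ c) : zetaSup ≤ c := by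
  by_contra hcon
  push Not at hcon
  have hθ' : max θ 0 < 1 := max_lt hθ one_pos
  set θ' : ℝ := max θ 0 with hθ'def
  have hθ0 : 0 ≤ θ' := le_max_right _ _
  set τ : ℝ := zetaSup - (1 - θ') / 4 with hτ
  have h12 := half_le_zetaSup
  obtain ⟨b, hbm, hb0, hbF, hb⟩ := q.dat.transfer hθ0 hθ' hP.nonneg (τ := τ) (by rw [hτ]; linarith) (c := c)
    (show C < C + 1 by linarith) 0 (by
      obtain ⟨y₀, h⟩ := hle
      exact ⟨y₀, fun y hy hy0 => by simpa using h y hy hy0⟩)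
  set A : ℝ := max c (max τ (1 / 2)) with hA
  have hAΘ : A < zetaSup := by
    rw [hA]
    refine max_lt hcon (max_lt (by rw [hτ]; linarith) ?_)
    linarith
  have hA1 : c ≤ A := le_max_left _ _
  have hA2 : τ ≤ A := (le_max_left _ _).trans (le_max_right _ _)
  have hA3 : 1 / 2 ≤ A := (le_max_right _ _).trans (le_max_right _ _)
  have hGF : ∀ σ, A < σ → Fi (G f) σ := by
    refine landau_step (G_meas f) (φ₀ := fun v => (C + 1) * E c 0 v + b v) (((E_meas c 0).const_mul _).add hbm)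
      (Θ := zetaSup) (fun σ hσ => q.dat.fiG hσ) ?_ hb (Hx := fun s : ℂ => (s - 1) * Q s / (s * Zs s)) ?_ ?_
    · intro σ hσ
      refine Fi.add ?_ (hbF.mono (by linarith))
      have := E_Fi (c := c) (σ := σ) (by linarith) 0
      unfold Fi at *
      simp_rw [mul_assoc]
      exact Integrable.const_mul this (C + 1)
    · intro σ hσ
      exact Hx_analyticAt q.diff (by linarith)
    · intro σ hσ
      have h1 := q.lap h12 (by linarith [zetaSup_le_one]) (fun σ hσ => q.dat.fiG hσ) (σ : ℂ) (by simpa using hσ)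
      have hs0 : (σ : ℂ) ≠ 0 := by rw [Complex.ofReal_ne_zero]; linarith
      have hZ := zetaSup_free (σ : ℂ) (by simpa using hσ)
      rw [eq_div_iff (mul_ne_zero hs0 hZ), ← h1]; ring
  have h1 := q.lap hA3 (by linarith [zetaSup_le_one]) hGF
  obtain ⟨s, hs1, hs2⟩ := zetaSup_sup (zetaSup - A) (by linarith)
  have h2 := h1 s (by linarith)
  rw [hs2, mul_zero, zero_mul] at h2
  have hs3 : s ≠ 1 := by
    rintro rfl
    exact Zs_ne_zero_of_one_le (by simp) hs2
  rcases mul_eq_zero.1 h2.symm with h | h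
  · exact hs3 (sub_eq_zero.1 h)
  · exact q.ne s (by linarith) hs3 h

end

end Q241SPL
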