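import Pool.Agent.Q241.SPL.Ing

/-!
The Moebius and Liouville functions.
-/

set_option autoImplicit false

open MeasureTheory Filter Topology Set
open Pool.Agent.H295R2

namespace Q241SPL

noncomputable section

lemma mu_bound (σ : ℝ) (hσ : zetaSup < σ) : ∃ C : ℝ, 0 ≤ C ∧ ∀ y : ℝ, 1 ≤ y → |Mx y| ≤ C * y ^ σ := by
  have h12 := half_le_zetaSup
  rcases le_or_gt σ 2 with h2 | h2
  · obtain ⟨C, hC0, hC⟩ := mertens_bound (by linarith : (1:ℝ) / 4 ≤ zetaSup) zetaSup_free hσ h2
    exact ⟨C, hC0.le, hC⟩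
  · refine ⟨1, zero_le_one, fun y hy => ?_⟩
    rw [one_mul]
    refine (abs_Mx_le (by linarith)).trans ?_
    calc y = y ^ (1:ℝ) := (Real.rpow_one y).symm
      _ ≤ y ^ σ := Real.rpow_le_rpow_of_exponent_le hy (by linarith)

theorem qd_mu : QD mu (fun _ => 1) where
  coef := abs_mu_le
  bound := by
    intro σ hσ
    obtain ⟨C, -, hC⟩ := mu_bound σ hσ
    exact ⟨C, hC⟩
  lser := by
    intro s hs
    rw [one_mul, ← (moebius_lseries hs).LSeries_eq]
    congr 1
  diff := fun s _ => differentiableAt_const _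
  bdd := fun σ _ => ⟨1, fun s _ => by simp⟩
  ne := fun s _ _ => one_ne_zero
  cont := fun γ _ => continuousAt_const
  ne' := fun γ _ => one_ne_zero

/-- the Liouville function -/
def lam (n : ℕ) : ℝ := ((ArithmeticFunction.liouville n : ℤ) : ℝ)

lemma abs_lam_le (n : ℕ) : |lam n| ≤ 1 := by
  unfold lam
  rcases eq_or_ne n 0 with rfl | h
  · simp
  · rw [ArithmeticFunction.liouville_apply h]
    push_cast
    rw [abs_pow, abs_neg, abs_one, one_pow]

theorem sq_unique {m c b a : ℕ} (hm : m ≠ 0) (hb : b ≠ 0) (hc : Squarefree c) (ha : Squarefree a)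
    (h : m ^ 2 * c = b ^ 2 * a) : m = b := by
  apply Nat.eq_of_factorization_eq hm hb
  intro p
  have h1 := congrArg (fun n : ℕ => n.factorization p) h
  beta_reduce at h1
  rw [Nat.factorization_mul (pow_ne_zero _ hm) hc.ne_zero,
    Nat.factorization_mul (pow_ne_zero _ hb) ha.ne_zero, Nat.factorization_pow,
    Nat.factorization_pow] at h1
  simp only [Finsupp.coe_add, Finsupp.coe_smul, Pi.add_apply, Pi.smul_apply, smul_eq_mul] at h1
  have h2 := hc.natFactorization_le_one p
  have h3 := ha.natFactorization_le_one p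
  omega

/-- the Liouville function as a sum of values of the Moebius function -/
theorem lam_eq (x n : ℕ) (hn : n ∈ Finset.Icc 1 x) :
    lam n = ∑ m ∈ Finset.Icc 1 x, if m ^ 2 ∣ n then mu (n / m ^ 2) else 0 := by
  rw [Finset.mem_Icc] at hn
  obtain ⟨a, b, hab, ha⟩ := Nat.sq_mul_squarefree n
  have hb0 : b ≠ 0 := by
    rintro rfl
    simp at hab
    omega
  have hbn : b ≤ n := by
    rw [← hab]
    have : 0 < a := Nat.pos_of_ne_zero ha.ne_zero
    nlinarith [Nat.pos_of_ne_zero hb0]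
  have hdiv : n / b ^ 2 = a := by
    rw [← hab]
    exact Nat.mul_div_cancel_left a (by positivity)
  have hn0 : n ≠ 0 := by omega
  rw [Finset.sum_eq_single b]
  · rw [if_pos ⟨a, hab.symm⟩, hdiv]
    unfold lam mu
    rw [ArithmeticFunction.moebius_apply_of_squarefree ha, ArithmeticFunction.liouville_apply hn0, ← hab,
      ArithmeticFunction.cardFactors_mul (pow_ne_zero _ hb0) ha.ne_zero,
      ArithmeticFunction.cardFactors_pow, pow_add, pow_mul]
    norm_num
  · intro m hm hmb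
    rw [Finset.mem_Icc] at hm
    split_ifs with hd
    · obtain ⟨c, hc⟩ := hd
      have hm0 : m ≠ 0 := by omega
      have h1 : n / m ^ 2 = c := by
        rw [hc]
        exact Nat.mul_div_cancel_left c (by positivity)
      rw [h1]
      have h2 : ¬ Squarefree c := by
        intro hs
        exact hmb (sq_unique hm0 hb0 hs ha (hc ▸ hab.symm))
      unfold mu
      rw [ArithmeticFunction.moebius_eq_zero_of_not_squarefree h2]
      simp
    · rfl
  · intro hb
    exact absurd (Finset.mem_Icc.2 ⟨Nat.pos_of_ne_zero hb0, hbn.trans hn.2⟩) hb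

/-- splitting off squares -/
theorem lam_sum (x : ℕ) :
    ∑ n ∈ Finset.Icc 1 x, lam n = ∑ m ∈ Finset.Icc 1 x, ∑ l ∈ Finset.Icc 1 (x / m ^ 2), mu l := by
  rw [Finset.sum_congr rfl (fun n hn => lam_eq x n hn), Finset.sum_comm]
  refine Finset.sum_congr rfl fun m hm => ?_
  rw [Finset.mem_Icc] at hm
  have hm2 : 0 < m ^ 2 := by
    have : 0 < m := hm.1
    positivity
  symm
  rw [← Finset.sum_filter]
  refine Finset.sum_nbij (fun l => l * m ^ 2) ?_ ?_ ?_ ?_
  · intro l hl
    rw [Finset.mem_Icc] at hl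
    rw [Finset.mem_filter, Finset.mem_Icc]
    refine ⟨⟨Nat.mul_pos hl.1 hm2, ?_⟩, Dvd.intro_left l rfl⟩
    exact (Nat.le_div_iff_mul_le hm2).1 hl.2
  · intro l _ l' _ h
    exact Nat.eq_of_mul_eq_mul_right hm2 h
  · intro n hn
    rw [Finset.coe_filter, Set.mem_ofPred_eq, Finset.mem_Icc] at hn
    obtain ⟨⟨h2, h3⟩, c, hc⟩ := hn
    refine ⟨c, ?_, by simp only [hc]; ring⟩
    rw [Finset.coe_Icc, Set.mem_Icc]
    refine ⟨?_, ?_⟩
    · rcases Nat.eq_zero_or_pos c with h | h
      · rw [h, mul_zero] at hc; omega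
      · exact h
    · rw [Nat.le_div_iff_mul_le hm2, mul_comm, ← hc]
      exact h3
  · intro l _
    rw [Nat.mul_div_cancel l hm2]

lemma S_lam (y : ℝ) : S lam y = ∑ m ∈ Finset.Icc 1 ⌊y⌋₊, Mx (y / (m : ℝ) ^ 2) := by
  unfold S Mx
  rw [lam_sum]
  refine Finset.sum_congr rfl fun m _ => ?_
  have : ⌊y / (m : ℝ) ^ 2⌋₊ = ⌊y⌋₊ / m ^ 2 := by
    rw [← Nat.floor_div_natCast]
    push_cast; rfl
  rw [this]

lemma lam_bound (σ : ℝ) (hσ : zetaSup < σ) : ∃ C : ℝ, 0 ≤ C ∧ ∀ y : ℝ, 1 ≤ y → |S lam y| ≤ C * y ^ σ := by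
  have h12 := half_le_zetaSup
  obtain ⟨C, hC0, hC⟩ := mu_bound σ hσ
  have hsum : Summable (fun m : ℕ => 1 / (m : ℝ) ^ (2 * σ)) := Real.summable_one_div_nat_rpow.2 (by linarith)
  refine ⟨C * ∑' m : ℕ, 1 / (m : ℝ) ^ (2 * σ), mul_nonneg hC0 (tsum_nonneg fun m => by positivity), fun y hy => ?_⟩
  have hy0 : 0 ≤ y := by linarith
  rw [S_lam]
  calc |∑ m ∈ Finset.Icc 1 ⌊y⌋₊, Mx (y / (m : ℝ) ^ 2)| ≤ ∑ m ∈ Finset.Icc 1 ⌊y⌋₊, |Mx (y / (m : ℝ) ^ 2)| :=
        Finset.abs_sum_le_sum_abs _ _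
    _ ≤ ∑ m ∈ Finset.Icc 1 ⌊y⌋₊, C * y ^ σ * (1 / (m : ℝ) ^ (2 * σ)) := by
        refine Finset.sum_le_sum fun m hm => ?_
        rw [Finset.mem_Icc] at hm
        have hm0 : (0:ℝ) < m := by exact_mod_cast hm.1
        have e : (y / (m : ℝ) ^ 2) ^ σ = y ^ σ * (1 / (m : ℝ) ^ (2 * σ)) := by
          rw [Real.div_rpow hy0 (by positivity), ← Real.rpow_natCast, ← Real.rpow_mul hm0.le]
          push_cast; ring
        rcases le_or_gt 1 (y / (m : ℝ) ^ 2) with h | h
        · rw [mul_assoc, ← e]; exact hC _ h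
        · have h3 : Mx (y / (m : ℝ) ^ 2) = 0 := by
            unfold Mx
            rw [Nat.floor_eq_zero.2 h]; simp
          rw [h3, abs_zero]; positivity
    _ = C * y ^ σ * ∑ m ∈ Finset.Icc 1 ⌊y⌋₊, 1 / (m : ℝ) ^ (2 * σ) := by rw [Finset.mul_sum]
    _ ≤ C * y ^ σ * ∑' m : ℕ, 1 / (m : ℝ) ^ (2 * σ) := by
        gcongr
        exact hsum.sum_le_tsum _ (fun m _ => by positivity)
    _ = _ := by ring

/-- indicator of the squares -/
def sqf (n : ℕ) : ℂ := if IsSquare n then 1 else 0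

lemma sqf_sq (m : ℕ) : sqf (m ^ 2) = 1 := by
  unfold sqf
  rw [if_pos ⟨m, by ring⟩]

lemma sqf_summable {s : ℂ} (hs : 1 < s.re) : LSeriesSummable sqf s := by
  refine LSeriesSummable_of_bounded_of_one_lt_re (m := 1) (fun n _ => ?_) hs
  unfold sqf
  split_ifs <;> simp

lemma lser_sq {s : ℂ} (hs : 1 < s.re) : LSeries sqf s = riemannZeta (2 * s) := by
  have h2 : 1 < (2 * s).re := by simp; linarith
  rw [zeta_eq_tsum_one_div_nat_cpow h2]
  unfold LSeries
  have hinj : Function.Injective (fun m : ℕ => m ^ 2) := Nat.pow_left_injective (by norm_num)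
  have hsupp : Function.support (fun n => LSeries.term sqf s n) ⊆ Set.range (fun m : ℕ => m ^ 2) := by
    intro n hn
    rw [Function.mem_support] at hn
    by_contra hcon
    apply hn
    rcases eq_or_ne n 0 with rfl | h0
    · simp
    · rw [LSeries.term_of_ne_zero h0]
      have : sqf n = 0 := by
        unfold sqf
        rw [if_neg]
        rintro ⟨m, hm⟩
        exact hcon ⟨m, by simp only [hm]; ring⟩
      rw [this, zero_div]
  rw [← hinj.tsum_eq hsupp]
  refine tsum_congr fun m => ?_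
  rcases Nat.eq_zero_or_pos m with rfl | hm
  · have : (2 * s : ℂ) ≠ 0 := by
      intro h; rw [h] at h2; norm_num at h2
    simp [this]
  · have hm' : m ^ 2 ≠ 0 := by positivity
    rw [LSeries.term_of_ne_zero hm', sqf_sq]
    congr 1
    have hm0 : (m : ℂ) ≠ 0 := by exact_mod_cast hm.ne'
    have h3 : ((m ^ 2 : ℕ) : ℂ) = (((m : ℝ) : ℂ)) * (((m : ℝ) : ℂ)) := by push_cast; ring
    rw [h3, Complex.mul_cpow_ofReal_nonneg (Nat.cast_nonneg m) (Nat.cast_nonneg m), two_mul,
      Complex.cpow_add _ _ hm0]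
    simp

lemma lam_conv (n : ℕ) (hn : n ≠ 0) : (lam n : ℂ) = LSeries.convolution sqf (fun n => (mu n : ℂ)) n := by
  rw [LSeries.convolution_def]
  obtain ⟨a, b, hab, ha⟩ := Nat.sq_mul_squarefree n
  have hb0 : b ≠ 0 := by
    rintro rfl
    simp at hab
    omega
  beta_reduce
  rw [Finset.sum_eq_single (b ^ 2, a)]
  · rw [sqf_sq, one_mul]
    unfold lam mu
    rw [ArithmeticFunction.moebius_apply_of_squarefree ha, ArithmeticFunction.liouville_apply hn, ← hab,
      ArithmeticFunction.cardFactors_mul (pow_ne_zero _ hb0) ha.ne_zero,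
      ArithmeticFunction.cardFactors_pow, pow_add, pow_mul]
    norm_num
  · rintro ⟨x, c⟩ hxc hne
    rw [Nat.mem_divisorsAntidiagonal] at hxc
    simp only at hxc ⊢
    by_cases hx : IsSquare x
    · obtain ⟨m, hm⟩ := hx
      have hm0 : m ≠ 0 := by
        rintro rfl
        rw [hm] at hxc
        simp at hxc
        exact hxc.2 hxc.1.symm
      have h2 : ¬ Squarefree c := by
        intro hs
        have h3 : m ^ 2 * c = b ^ 2 * a := by rw [hab, ← hxc.1, hm]; ring
        have h4 := sq_unique hm0 hb0 hs ha h3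
        apply hne
        have h5 : x = b ^ 2 := by rw [hm, h4]; ring
        have h6 : c = a := by
          rw [h4] at h3
          exact Nat.eq_of_mul_eq_mul_left (by positivity) h3
        rw [h5, h6]
      unfold mu
      rw [ArithmeticFunction.moebius_eq_zero_of_not_squarefree h2]
      simp
    · unfold sqf
      rw [if_neg hx, zero_mul]
  · intro h
    exfalso
    apply h
    rw [Nat.mem_divisorsAntidiagonal]
    exact ⟨hab, hn⟩

lemma mu_summable {s : ℂ} (hs : 1 < s.re) : LSeriesSummable (fun n => (mu n : ℂ)) s := by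
  refine LSeriesSummable_of_bounded_of_one_lt_re (m := 1) (fun n _ => ?_) hs
  rw [Complex.norm_real]
  exact abs_mu_le n

lemma lser_lam {s : ℂ} (hs : 1 < s.re) : LSeries (fun n => (lam n : ℂ)) s = riemannZeta (2 * s) * fz s := by
  rw [LSeries_congr (g := LSeries.convolution sqf (fun n => (mu n : ℂ))) (fun {n} hn => lam_conv n hn) s,
    LSeries_convolution' (sqf_summable hs) (mu_summable hs), lser_sq hs, qd_mu.lser s hs, one_mul]

theorem qd_lam : QD lam (fun s => riemannZeta (2 * s)) where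
  coef := abs_lam_le
  bound := by
    intro σ hσ
    obtain ⟨C, -, hC⟩ := lam_bound σ hσ
    exact ⟨C, hC⟩
  lser := fun s hs => lser_lam hs
  diff := by
    intro s hs
    have h1 : (2 * s : ℂ) ≠ 1 := by
      intro h
      have := congrArg Complex.re h
      simp at this
      linarith
    exact (differentiableAt_riemannZeta h1).comp s (by fun_prop : DifferentiableAt ℂ (fun s : ℂ => 2 * s) s)
  bdd := by
    intro σ hσ
    obtain ⟨K, hK1, hK⟩ := zeta_bounds (a := 2 * σ) (by linarith)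
    refine ⟨K, fun s hs => (hK (2 * s) ?_).1⟩
    simp [hs]
  ne := by
    intro s hs _
    apply riemannZeta_ne_zero_of_one_le_re
    simp; linarith
  cont := by
    intro γ hγ
    have h1 : (2 * (1 / 2 + γ * Complex.I) : ℂ) ≠ 1 := by
      intro h
      have := congrArg Complex.im h
      simp at this
      exact hγ this
    exact ContinuousAt.comp (f := fun s : ℂ => 2 * s) (differentiableAt_riemannZeta h1).continuousAt (by fun_prop)
  ne' := by
    intro γ hγ
    apply riemannZeta_ne_zero_of_one_le_re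
    simp

lemma beta_mu : Tendsto (fun σ : ℝ => ((σ - 1 / 2 : ℝ) : ℂ) * (fun _ : ℂ => (1:ℂ)) σ) (𝓝[>] (1 / 2)) (𝓝 0) := by
  have := tendsto_sub_half 0
  simpa using this

lemma beta_lam : Tendsto (fun σ : ℝ => ((σ - 1 / 2 : ℝ) : ℂ) * (fun s : ℂ => riemannZeta (2 * s)) σ) (𝓝[>] (1 / 2))
    (𝓝 (1 / 2)) := by
  have h1 := riemannZeta_residue_one
  have h2 : Tendsto (fun σ : ℝ => (2 * σ : ℂ)) (𝓝[>] (1 / 2)) (𝓝[≠] 1) := by
    rw [tendsto_nhdsWithin_iff]
    constructor
    · have : ContinuousAt (fun σ : ℝ => (2 * σ : ℂ)) (1 / 2) := by fun_prop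
      have h2 := this.tendsto.mono_left (nhdsWithin_le_nhds (s := Ioi (1 / 2)))
      simpa using h2
    · filter_upwards [self_mem_nhdsWithin] with σ hσ
      have hσ' : 1 / 2 < σ := hσ
      intro h
      have h3 : (2 * σ : ℂ) = 1 := h
      have h4 : (2 * σ : ℝ) = 1 := by exact_mod_cast h3
      linarith
  have h3 := (h1.comp h2).const_mul (1 / 2)
  rw [mul_one] at h3
  refine h3.congr fun σ => ?_
  simp only [Function.comp]
  push_cast
  ring

end

end Q241SPL
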