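import Mathlib

/-!
A positive definite function on the discrete real line which is supported by a finite set of
frequencies after Fejér truncation: the value at any point of the dual is nonnegative. This gives
Ingham's inequality from positivity on trigonometric polynomials only.
-/

set_option autoImplicit false

open MeasureTheory Filter Topology Set

namespace Q241SPL

noncomputable section

/-- the sums `∑ n_γ γ`, `0 ≤ n_γ < N` -/
def Fo (Z : Finset ℝ) (N : ℕ) : Finset ℝ :=
  (Fintype.piFinset (fun _ : Z => Finset.range N)).image (fun n => ∑ γ : Z, (n γ : ℝ) * (γ : ℝ))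

lemma Fo_card_le (Z : Finset ℝ) (N : ℕ) : (Fo Z N).card ≤ N ^ Z.card := by
  unfold Fo
  refine Finset.card_image_le.trans ?_
  rw [Fintype.card_piFinset]
  simp

lemma Fo_nonempty (Z : Finset ℝ) {N : ℕ} (hN : 1 ≤ N) : (0:ℝ) ∈ Fo Z N := by
  unfold Fo
  rw [Finset.mem_image]
  refine ⟨fun _ => 0, ?_, by simp⟩
  rw [Fintype.mem_piFinset]
  intro _
  exact Finset.mem_range.2 (by omega)

lemma Fo_subset (Z : Finset ℝ) (N : ℕ) : Fo Z N ⊆ Fo Z (N + 1) := by
  unfold Fo
  refine Finset.image_subset_image ?_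
  intro n hn
  rw [Fintype.mem_piFinset] at *
  intro γ
  have := Finset.mem_range.1 (hn γ)
  exact Finset.mem_range.2 (by omega)

lemma Fo_add (Z : Finset ℝ) (N : ℕ) {γ : ℝ} (hγ : γ ∈ Z) {a : ℝ} (ha : a ∈ Fo Z N) : a + γ ∈ Fo Z (N + 1) := by
  unfold Fo at *
  rw [Finset.mem_image] at *
  obtain ⟨n, hn, rfl⟩ := ha
  rw [Fintype.mem_piFinset] at hn
  refine ⟨fun δ => n δ + if δ = ⟨γ, hγ⟩ then 1 else 0, ?_, ?_⟩
  · rw [Fintype.mem_piFinset]
    intro δ
    have := Finset.mem_range.1 (hn δ)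
    rw [Finset.mem_range]
    split_ifs <;> omega
  · have e : ∀ δ : Z, ((n δ + if δ = ⟨γ, hγ⟩ then 1 else 0 : ℕ) : ℝ) * (δ : ℝ) =
        (n δ : ℝ) * (δ : ℝ) + if δ = ⟨γ, hγ⟩ then γ else 0 := by
      intro δ
      split_ifs with h
      · push_cast; rw [h]; ring
      · push_cast; ring
    simp_rw [e]
    rw [Finset.sum_add_distrib, Finset.sum_ite_eq' Finset.univ (⟨γ, hγ⟩ : Z) (fun _ => γ), if_pos (Finset.mem_univ _)]

/-- number of representations as a difference -/
def NF (F : Finset ℝ) (γ : ℝ) : ℕ := (F.filter (fun a => a - γ ∈ F)).card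

lemma NF_le (F : Finset ℝ) (γ : ℝ) : NF F γ ≤ F.card := Finset.card_filter_le _ _

lemma NF_zero (F : Finset ℝ) : NF F 0 = F.card := by
  unfold NF
  rw [Finset.filter_true_of_mem]
  intro a ha; simpa using ha

lemma NF_ge (Z : Finset ℝ) (N : ℕ) {γ : ℝ} (hγ : γ ∈ Z) :
    2 * (Fo Z N).card ≤ NF (Fo Z N) γ + (Fo Z (N + 1)).card := by
  set A := Fo Z N with hA
  set B := A.image (fun a => a + γ) with hB
  have hBc : B.card = A.card := Finset.card_image_of_injective _ (add_left_injective γ)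
  have h1 : (A ∪ B).card + (A ∩ B).card = A.card + B.card := Finset.card_union_add_card_inter A B
  have h2 : A ∪ B ⊆ Fo Z (N + 1) := by
    refine Finset.union_subset (Fo_subset Z N) ?_
    intro x hx
    rw [hB, Finset.mem_image] at hx
    obtain ⟨a, ha, rfl⟩ := hx
    exact Fo_add Z N hγ ha
  have h3 : (A ∩ B).card ≤ NF A γ := by
    unfold NF
    refine Finset.card_le_card ?_
    intro x hx
    rw [Finset.mem_inter, hB, Finset.mem_image] at hx
    obtain ⟨hx1, a, ha, rfl⟩ := hx
    rw [Finset.mem_filter]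
    refine ⟨hx1, ?_⟩
    simpa using ha
  have h4 := Finset.card_le_card h2
  omega

/-- **Følner sets** -/
lemma folner (Z : Finset ℝ) {ε : ℝ} (hε : 0 < ε) :
    ∃ N : ℕ, 1 ≤ N ∧ ((Fo Z (N + 1)).card : ℝ) ≤ (1 + ε) * (Fo Z N).card := by
  by_contra hcon
  push Not at hcon
  have h1 : ∀ N : ℕ, (1 + ε) ^ N ≤ ((Fo Z (N + 1)).card : ℝ) := by
    intro N
    induction N with
    | zero =>
      have : (Fo Z 1).Nonempty := ⟨0, Fo_nonempty Z le_rfl⟩
      have h2 : 1 ≤ (Fo Z 1).card := Finset.card_pos.2 this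
      rw [pow_zero]
      exact_mod_cast h2
    | succ N ih =>
      have h2 := hcon (N + 1) (by omega)
      rw [pow_succ]
      nlinarith
  have h2 : ∀ N : ℕ, (1 + ε) ^ N ≤ ((N:ℝ) + 1) ^ Z.card := by
    intro N
    refine (h1 N).trans ?_
    have := Fo_card_le Z (N + 1)
    exact_mod_cast this
  have h3 : Tendsto (fun N : ℕ => ((N:ℝ)) ^ Z.card / (1 + ε) ^ N) atTop (𝓝 0) :=
    tendsto_pow_const_div_const_pow_of_one_lt Z.card (by linarith)
  have h4 := (tendsto_add_atTop_iff_nat 1).2 h3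
  have h5 : ∀ᶠ N : ℕ in atTop, ((N + 1 : ℕ) : ℝ) ^ Z.card / (1 + ε) ^ (N + 1) < 1 / (1 + ε) :=
    h4.eventually (gt_mem_nhds (by positivity))
  obtain ⟨N, hN⟩ := h5.exists
  rw [div_lt_div_iff₀ (by positivity) (by positivity), pow_succ] at hN
  have h6 := h2 N
  push_cast at hN
  nlinarith [show (0:ℝ) < 1 + ε by positivity]

/-- the Fejér weight -/
lemma overlap {T : ℝ} (hT : 0 < T) (a b : ℝ) :
    ∫ x : ℝ, (if x ≤ a ∧ a ≤ x + T then (1:ℝ) else 0) * (if x ≤ b ∧ b ≤ x + T then (1:ℝ) else 0) =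
      max (T - |a - b|) 0 := by
  have e : ∀ x : ℝ, (if x ≤ a ∧ a ≤ x + T then (1:ℝ) else 0) * (if x ≤ b ∧ b ≤ x + T then (1:ℝ) else 0) =
      (Icc (max a b - T) (min a b)).indicator (fun _ => (1:ℝ)) x := by
    intro x
    by_cases h : x ∈ Icc (max a b - T) (min a b)
    · rw [indicator_of_mem h]
      obtain ⟨h1, h2⟩ := h
      have h3 := le_max_left a b
      have h4 := le_max_right a b
      have h5 := min_le_left a b
      have h6 := min_le_right a b
      rw [if_pos ⟨by linarith, by linarith⟩, if_pos ⟨by linarith, by linarith⟩, one_mul]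
    · rw [indicator_of_notMem h]
      by_cases h1 : x ≤ a ∧ a ≤ x + T
      · by_cases h2 : x ≤ b ∧ b ≤ x + T
        · exfalso
          apply h
          refine ⟨?_, le_min h1.1 h2.1⟩
          have : max a b ≤ x + T := max_le h1.2 h2.2
          linarith
        · rw [if_neg h2, mul_zero]
      · rw [if_neg h1, zero_mul]
  simp_rw [e]
  rw [integral_indicator measurableSet_Icc, setIntegral_const, smul_eq_mul, mul_one, Real.volume_real_Icc]
  congr 1
  rw [← max_sub_min_eq_abs, max_comm b a, min_comm b a]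
  ring

lemma overlap_integrable {T : ℝ} (a b : ℝ) :
    Integrable (fun x : ℝ => (if x ≤ a ∧ a ≤ x + T then (1:ℝ) else 0) * (if x ≤ b ∧ b ≤ x + T then (1:ℝ) else 0)) := by
  have hm : ∀ a : ℝ, MeasurableSet {x : ℝ | x ≤ a ∧ a ≤ x + T} := by
    intro a
    have : {x : ℝ | x ≤ a ∧ a ≤ x + T} = Icc (a - T) a := by
      ext x
      simp only [Set.mem_ofPred_eq, mem_Icc]
      constructor
      · rintro ⟨h1, h2⟩; exact ⟨by linarith, h1⟩
      · rintro ⟨h1, h2⟩; exact ⟨h2, by linarith⟩
    rw [this]; exact measurableSet_Icc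
  have h1 : Integrable ((Icc (a - T) a).indicator (fun _ : ℝ => (1:ℝ))) := by
    rw [integrable_indicator_iff measurableSet_Icc]
    exact integrableOn_const (by simp)
  refine Integrable.mono' h1 ?_ (Eventually.of_forall fun x => ?_)
  · refine Measurable.aestronglyMeasurable ?_
    exact (Measurable.ite (hm a) measurable_const measurable_const).mul
      (Measurable.ite (hm b) measurable_const measurable_const)
  · by_cases h : x ≤ a ∧ a ≤ x + T
    · rw [if_pos h, indicator_of_mem (show x ∈ Icc (a - T) a from ⟨by linarith [h.2], h.1⟩), one_mul]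
      split_ifs <;> simp
    · rw [if_neg h, zero_mul, norm_zero]
      exact indicator_nonneg (fun _ _ => zero_le_one) _

/-- positivity with the Fejér weight -/
lemma fejer_pos {g : ℝ → ℝ} (hg : ∀ F : Finset ℝ, 0 ≤ ∑ a ∈ F, ∑ b ∈ F, g (a - b)) {T : ℝ} (hT : 0 < T)
    (F : Finset ℝ) : 0 ≤ ∑ a ∈ F, ∑ b ∈ F, max (T - |a - b|) 0 * g (a - b) := by
  have h1 : ∀ x : ℝ, 0 ≤ ∑ a ∈ F, ∑ b ∈ F,
      ((if x ≤ a ∧ a ≤ x + T then (1:ℝ) else 0) * (if x ≤ b ∧ b ≤ x + T then (1:ℝ) else 0)) * g (a - b) := by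
    intro x
    refine (hg (F.filter (fun a => x ≤ a ∧ a ≤ x + T))).trans (le_of_eq ?_)
    rw [Finset.sum_filter]
    refine Finset.sum_congr rfl fun a _ => ?_
    split_ifs with h
    · rw [Finset.sum_filter]
      refine Finset.sum_congr rfl fun b _ => ?_
      split_ifs <;> simp
    · simp
  have h2 : 0 ≤ ∫ x : ℝ, ∑ a ∈ F, ∑ b ∈ F,
      ((if x ≤ a ∧ a ≤ x + T then (1:ℝ) else 0) * (if x ≤ b ∧ b ≤ x + T then (1:ℝ) else 0)) * g (a - b) :=
    integral_nonneg h1
  rw [integral_finsetSum _ fun a _ => integrable_finsetSum _ fun b _ => (overlap_integrable a b).mul_const _] at h2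
  refine h2.trans (le_of_eq ?_)
  refine Finset.sum_congr rfl fun a _ => ?_
  rw [integral_finsetSum _ fun b _ => (overlap_integrable a b).mul_const _]
  refine Finset.sum_congr rfl fun b _ => ?_
  rw [integral_mul_const, overlap hT]

/-- **Ingham's inequality from positive definiteness.** -/
theorem ingham {w : ℝ → ℝ} {D : ℝ}
    (hpd : ∀ F : Finset ℝ, 0 ≤ ∑ a ∈ F, ∑ b ∈ F, ((if a - b = 0 then D else 0) - w (a - b)))
    {T : ℝ} (hT : 0 < T) (Z : Finset ℝ) (hZ : ∀ γ, |γ| < T → w γ ≠ 0 → γ ∈ Z) :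
    ∑ γ ∈ Z, max (1 - |γ| / T) 0 * w γ ≤ D := by
  set W : ℝ := ∑ γ ∈ Z, |max (1 - |γ| / T) 0 * w γ| with hW
  have hW0 : 0 ≤ W := Finset.sum_nonneg fun _ _ => abs_nonneg _
  refine le_of_forall_pos_le_add fun ε hε => ?_
  obtain ⟨N, hN1, hN⟩ := folner Z (ε := ε / (W + 1)) (by positivity)
  set F := Fo Z N with hF
  have hFne : F.Nonempty := ⟨0, Fo_nonempty Z hN1⟩
  have hFc : (0:ℝ) < F.card := by exact_mod_cast Finset.card_pos.2 hFne
  have h1 := fejer_pos (g := fun t => (if t = 0 then D else 0) - w t) hpd hT F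
  have e1 : ∑ a ∈ F, ∑ b ∈ F, max (T - |a - b|) 0 * ((if a - b = 0 then D else 0) - w (a - b)) =
      T * D * F.card - ∑ γ ∈ Z, (max (T - |γ|) 0 * w γ) * NF F γ := by
    have e2 : ∀ a b : ℝ, max (T - |a - b|) 0 * ((if a - b = 0 then D else 0) - w (a - b)) =
        (if a = b then T * D else 0) - max (T - |a - b|) 0 * w (a - b) := by
      intro a b
      rw [mul_sub]
      congr 1
      by_cases h : a = b
      · rw [if_pos (by rw [h, sub_self]), if_pos h, h, sub_self, abs_zero, sub_zero, max_eq_left hT.le]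
      · rw [if_neg (sub_ne_zero.2 h), if_neg h, mul_zero]
    simp_rw [e2, Finset.sum_sub_distrib]
    congr 1
    · simp only [Finset.sum_ite_eq]
      rw [Finset.sum_ite_mem, Finset.inter_self, Finset.sum_const, nsmul_eq_mul]; ring
    · -- regroup by the difference
      have e3 : ∀ a ∈ F, ∑ b ∈ F, max (T - |a - b|) 0 * w (a - b) =
          ∑ γ ∈ Z, if a - γ ∈ F then max (T - |γ|) 0 * w γ else 0 := by
        intro a _
        rw [← Finset.sum_filter]
        have h2 : ∑ b ∈ F, max (T - |a - b|) 0 * w (a - b) =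
            ∑ b ∈ F.filter (fun b => a - b ∈ Z), max (T - |a - b|) 0 * w (a - b) := by
          symm
          refine Finset.sum_subset (Finset.filter_subset _ _) ?_
          intro b hb hb2
          rw [Finset.mem_filter] at hb2
          push Not at hb2
          have h3 := hb2 hb
          by_cases h4 : |a - b| < T
          · have : w (a - b) = 0 := by
              by_contra h5
              exact h3 (hZ _ h4 h5)
            rw [this, mul_zero]
          · rw [max_eq_right (by linarith), zero_mul]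
        rw [h2]
        refine Finset.sum_bij' (fun b _ => a - b) (fun γ _ => a - γ) ?_ ?_ ?_ ?_ ?_
        · intro b hb
          rw [Finset.mem_filter] at hb ⊢
          exact ⟨hb.2, by simpa using hb.1⟩
        · intro γ hγ
          rw [Finset.mem_filter] at hγ ⊢
          exact ⟨hγ.2, by simpa using hγ.1⟩
        · intro b _; ring
        · intro γ _; ring
        · intro b _; rfl
      rw [Finset.sum_congr rfl e3, Finset.sum_comm]
      refine Finset.sum_congr rfl fun γ _ => ?_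
      unfold NF
      rw [← Finset.sum_filter, Finset.sum_const, nsmul_eq_mul]; ring
  rw [e1] at h1
  have h2 : ∑ γ ∈ Z, (max (1 - |γ| / T) 0 * w γ) * (NF F γ / F.card) ≤ D := by
    have e4 : ∀ γ ∈ Z, (max (1 - |γ| / T) 0 * w γ) * (NF F γ / F.card) =
        ((max (T - |γ|) 0 * w γ) * NF F γ) / (T * F.card) := by
      intro γ _
      have : max (T - |γ|) 0 = T * max (1 - |γ| / T) 0 := by
        rw [mul_max_of_nonneg _ _ hT.le, mul_zero]
        congr 1
        field_simp
      rw [this]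
      field_simp
    rw [Finset.sum_congr rfl e4, ← Finset.sum_div, div_le_iff₀ (by positivity)]
    linarith
  have h3 : ∀ γ ∈ Z, |(1:ℝ) - NF F γ / F.card| ≤ ε / (W + 1) := by
    intro γ hγ
    have h4 : (NF F γ : ℝ) ≤ F.card := by exact_mod_cast NF_le F γ
    have h5 : 2 * (F.card : ℝ) ≤ NF F γ + (Fo Z (N + 1)).card := by exact_mod_cast NF_ge Z N hγ
    have h6 : (NF F γ : ℝ) / F.card ≤ 1 := by rw [div_le_one hFc]; exact h4
    rw [abs_of_nonneg (by linarith)]
    rw [sub_le_iff_le_add, ← sub_le_iff_le_add', le_div_iff₀ hFc]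
    linarith
  have h7 : ∑ γ ∈ Z, max (1 - |γ| / T) 0 * w γ - ∑ γ ∈ Z, (max (1 - |γ| / T) 0 * w γ) * (NF F γ / F.card) ≤
      W * (ε / (W + 1)) := by
    rw [← Finset.sum_sub_distrib, hW, Finset.sum_mul]
    refine Finset.sum_le_sum fun γ hγ => ?_
    calc max (1 - |γ| / T) 0 * w γ - (max (1 - |γ| / T) 0 * w γ) * (NF F γ / F.card)
        = (max (1 - |γ| / T) 0 * w γ) * (1 - NF F γ / F.card) := by ring
      _ ≤ |(max (1 - |γ| / T) 0 * w γ) * (1 - NF F γ / F.card)| := le_abs_self _
      _ = |max (1 - |γ| / T) 0 * w γ| * |(1:ℝ) - NF F γ / F.card| := abs_mul _ _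
      _ ≤ _ := mul_le_mul_of_nonneg_left (h3 γ hγ) (abs_nonneg _)
  have h8 : W * (ε / (W + 1)) ≤ ε := by
    rw [mul_div_assoc', div_le_iff₀ (by positivity)]
    nlinarith
  linarith

end

end Q241SPL
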