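import Pool.Agent.Q241.SPL.Glue

/-!
One-sided bounds of order `√y` on a sparse set, in terms of the nontrivial zeros.
-/

set_option autoImplicit false

open MeasureTheory Filter Topology Set
open Pool.Agent.H295R2

namespace Q241SPL

noncomputable section

variable {f : ℕ → ℝ} {Q : ℂ → ℂ}

/-- the zeros with ordinate less than `T` in modulus -/
def ZT (T : ℝ) : Set ℂ := {ρ : ℂ | ρ ∈ Zer ∧ |ρ.im| < T}

lemma ZT_finite (T : ℝ) : (ZT T).Finite := by
  refine (Pool.Agent.Y21.FW.zeros_finite (-T - 1) (2 * T + 2)).subset ?_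
  rintro ρ ⟨hρ, h⟩
  have h2 := abs_lt.1 h
  exact ⟨hρ.1, hρ.2.1, hρ.2.2, by linarith [h2.1], by linarith [h2.2]⟩

lemma deriv_ne_of_order {ρ : ℂ} (hρ : ρ ∈ Zer) {m : ℕ} {g : ℂ → ℂ} (hm : m ≤ 1) (hg : AnalyticAt ℂ g ρ)
    (hg0 : g ρ ≠ 0) (hge : ∀ᶠ z in 𝓝 ρ, riemannZeta z = (z - ρ) ^ m * g z) : deriv riemannZeta ρ ≠ 0 := by
  have hρ1 : ρ ≠ 1 := Pool.Agent.Y21.FW.ne_one (Zer_im_ne hρ)
  have hζ : HasDerivAt riemannZeta (deriv riemannZeta ρ) ρ := (differentiableAt_riemannZeta hρ1).hasDerivAt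
  have hge0 := hge.self_of_nhds
  rcases Nat.lt_or_ge m 1 with h | h
  · have : m = 0 := by omega
    rw [this, hρ.1] at hge0
    simp at hge0
    exact absurd hge0.symm hg0
  · have hm1 : m = 1 := by omega
    rw [hm1] at hge
    have h1 : HasDerivAt (fun z => (z - ρ) ^ 1 * g z) (g ρ) ρ := by
      have h2 := ((((hasDerivAt_id ρ).sub_const ρ).fun_pow 1).mul hg.differentiableAt.hasDerivAt)
      refine h2.congr_deriv ?_
      simp
    rw [← (h1.congr_of_eventuallyEq hge).unique hζ]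
    exact hg0

/-- **One-sided bounds on a sparse set.** -/
theorem QD.final (q : QD f Q) {β : ℂ}
    (hβ : Tendsto (fun σ : ℝ => ((σ - 1 / 2 : ℝ) : ℂ) * Q σ) (𝓝[>] (1 / 2)) (𝓝 β))
    {θ : ℝ} (hθ : θ < 1) {P : Set ℝ} (hP : Meets θ P)
    {D : ℝ} (hle : ∃ y₀ : ℝ, ∀ y ∈ P, y₀ ≤ y → S f y ≤ D * y ^ (1 / 2 : ℝ)) :
    (∀ ρ ∈ Zer, ρ.re = 1 / 2 ∧ deriv riemannZeta ρ ≠ 0) ∧
    (∀ ρ ∈ Zer, (2 * β / riemannZeta (1 / 2)).re + ‖Q ρ / (ρ * deriv riemannZeta ρ)‖ ≤ D) ∧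
    ∀ T : ℝ, 0 < T → ∀ v : ℝ, (2 * β / riemannZeta (1 / 2)).re +
      ∑ᶠ ρ ∈ ZT T, (1 - |ρ.im| / T) * (Complex.exp (ρ.im * v * Complex.I) * (Q ρ / (ρ * deriv riemannZeta ρ))).re ≤ D := by
  have hRH : zetaSup ≤ 1 / 2 := q.zero_free hθ hP le_rfl hle
  have hsimp : ∀ ρ ∈ Zer, deriv riemannZeta ρ ≠ 0 := by
    intro ρ hρ
    have him := Zer_im_ne hρ
    have hρ1 : ρ ≠ 1 := Pool.Agent.Y21.FW.ne_one him
    obtain ⟨m, g, hg, hg0, hge⟩ := order_fact hρ1
    have hform := Zer_form (Zer_half hRH hρ)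
    have hm : m ≤ 1 := by
      refine q.simple hRH hθ hP hle hβ him (m := m) (g := g) ?_ ?_ ?_
      · rw [← hform]; exact hg.continuousAt
      · rw [← hform]; exact hg0
      · rw [← hform]; exact hge
    exact deriv_ne_of_order hρ hm hg hg0 hge
  have hsimp2 : ∀ γ : ℝ, riemannZeta (1 / 2 + γ * Complex.I) = 0 → deriv riemannZeta (1 / 2 + γ * Complex.I) ≠ 0 :=
    fun γ h => hsimp _ (Zer_of h)
  have hRf : ∀ ρ ∈ Zer, Rf Q (2 * β / riemannZeta (1 / 2)) ρ.im = Q ρ / (ρ * deriv riemannZeta ρ) := by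
    intro ρ hρ
    have hform := Zer_form (Zer_half hRH hρ)
    unfold Rf
    rw [if_neg (Zer_im_ne hρ), ← hform, if_pos hρ.1]
  refine ⟨fun ρ hρ => ⟨Zer_half hRH hρ, hsimp ρ hρ⟩, ?_, ?_⟩
  · intro ρ hρ
    have h1 := q.lim_all hRH hβ hsimp2 ρ.im
    rw [hRf ρ hρ] at h1
    have h2 := q.lim_real hRH hβ
    have h3 := q.pole hRH hθ hP (D := D) (j := 0) (by
      obtain ⟨y₀, h⟩ := hle
      exact ⟨y₀, fun y hy hy0 => by simpa using h y hy hy0⟩) (Zer_im_ne hρ) h2 h1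
    rw [Nat.factorial_zero, Nat.cast_one, mul_one] at h3
    linarith
  · intro T hT v
    have hfin := ZT_finite T
    set Z : Finset ℝ := insert 0 (hfin.toFinset.image Complex.im) with hZ
    have h1 := q.ingham hRH hθ hP hle hβ hsimp2 hT v Z (by
      intro γ hγ h
      rw [hZ, Finset.mem_insert]
      rcases h with h | h
      · exact Or.inl h
      · refine Or.inr (Finset.mem_image.2 ⟨1 / 2 + γ * Complex.I, ?_, by simp⟩)
        rw [Set.Finite.mem_toFinset]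
        exact ⟨Zer_of h, by simpa using hγ⟩)
    have hinj : Set.InjOn Complex.im (hfin.toFinset : Set ℂ) := by
      intro a ha b hb hab
      rw [Set.Finite.coe_toFinset] at ha hb
      rw [Zer_form (Zer_half hRH ha.1), Zer_form (Zer_half hRH hb.1), hab]
    have h0 : (0:ℝ) ∉ hfin.toFinset.image Complex.im := by
      intro h
      obtain ⟨ρ, hρ, h2⟩ := Finset.mem_image.1 h
      rw [Set.Finite.mem_toFinset] at hρ
      exact Zer_im_ne hρ.1 h2
    rw [hZ, Finset.sum_insert h0, Finset.sum_image hinj] at h1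
    rw [finsum_mem_eq_finite_toFinset_sum _ hfin]
    refine le_trans (le_of_eq ?_) h1
    congr 1
    · have : Rf Q (2 * β / riemannZeta (1 / 2)) 0 = 2 * β / riemannZeta (1 / 2) := by
        unfold Rf; rw [if_pos rfl]
      rw [this]; simp
    · refine Finset.sum_congr rfl fun ρ hρ => ?_
      rw [Set.Finite.mem_toFinset] at hρ
      rw [hRf ρ hρ.1, max_eq_left]
      have : |ρ.im| / T ≤ 1 := by rw [div_le_one hT]; exact hρ.2.le
      linarith

/-- zero-free half planes -/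
theorem QD.half_plane (q : QD f Q) {θ : ℝ} (hθ : θ < 1) {P : Set ℝ} (hP : Meets θ P) {c : ℝ} (hc : 1 / 2 ≤ c) :
    (∀ ρ ∈ Zer, ρ.re ≤ c) ↔ ∀ ε : ℝ, 0 < ε → ∃ y₀ : ℝ, ∀ y ∈ P, y₀ ≤ y → S f y ≤ y ^ (c + ε) := by
  constructor
  · intro h ε hε
    have h1 := zetaSup_le h
    obtain ⟨C, hC⟩ := q.bound (c + ε / 2) (by linarith)
    have ht : Tendsto (fun y : ℝ => y ^ (ε / 2)) atTop atTop := tendsto_rpow_atTop (by positivity)
    obtain ⟨Y, hY⟩ := eventually_atTop.1 (ht.eventually_ge_atTop C)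
    refine ⟨max Y 1, fun y _ hy => ?_⟩
    have hy1 : 1 ≤ y := (le_max_right _ _).trans hy
    have hy0 : 0 < y := by linarith
    have h2 := hY y ((le_max_left _ _).trans hy)
    calc S f y ≤ |S f y| := le_abs_self _
      _ ≤ C * y ^ (c + ε / 2) := hC y hy1
      _ ≤ y ^ (ε / 2) * y ^ (c + ε / 2) := by gcongr
      _ = y ^ (c + ε) := by rw [← Real.rpow_add hy0]; congr 1; ring
  · intro h ρ hρ
    refine (Zer_le hρ).trans ?_
    refine le_of_forall_pos_le_add fun ε hε => ?_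
    obtain ⟨y₀, h1⟩ := h ε hε
    exact q.zero_free hθ hP (c := c + ε) (C := 1) (by linarith) ⟨y₀, fun y hy hy0 => by
      rw [one_mul]; exact h1 y hy hy0⟩

/-- the `k`-th powers -/
theorem meets_powers {k : ℕ} (hk : 1 ≤ k) : Meets (1 - 1 / (2 * k)) {y : ℝ | ∃ n : ℕ, y = (n : ℝ) ^ k} := by
  have hk0 : (0:ℝ) < k := by exact_mod_cast hk
  have ht : Tendsto (fun x : ℝ => x ^ (1 / (2 * k) : ℝ)) atTop atTop := tendsto_rpow_atTop (by positivity)
  obtain ⟨X, hX⟩ := eventually_atTop.1 (ht.eventually_ge_atTop ((k : ℝ) * 2 ^ k))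
  refine ⟨max X 1, fun x hx => ?_⟩
  have hx1 : 1 ≤ x := (le_max_right _ _).trans hx
  have hx0 : 0 < x := by linarith
  have hX2 := hX x ((le_max_left _ _).trans hx)
  set r : ℝ := x ^ (1 / k : ℝ) with hr
  have hr1 : 1 ≤ r := Real.one_le_rpow hx1 (by positivity)
  have hrk : r ^ k = x := by
    rw [hr, ← Real.rpow_natCast, ← Real.rpow_mul hx0.le]
    have : 1 / (k:ℝ) * k = 1 := by field_simp
    rw [this, Real.rpow_one]
  set n : ℕ := ⌊r⌋₊ with hn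
  have hn1 : (n : ℝ) ≤ r := Nat.floor_le (by linarith)
  have hn2 : r < n + 1 := Nat.lt_floor_add_one r
  refine ⟨(n : ℝ) ^ k, ⟨n, rfl⟩, ?_⟩
  have h1 : (n : ℝ) ^ k ≤ x := by rw [← hrk]; exact pow_le_pow_left₀ (Nat.cast_nonneg n) hn1 k
  rw [abs_sub_comm, abs_of_nonneg (by linarith)]
  -- x - n^k ≤ k r^(k-1)
  have h2 : x - (n : ℝ) ^ k ≤ k * r ^ (k - 1) := by
    have h3 := abs_pow_sub_pow_le r (n : ℝ) k
    rw [hrk, abs_of_nonneg (by linarith), abs_of_nonneg (by linarith), abs_of_nonneg (by linarith),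
      abs_of_nonneg (Nat.cast_nonneg n), max_eq_left hn1] at h3
    have h5 : 0 ≤ r ^ (k - 1) := by positivity
    have h6 : r - n ≤ 1 := by linarith
    calc x - (n : ℝ) ^ k ≤ (r - n) * k * r ^ (k - 1) := h3
      _ ≤ 1 * k * r ^ (k - 1) := by gcongr
      _ = _ := by ring
  have h4 : (k:ℝ) * r ^ (k - 1) ≤ x ^ (1 - 1 / (2 * k) : ℝ) := by
    have h5 : r ^ (k - 1) = x ^ (1 - 1 / k : ℝ) := by
      rw [hr, ← Real.rpow_natCast, ← Real.rpow_mul hx0.le, Nat.cast_sub hk]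
      congr 1
      push_cast
      field_simp
    have h6 : (k:ℝ) ≤ x ^ (1 / (2 * k) : ℝ) := by
      refine le_trans ?_ hX2
      have : (1:ℝ) ≤ 2 ^ k := one_le_pow₀ (by norm_num)
      nlinarith
    calc (k:ℝ) * r ^ (k - 1) ≤ x ^ (1 / (2 * k) : ℝ) * x ^ (1 - 1 / k : ℝ) := by rw [h5]; gcongr
      _ = x ^ (1 - 1 / (2 * k) : ℝ) := by
        rw [← Real.rpow_add hx0]; congr 1; field_simp; ring
  exact h2.trans h4

end

end Q241SPL
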