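import Pool.Agent.Q241.SPL.Loc

/-!
The statements in terms of the nontrivial zeros.
-/

set_option autoImplicit false

open MeasureTheory Filter Topology Set
open Pool.Agent.H295R2

namespace Q241SPL

noncomputable section

/-- nontrivial zeros of `ζ` -/
def Zer : Set ℂ := {ρ : ℂ | riemannZeta ρ = 0 ∧ 0 < ρ.re ∧ ρ.re < 1}

lemma Zer_le {ρ : ℂ} (h : ρ ∈ Zer) : ρ.re ≤ zetaSup := le_csSup zset_bdd ⟨ρ, h, rfl⟩

lemma zetaSup_le {c : ℝ} (h : ∀ ρ ∈ Zer, ρ.re ≤ c) : zetaSup ≤ c := by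
  apply csSup_le zset_nonempty
  rintro x ⟨s, hs, rfl⟩
  exact h s hs

lemma Zer_refl {ρ : ℂ} (h : ρ ∈ Zer) : 1 - ρ ∈ Zer := by
  refine ⟨H313.TK.refl_zero ρ h.1 h.2.1 h.2.2, ?_, ?_⟩ <;> simp <;> linarith [h.2.1, h.2.2]

lemma Zer_im_ne {ρ : ℂ} (h : ρ ∈ Zer) : ρ.im ≠ 0 := by
  intro h0
  have e : ρ = ((ρ.re : ℝ) : ℂ) := by apply Complex.ext <;> simp [h0]
  have h1 := h.1
  rw [e] at h1
  exact Pool.Agent.Y21.FW.real_ne h.2.1 h.2.2 h1

/-- on RH a zero has the form `1/2 + iγ` -/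
lemma Zer_half (hRH : zetaSup ≤ 1 / 2) {ρ : ℂ} (h : ρ ∈ Zer) : ρ.re = 1 / 2 := by
  have h1 := Zer_le h
  have h2 := Zer_le (Zer_refl h)
  simp at h2
  linarith

lemma Zer_form {ρ : ℂ} (h : ρ.re = 1 / 2) : ρ = 1 / 2 + (ρ.im : ℂ) * Complex.I := by
  apply Complex.ext <;> simp [h]

lemma Zer_of {γ : ℝ} (h : riemannZeta (1 / 2 + γ * Complex.I) = 0) : (1 / 2 + γ * Complex.I : ℂ) ∈ Zer := by
  refine ⟨h, ?_, ?_⟩ <;> simp <;> norm_num

/-- a zero far to the right -/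
lemma exists_right {κ : ℝ} (hκ : 0 < κ) : ∃ ρ ∈ Zer, 1 / 2 ≤ ρ.re ∧ zetaSup - κ < ρ.re := by
  obtain ⟨s, hs1, hs2⟩ := zetaSup_sup (min κ (1 / 4)) (by positivity)
  have h12 := half_le_zetaSup
  have hmin : min κ (1 / 4) ≤ 1 / 4 := min_le_right _ _
  have hmin2 : min κ (1 / 4) ≤ κ := min_le_left _ _
  have hsZ : s ∈ Zer := zeta_of_Zs hs2 (by linarith)
  rcases le_or_gt (1 / 2) s.re with h | h
  · exact ⟨s, hsZ, h, by linarith⟩
  · refine ⟨1 - s, Zer_refl hsZ, by simp; linarith, by simp; linarith⟩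

/-- both signs in every window, large values of order `y^β` on a whole interval -/
theorem both_signs {θ : ℝ} (hθ0 : 0 ≤ θ) (hθ : θ < 1) {ρ : ℂ} (hρ : ρ ∈ Zer) :
    ∃ c : ℝ, 0 < c ∧ ∀ᶠ X : ℝ in atTop, ∀ s : ℝ, s = 1 ∨ s = -1 →
      ∃ x : ℝ, X ≤ x - x ^ θ ∧ x + x ^ θ ≤ X * Real.log X ∧
        ∀ y : ℝ, |y - x| ≤ x ^ θ → c * y ^ ρ.re ≤ s * H313.TK.MM y := by
  -- choose the zero
  obtain ⟨ρ', hρ', h12, hΘ, hle⟩ : ∃ ρ' ∈ Zer, 1 / 2 ≤ ρ'.re ∧ zetaSup - (1 - θ) / 2 < ρ'.re ∧ ρ.re ≤ ρ'.re := by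
    rcases le_or_gt ρ.re (zetaSup - (1 - θ) / 4) with h | h
    · obtain ⟨ρ', hρ', h12, h2⟩ := exists_right (κ := (1 - θ) / 4) (by linarith)
      exact ⟨ρ', hρ', h12, by linarith, by linarith⟩
    · rcases le_or_gt (1 / 2) ρ.re with h3 | h3
      · exact ⟨ρ, hρ, h3, by linarith, le_rfl⟩
      · exact ⟨1 - ρ, Zer_refl hρ, by simp; linarith, by simp; linarith, by simp; linarith⟩
  obtain ⟨c, hc, h⟩ := loc hθ0 hθ ρ'.re h12 hρ'.2.2.le hΘ (fun _ => 1)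
    (Eventually.of_forall fun _ => le_rfl) (H313.TK.core1' ρ' hρ'.1 hρ'.2.1 hρ'.2.2)
  refine ⟨c, hc, ?_⟩
  filter_upwards [h, eventually_ge_atTop 1] with X hX hX1 s hs
  obtain ⟨x, h1, h2, h3⟩ := hX s hs
  refine ⟨x, h1, h2, fun y hy => le_trans ?_ (h3 y hy)⟩
  have hyX : X ≤ y := by
    have := (abs_le.1 hy).1
    linarith
  rw [one_mul]
  have : y ^ ρ.re ≤ y ^ ρ'.re := Real.rpow_le_rpow_of_exponent_le (hX1.trans hyX) hle
  gcongr

/-- reflection of a multiple zero -/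
lemma Zer_refl_multiple {ρ : ℂ} (h : ρ ∈ Zer) (hd : deriv riemannZeta ρ = 0) :
    1 - (starRingEnd ℂ) ρ ∈ Zer ∧ deriv riemannZeta (1 - (starRingEnd ℂ) ρ) = 0 := by
  have him := Zer_im_ne h
  have hρ1 : ρ ≠ 1 := Pool.Agent.Y21.FW.ne_one him
  set w : ℂ := 1 - (starRingEnd ℂ) ρ with hw
  have hwim : w.im ≠ 0 := by rw [hw]; simpa using him
  have hw1 : w ≠ 1 := Pool.Agent.Y21.FW.ne_one hwim
  have h1 : ((2:ℕ) : ℕ∞) ≤ analyticOrderAt riemannZeta ρ := by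
    rw [natCast_le_analyticOrderAt_iff_iteratedDeriv_eq_zero (Pool.Agent.Y21.FW.zeta_an hρ1)]
    intro j hj
    interval_cases j
    · simpa using h.1
    · simpa using hd
  rw [← Pool.Agent.Y21.FW.order_symm him, ← hw,
    natCast_le_analyticOrderAt_iff_iteratedDeriv_eq_zero (Pool.Agent.Y21.FW.zeta_an hw1)] at h1
  have h2 := h1 0 (by norm_num)
  have h3 := h1 1 (by norm_num)
  rw [iteratedDeriv_zero] at h2
  rw [iteratedDeriv_one] at h3
  refine ⟨⟨h2, ?_, ?_⟩, h3⟩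
  · rw [hw]; simp; linarith [h.2.2]
  · rw [hw]; simp; linarith [h.2.1]

/-- large values in every window at a multiple zero -/
theorem both_signs_multiple {θ : ℝ} (hθ0 : 0 ≤ θ) (hθ : θ < 1) {ρ : ℂ} (hρ : ρ ∈ Zer)
    (hd : deriv riemannZeta ρ = 0) :
    ∃ c : ℝ, 0 < c ∧ ∀ᶠ X : ℝ in atTop, ∀ s : ℝ, s = 1 ∨ s = -1 →
      ∃ x : ℝ, X ≤ x - x ^ θ ∧ x + x ^ θ ≤ X * Real.log X ∧
        ∀ y : ℝ, |y - x| ≤ x ^ θ → c * (y ^ ρ.re * Real.log y) ≤ s * H313.TK.MM y := by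
  rcases le_or_gt ρ.re (zetaSup - (1 - θ) / 4) with h | h
  · -- a zero further to the right does more
    obtain ⟨ρ', hρ', h12, h2⟩ := exists_right (κ := (1 - θ) / 8) (by linarith)
    obtain ⟨c, hc, h3⟩ := both_signs hθ0 hθ hρ'
    have hlt : ρ.re < ρ'.re := by linarith
    have hlog : ∀ᶠ y : ℝ in atTop, Real.log y ≤ y ^ (ρ'.re - ρ.re) := by
      have h4 := isLittleO_log_rpow_atTop (r := ρ'.re - ρ.re) (by linarith)
      filter_upwards [h4.bound (show (0:ℝ) < 1 by norm_num), eventually_ge_atTop 1] with y hy hy1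
      rw [one_mul, Real.norm_of_nonneg (Real.log_nonneg hy1), Real.norm_of_nonneg (by positivity)] at hy
      exact hy
    obtain ⟨Y, hY⟩ := eventually_atTop.1 hlog
    refine ⟨c, hc, ?_⟩
    filter_upwards [h3, eventually_ge_atTop (max Y 1)] with X hX hX1 s hs
    obtain ⟨x, k1, k2, k3⟩ := hX s hs
    refine ⟨x, k1, k2, fun y hy => le_trans ?_ (k3 y hy)⟩
    have hyX : X ≤ y := by
      have := (abs_le.1 hy).1
      linarith
    have hy1 : 1 ≤ y := ((le_max_right _ _).trans hX1).trans hyX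
    have hy0 : 0 < y := by linarith
    have h5 := hY y (((le_max_left _ _).trans hX1).trans hyX)
    have h6 : y ^ ρ.re * Real.log y ≤ y ^ ρ'.re := by
      calc y ^ ρ.re * Real.log y ≤ y ^ ρ.re * y ^ (ρ'.re - ρ.re) := by gcongr
        _ = y ^ ρ'.re := by rw [← Real.rpow_add hy0]; congr 1; ring
    gcongr
  · -- the zero itself, or its reflection
    obtain ⟨ρ', hρ', hd', h12, hΘ, hle⟩ : ∃ ρ' ∈ Zer, deriv riemannZeta ρ' = 0 ∧ 1 / 2 ≤ ρ'.re ∧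
        zetaSup - (1 - θ) / 2 < ρ'.re ∧ ρ.re ≤ ρ'.re := by
      rcases le_or_gt (1 / 2) ρ.re with h3 | h3
      · exact ⟨ρ, hρ, hd, h3, by linarith, le_rfl⟩
      · obtain ⟨k1, k2⟩ := Zer_refl_multiple hρ hd
        exact ⟨1 - (starRingEnd ℂ) ρ, k1, k2, by simp; linarith, by simp; linarith, by simp; linarith⟩
    obtain ⟨c, hc, h3⟩ := loc hθ0 hθ ρ'.re h12 hρ'.2.2.le hΘ (fun t => t)
      (eventually_ge_atTop 1) (H313.TK.core2 ρ' hρ'.1 hd' hρ'.2.1 hρ'.2.2)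
    refine ⟨c / 2, by positivity, ?_⟩
    filter_upwards [h3, eventually_ge_atTop (Real.exp 1)] with X hX hX1 s hs
    have hX0 : 0 < X := (Real.exp_pos 1).trans_le hX1
    have hl1 : 1 ≤ Real.log X := by rwa [Real.le_log_iff_exp_le hX0]
    have hX1' : 1 ≤ X := (Real.one_le_exp (by norm_num)).trans hX1
    obtain ⟨x, k1, k2, k3⟩ := hX s hs
    refine ⟨x, k1, k2, fun y hy => le_trans ?_ (k3 y hy)⟩
    have hya := abs_le.1 hy
    have hyX : X ≤ y := by linarith [hya.1]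
    have hyX2 : y ≤ X * Real.log X := by linarith [hya.2]
    have hy0 : 0 < y := hX0.trans_le hyX
    have h5 : Real.log y ≤ 2 * H313.TK.ct (Real.log X) := by
      have h6 : Real.log y ≤ Real.log X + Real.log (Real.log X) := by
        rw [← Real.log_mul hX0.ne' (by linarith)]
        exact Real.log_le_log hy0 hyX2
      have h7 : Real.log (Real.log X) ≤ Real.log X := (Real.log_le_sub_one_of_pos (by linarith)).trans (by linarith)
      have h8 : 0 ≤ Real.log (Real.log X) := Real.log_nonneg hl1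
      unfold H313.TK.ct
      linarith
    have h6 : y ^ ρ.re ≤ y ^ ρ'.re := Real.rpow_le_rpow_of_exponent_le (hX1'.trans hyX) hle
    have h7 : 0 ≤ Real.log y := Real.log_nonneg (hX1'.trans hyX)
    calc c / 2 * (y ^ ρ.re * Real.log y) ≤ c / 2 * (y ^ ρ'.re * (2 * H313.TK.ct (Real.log X))) := by gcongr
      _ = c * (H313.TK.ct (Real.log X) * y ^ ρ'.re) := by ring

end

end Q241SPL
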