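import Pool.Agent.H295R2.M

/-!
Sampling principle, part 1: mean square of the increments of a summatory function in the
logarithmic scale.
-/

set_option autoImplicit false

open MeasureTheory Filter Topology Set
open Pool.Agent.H295R2

namespace Q241SPL

noncomputable section

/-- partial sums of `f` -/
def S (f : ℕ → ℝ) (y : ℝ) : ℝ := ∑ n ∈ Finset.Icc 1 ⌊y⌋₊, f n

/-- the partial sum in the logarithmic scale, as a complex number -/
def F (f : ℕ → ℝ) (u : ℝ) : ℂ := ((S f (Real.exp u) : ℝ) : ℂ)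

lemma S_of_lt {f : ℕ → ℝ} {y : ℝ} (hy : y < 1) : S f y = 0 := by
  unfold S
  have h1 : ⌊y⌋₊ = 0 := Nat.floor_eq_zero.2 hy
  rw [h1]; simp

lemma S_exp_neg {f : ℕ → ℝ} {u : ℝ} (hu : u < 0) : S f (Real.exp u) = 0 :=
  S_of_lt (by rw [← Real.exp_zero]; exact Real.exp_lt_exp.2 hu)

lemma S_meas (f : ℕ → ℝ) : Measurable (S f) := by
  unfold S
  exact (measurable_from_top (f := fun n : ℕ => ∑ k ∈ Finset.Icc 1 n, f k)).comp Nat.measurable_floor

lemma F_meas (f : ℕ → ℝ) : Measurable (F f) := by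
  unfold F
  exact Complex.measurable_ofReal.comp ((S_meas f).comp Real.measurable_exp)

/-- the data used below: `f` has coefficients `≪ n^η`, its partial sums are `≪ y^σ` for every
`σ > Θ`, and the Laplace transform `H` is `≪ (1+|t|)^(ε-1)` on vertical lines -/
structure Dat (f : ℕ → ℝ) (Θ : ℝ) (H : ℂ → ℂ) : Prop where
  half : 1 / 2 ≤ Θ
  one : Θ ≤ 1
  coef : ∀ η : ℝ, 0 < η → ∃ C : ℝ, ∀ n : ℕ, 1 ≤ n → |f n| ≤ C * (n : ℝ) ^ η
  bound : ∀ σ : ℝ, Θ < σ → ∃ C : ℝ, ∀ y : ℝ, 1 ≤ y → |S f y| ≤ C * y ^ σ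
  lap : ∀ s : ℂ, Θ < s.re → Lap (F f) s = H s
  grow : ∀ σ : ℝ, Θ < σ → σ ≤ 2 → ∀ ε : ℝ, 0 < ε → ∃ C : ℝ, ∀ s : ℂ, s.re = σ → ‖H s‖ ≤ C * (1 + |s.im|) ^ (ε - 1)

variable {f : ℕ → ℝ} {Θ : ℝ} {H : ℂ → ℂ}

lemma Dat.nice (d : Dat f Θ H) {σ : ℝ} (hσ : Θ < σ) : ∃ C : ℝ, 0 ≤ C ∧ Nice (F f) C σ 0 := by
  obtain ⟨C, hC⟩ := d.bound σ hσ
  have hC0 : 0 ≤ C := by
    have := (abs_nonneg _).trans (hC 1 le_rfl)
    simpa using this
  refine ⟨C, hC0, F_meas f, ?_, ?_⟩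
  · intro u
    unfold F
    rw [Complex.norm_real, Real.norm_eq_abs]
    rcases lt_or_ge u 0 with hu | hu
    · rw [S_exp_neg hu, abs_zero]; positivity
    · refine (hC _ (Real.one_le_exp hu)).trans (le_of_eq ?_)
      rw [← Real.exp_mul, mul_comm u]
  · intro u hu
    unfold F
    rw [S_exp_neg hu]; simp

/-- the increment -/
def dF (f : ℕ → ℝ) (h u : ℝ) : ℂ := F f u - F f (u - h)

lemma Dat.nice_dF (d : Dat f Θ H) {σ h : ℝ} (hσ : Θ < σ) (hh : 0 < h) :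
    ∃ C : ℝ, 0 ≤ C ∧ Nice (dF f h) C σ 0 := by
  obtain ⟨C, hC0, hC⟩ := d.nice hσ
  have hσ0 : 0 < σ := by linarith [d.half]
  refine ⟨C + C, by positivity, ?_, ?_, ?_⟩
  · exact (F_meas f).sub ((F_meas f).comp (measurable_id.sub_const h))
  · intro u
    unfold dF
    refine (norm_sub_le _ _).trans ?_
    rw [add_mul]
    refine add_le_add (hC.bound u) ((hC.bound (u - h)).trans ?_)
    gcongr
    linarith
  · intro u hu
    unfold dF
    rw [hC.zero u hu, hC.zero (u - h) (by linarith), sub_zero]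

lemma Dat.lap_dF (d : Dat f Θ H) {h : ℝ} {s : ℂ} (hs : Θ < s.re) :
    Lap (dF f h) s = (1 - Complex.exp (-(s * h))) * H s := by
  obtain ⟨C, hC0, hC⟩ := d.nice (show Θ < (Θ + s.re) / 2 by linarith)
  have hi := hC.integrable (s := s) (by linarith)
  have hi2 := hC.shift_integrable (s := s) (by linarith) (-h)
  have h2 := hC.Lap_shift s (-h)
  unfold Lap dF
  have e1 : ∀ u : ℝ, (F f u - F f (u - h)) * Complex.exp (-(s * u)) =
      F f u * Complex.exp (-(s * u)) - F f (u + -h) * Complex.exp (-(s * u)) := by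
    intro u; rw [← sub_eq_add_neg]; ring
  simp_rw [e1]
  rw [integral_sub hi hi2, h2]
  change Lap (F f) s - Complex.exp (s * ((-h : ℝ) : ℂ)) * Lap (F f) s = _
  rw [d.lap s hs]
  push_cast
  rw [mul_neg]
  ring

lemma norm_one_sub_exp_le {z : ℂ} (hz : 0 ≤ z.re) {a : ℝ} (ha : 0 ≤ a) (ha2 : a ≤ 2) :
    ‖1 - Complex.exp (-z)‖ ^ 2 ≤ 4 * ‖z‖ ^ a := by
  rcases le_or_gt ‖z‖ 1 with h | h
  · have h1 : ‖1 - Complex.exp (-z)‖ ≤ 2 * ‖z‖ := by
      rw [norm_sub_rev]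
      have := Complex.norm_exp_sub_one_le (x := -z) (by simpa using h)
      simpa using this
    have h2 : ‖1 - Complex.exp (-z)‖ ^ 2 ≤ (2 * ‖z‖) ^ 2 := pow_le_pow_left₀ (norm_nonneg _) h1 2
    rcases eq_or_lt_of_le (norm_nonneg z) with h0 | h0
    · rw [← h0] at h2
      have : (0:ℝ) ≤ (0:ℝ) ^ a := Real.rpow_nonneg le_rfl a
      rw [← h0]
      linarith
    · have h3 : ‖z‖ ^ (2:ℝ) ≤ ‖z‖ ^ a := Real.rpow_le_rpow_of_exponent_ge h0 h ha2
      have h4 : ‖z‖ ^ (2:ℝ) = ‖z‖ ^ 2 := by norm_cast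
      rw [h4] at h3
      nlinarith
  · have h1 : ‖1 - Complex.exp (-z)‖ ≤ 2 := by
      have h2 : ‖Complex.exp (-z)‖ ≤ 1 := by
        rw [Complex.norm_exp]
        exact Real.exp_le_one_iff.2 (by simpa using hz)
      calc ‖1 - Complex.exp (-z)‖ ≤ ‖(1:ℂ)‖ + ‖Complex.exp (-z)‖ := norm_sub_le _ _
        _ ≤ 2 := by rw [norm_one]; linarith
    have h3 : 1 ≤ ‖z‖ ^ a := Real.one_le_rpow h.le ha
    nlinarith [norm_nonneg (1 - Complex.exp (-z))]

/-- **Mean square of the increments.** -/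
theorem Dat.inc (d : Dat f Θ H) {σ δ : ℝ} (hσ : Θ < σ) (hσ2 : σ ≤ 2) (hδ : 0 < δ) (hδ1 : δ < 1) :
    ∃ C : ℝ, 0 ≤ C ∧ ∀ h : ℝ, 0 < h →
      Integrable (fun u => ‖dF f h u‖ ^ 2 * Real.exp (-(2 * σ * u))) ∧
      ∫ u, ‖dF f h u‖ ^ 2 * Real.exp (-(2 * σ * u)) ≤ C * h ^ (1 - δ) := by
  obtain ⟨C, hC⟩ := d.grow σ hσ hσ2 (δ / 3) (by positivity)
  have hσ0 : 0 < σ := by linarith [d.half]
  set I0 : ℝ := ∫ ξ : ℝ, (1 + |2 * Real.pi * ξ|) ^ (-(1 + δ / 3)) with hI0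
  have hI0' : 0 ≤ I0 := integral_nonneg fun ξ => by positivity
  have hint0 := integrable_decay' (a := 1 + δ / 3) (by linarith)
  refine ⟨4 * (1 + σ) ^ (1 - δ) * C ^ 2 * I0, by positivity, fun h hh => ?_⟩
  obtain ⟨K, hK0, hK⟩ := d.nice_dF (show Θ < (Θ + σ) / 2 by linarith) hh
  obtain ⟨hp1, hp2⟩ := plancherel_Lap hK (c := σ) (by linarith)
  refine ⟨?_, ?_⟩
  · have h1 := integrable_ind_exp (b := 2 * ((Θ + σ) / 2 - σ)) (by linarith) (K ^ 2) 0
    refine h1.mono' ?_ (Eventually.of_forall fun u => ?_)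
    · refine AEStronglyMeasurable.mul (hK.meas.norm.pow_const 2).aestronglyMeasurable ?_
      exact Continuous.aestronglyMeasurable (by fun_prop)
    · rw [Real.norm_of_nonneg (by positivity)]
      by_cases hu : u ∈ Ici (0:ℝ)
      · rw [indicator_of_mem hu]
        have h2 := hK.bound u
        calc ‖dF f h u‖ ^ 2 * Real.exp (-(2 * σ * u))
            ≤ (K * Real.exp ((Θ + σ) / 2 * u)) ^ 2 * Real.exp (-(2 * σ * u)) := by gcongr
          _ = _ := by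
            rw [mul_pow, ← Real.exp_nat_mul, mul_assoc, ← Real.exp_add]
            congr 2; push_cast; ring
      · rw [indicator_of_notMem hu, hK.zero u (by simpa using hu)]; simp
  · rw [← hp2, hI0, ← integral_const_mul, ← integral_mul_const]
    refine integral_mono hp1 ((hint0.const_mul _).mul_const _) ?_
    intro ξ
    simp only
    set s : ℂ := (σ : ℂ) + 2 * Real.pi * ξ * Complex.I with hs
    have hre : s.re = σ := line_re σ ξ
    have him : s.im = 2 * Real.pi * ξ := line_im σ ξ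
    rw [d.lap_dF (by rw [hre]; exact hσ), norm_mul, mul_pow]
    have h1 := norm_one_sub_exp_le (z := s * h) (by simp [hre]; positivity) (a := 1 - δ) (by linarith) (by linarith)
    have h2 := hC s hre
    have hb : 0 < 1 + |s.im| := by positivity
    have h3 : ‖s * h‖ ≤ (1 + σ) * (1 + |s.im|) * h := by
      rw [norm_mul, Complex.norm_real, Real.norm_of_nonneg hh.le]
      gcongr
      refine (Complex.norm_le_abs_re_add_abs_im s).trans ?_
      rw [hre, abs_of_pos hσ0]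
      nlinarith [abs_nonneg s.im]
    have h4 : ‖s * h‖ ^ (1 - δ) ≤ (1 + σ) ^ (1 - δ) * (1 + |s.im|) ^ (1 - δ) * h ^ (1 - δ) := by
      rw [← Real.mul_rpow (by positivity) (by positivity), ← Real.mul_rpow (by positivity) (by positivity)]
      exact Real.rpow_le_rpow (norm_nonneg _) h3 (by linarith)
    have h5 : ‖H s‖ ^ 2 ≤ C ^ 2 * (1 + |s.im|) ^ (2 * (δ / 3 - 1)) := by
      calc ‖H s‖ ^ 2 ≤ (C * (1 + |s.im|) ^ (δ / 3 - 1)) ^ 2 := pow_le_pow_left₀ (norm_nonneg _) h2 2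
        _ = _ := by
          rw [mul_pow, ← Real.rpow_mul_natCast hb.le]
          congr 2; push_cast; ring
    calc ‖1 - Complex.exp (-(s * h))‖ ^ 2 * ‖H s‖ ^ 2
        ≤ (4 * ((1 + σ) ^ (1 - δ) * (1 + |s.im|) ^ (1 - δ) * h ^ (1 - δ))) *
          (C ^ 2 * (1 + |s.im|) ^ (2 * (δ / 3 - 1))) := by
          refine mul_le_mul (h1.trans ?_) h5 (by positivity) (by positivity)
          linarith
      _ = 4 * (1 + σ) ^ (1 - δ) * C ^ 2 *
          ((1 + |s.im|) ^ (1 - δ) * (1 + |s.im|) ^ (2 * (δ / 3 - 1))) * h ^ (1 - δ) := by ring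
      _ = _ := by
        rw [← Real.rpow_add hb, him]
        congr 3; ring

end

end Q241SPL
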