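import Pool.Agent.Q241.SPL.DatZ
import Pool.Agent.Q241.SPL.Fol

/-!
Residues: what a one-sided bound of order `√y` on a sparse set says about the zeros.
-/

set_option autoImplicit false

open MeasureTheory Filter Topology Set
open Pool.Agent.H295R2

namespace Q241SPL

noncomputable section

lemma tendsto_sub_half (j : ℕ) : Tendsto (fun σ : ℝ => ((σ - 1 / 2 : ℝ) : ℂ) ^ (j + 1)) (𝓝[>] (1 / 2)) (𝓝 0) := by
  have : ContinuousAt (fun σ : ℝ => ((σ - 1 / 2 : ℝ) : ℂ)) (1 / 2) := by fun_prop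
  have h2 := this.tendsto
  simp only [sub_self, Complex.ofReal_zero] at h2
  have h3 := (h2.mono_left (nhdsWithin_le_nhds (s := Ioi (1 / 2)))).pow (j + 1)
  simpa using h3

variable {f : ℕ → ℝ} {Q : ℂ → ℂ}

/-- under RH the transform is `Q(s)/(s ζ(s))` for `Re s > 1/2` -/
lemma QD.LL_eq (q : QD f Q) (hRH : zetaSup ≤ 1 / 2) {s : ℂ} (hs : 1 / 2 < s.re) (hs1 : s ≠ 1) :
    riemannZeta s ≠ 0 ∧ LL (G f) s = Q s / (s * riemannZeta s) := by
  have h1 := q.lap le_rfl (by norm_num) (fun σ hσ => q.dat.fiG (lt_of_le_of_lt hRH hσ)) s hs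
  have hs0 : s ≠ 0 := by rintro rfl; simp at hs; linarith
  have hZ := zetaSup_free s (lt_of_le_of_lt hRH hs)
  rw [← Zs_eq hs1] at h1 hZ
  have hs2 := sub_ne_zero.2 hs1
  have hζ : riemannZeta s ≠ 0 := fun h => hZ (by rw [h, mul_zero])
  refine ⟨hζ, ?_⟩
  rw [eq_div_iff (mul_ne_zero hs0 hζ)]
  have h2 : (s - 1) * (LL (G f) s * (s * riemannZeta s)) = (s - 1) * Q s := by rw [← h1]; ring
  exact mul_left_cancel₀ hs2 h2

/-- the limit at a zero of order `m` (`m = 0` allowed) -/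
lemma QD.lim_zero (q : QD f Q) (hRH : zetaSup ≤ 1 / 2) {γ : ℝ} (hγ : γ ≠ 0) {m : ℕ} {g : ℂ → ℂ}
    (hg : ContinuousAt g (1 / 2 + γ * Complex.I)) (hg0 : g (1 / 2 + γ * Complex.I) ≠ 0)
    (hζ : ∀ᶠ z in 𝓝 (1 / 2 + γ * Complex.I : ℂ), riemannZeta z = (z - (1 / 2 + γ * Complex.I)) ^ m * g z) :
    Tendsto (fun σ : ℝ => ((σ - 1 / 2 : ℝ) : ℂ) ^ m * LL (G f) (σ + γ * Complex.I)) (𝓝[>] (1 / 2))
      (𝓝 (Q (1 / 2 + γ * Complex.I) / ((1 / 2 + γ * Complex.I) * g (1 / 2 + γ * Complex.I)))) := by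
  set ρ : ℂ := 1 / 2 + γ * Complex.I with hρ
  have hρ0 : ρ ≠ 0 := by
    intro h
    have : ρ.re = 0 := by rw [h]; simp
    rw [hρ] at this; simp at this
  have hpt : Tendsto (fun σ : ℝ => (σ + γ * Complex.I : ℂ)) (𝓝[>] (1 / 2)) (𝓝 ρ) := by
    have : ContinuousAt (fun σ : ℝ => (σ + γ * Complex.I : ℂ)) (1 / 2) := by fun_prop
    have h2 := this.tendsto.mono_left (nhdsWithin_le_nhds (s := Ioi (1 / 2)))
    simpa [hρ] using h2
  have hc : ContinuousAt (fun z => Q z / (z * g z)) ρ :=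
    (q.cont γ hγ).div (continuousAt_id.mul hg) (mul_ne_zero hρ0 hg0)
  refine (hc.tendsto.comp hpt).congr' ?_
  filter_upwards [hpt.eventually hζ, self_mem_nhdsWithin] with σ h1 h2
  have hσ : 1 / 2 < σ := h2
  have hne1 : (σ + γ * Complex.I : ℂ) ≠ 1 := by
    intro h
    have := congrArg Complex.im h
    simp at this
    exact hγ this
  obtain ⟨h3, h4⟩ := q.LL_eq hRH (s := σ + γ * Complex.I) (by simpa using hσ) hne1
  have e1 : (σ + γ * Complex.I : ℂ) - ρ = ((σ - 1 / 2 : ℝ) : ℂ) := by rw [hρ]; push_cast; ring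
  have hne : ((σ - 1 / 2 : ℝ) : ℂ) ≠ 0 := by rw [Complex.ofReal_ne_zero]; linarith
  rw [h4, h1, e1]
  simp only [Function.comp]
  have h5 : g (σ + γ * Complex.I) ≠ 0 := by
    intro h
    rw [h1, h, mul_zero] at h3
    exact h3 rfl
  have h6 : (σ + γ * Complex.I : ℂ) ≠ 0 := by
    intro h
    have := congrArg Complex.re h
    simp at this
    linarith
  have hW : ((σ - 1 / 2 : ℝ) : ℂ) ^ m ≠ 0 := pow_ne_zero _ hne
  generalize ((σ - 1 / 2 : ℝ) : ℂ) ^ m = W at hW ⊢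
  field_simp

/-- the limit at the real point -/
lemma QD.lim_real (q : QD f Q) (hRH : zetaSup ≤ 1 / 2) {β : ℂ}
    (hβ : Tendsto (fun σ : ℝ => ((σ - 1 / 2 : ℝ) : ℂ) * Q σ) (𝓝[>] (1 / 2)) (𝓝 β)) :
    Tendsto (fun σ : ℝ => ((σ - 1 / 2 : ℝ) : ℂ) ^ (0 + 1) * LL (G f) σ) (𝓝[>] (1 / 2))
      (𝓝 (2 * β / riemannZeta (1 / 2))) := by
  have hζ : riemannZeta (1 / 2) ≠ 0 := by
    have := Pool.Agent.Y21.FW.real_ne (x := 1 / 2) (by norm_num) (by norm_num)
    simpa using this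
  have hpt : Tendsto (fun σ : ℝ => (σ : ℂ)) (𝓝[>] (1 / 2)) (𝓝 (1 / 2)) := by
    have : ContinuousAt (fun σ : ℝ => (σ : ℂ)) (1 / 2) := by fun_prop
    have h2 := this.tendsto.mono_left (nhdsWithin_le_nhds (s := Ioi (1 / 2)))
    simpa using h2
  have hne12 : (1 / 2 : ℂ) ≠ 1 := by norm_num
  have hζc : ContinuousAt riemannZeta (1 / 2) := (differentiableAt_riemannZeta hne12).continuousAt
  have h1 : Tendsto (fun σ : ℝ => (σ : ℂ) * riemannZeta σ) (𝓝[>] (1 / 2)) (𝓝 ((1 / 2) * riemannZeta (1 / 2))) :=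
    hpt.mul (hζc.tendsto.comp hpt)
  have h2 := hβ.div h1 (mul_ne_zero (by norm_num) hζ)
  have e : β / (1 / 2 * riemannZeta (1 / 2)) = 2 * β / riemannZeta (1 / 2) := by field_simp
  rw [e] at h2
  refine h2.congr' ?_
  have hlt : ∀ᶠ σ : ℝ in 𝓝[>] (1 / 2 : ℝ), σ < 1 :=
    nhdsWithin_le_nhds (gt_mem_nhds (by norm_num))
  filter_upwards [self_mem_nhdsWithin, hlt] with σ h3 h4
  have hσ : 1 / 2 < σ := h3
  have hne1 : (σ : ℂ) ≠ 1 := by
    intro h
    have : σ = 1 := by exact_mod_cast h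
    linarith
  obtain ⟨h5, h6⟩ := q.LL_eq hRH (s := (σ : ℂ)) (by simpa using hσ) hne1
  rw [h6]
  simp only [Pi.div_apply, zero_add, pow_one]
  rw [mul_div_assoc]

/-- order of the zero -/
lemma order_fact {ρ : ℂ} (h1 : ρ ≠ 1) : ∃ m : ℕ, ∃ g : ℂ → ℂ, AnalyticAt ℂ g ρ ∧ g ρ ≠ 0 ∧
    ∀ᶠ z in 𝓝 ρ, riemannZeta z = (z - ρ) ^ m * g z := by
  have hζ : AnalyticAt ℂ riemannZeta ρ := by
    have hd : DifferentiableOn ℂ riemannZeta {1}ᶜ := fun s hs =>
      (differentiableAt_riemannZeta (by simpa using hs)).differentiableWithinAt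
    exact hd.analyticAt (isOpen_compl_singleton.mem_nhds h1)
  have hord : analyticOrderAt riemannZeta ρ ≠ ⊤ := by
    intro htop
    have h2 : ∀ᶠ z in 𝓝 ρ, riemannZeta z = 0 := analyticOrderAt_eq_top.1 htop
    have h3 := AnalyticOnNhd.eqOn_zero_of_preconnected_of_eventuallyEq_zero
      (f := riemannZeta) (U := {1}ᶜ) (fun s hs => Pool.Agent.Y21.FW.zeta_an hs) Pool.Agent.Y21.FW.preconn h1 h2
    exact Pool.Agent.Y21.FW.zeta_two_ne (h3 (by simp : (2 : ℂ) ∈ ({1}ᶜ : Set ℂ)))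
  obtain ⟨g, hg, hg0, hge⟩ := (hζ.analyticOrderAt_ne_top).1 hord
  refine ⟨analyticOrderNatAt riemannZeta ρ, g, hg, hg0, ?_⟩
  filter_upwards [hge] with z hz
  rw [hz, smul_eq_mul]

/-- **The pole inequality along a sparse set.** -/
theorem QD.pole (q : QD f Q) (hRH : zetaSup ≤ 1 / 2) {θ : ℝ} (hθ : θ < 1) {P : Set ℝ} (hP : Meets θ P)
    {D : ℝ} {j : ℕ} (hle : ∃ y₀ : ℝ, ∀ y ∈ P, y₀ ≤ y → S f y ≤ D * (y ^ (1 / 2 : ℝ) * (Real.log y) ^ j))
    {γ : ℝ} (hγ : γ ≠ 0) {R₀ R : ℂ}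
    (hR₀ : Tendsto (fun σ : ℝ => ((σ - 1 / 2 : ℝ) : ℂ) ^ (j + 1) * LL (G f) σ) (𝓝[>] (1 / 2)) (𝓝 R₀))
    (hR : Tendsto (fun σ : ℝ => ((σ - 1 / 2 : ℝ) : ℂ) ^ (j + 1) * LL (G f) (σ + γ * Complex.I)) (𝓝[>] (1 / 2)) (𝓝 R)) :
    ‖R‖ + R₀.re ≤ D * j.factorial := by
  have hθ' : max θ 0 < 1 := max_lt hθ one_pos
  have hj : (0:ℝ) < j.factorial := by exact_mod_cast Nat.factorial_pos j
  refine le_of_forall_pos_le_add fun ε hε => ?_
  obtain ⟨b, hbm, hb0, hbF, hb⟩ := q.dat.transfer (le_max_right θ 0) hθ' hP.nonneg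
    (τ := 1 / 2 - (1 - max θ 0) / 4) (by linarith) (c := 1 / 2)
    (show D < D + ε / j.factorial by linarith [div_pos hε hj]) j hle
  have h1 := pole_single (a := 1 / 2) (τ := 1 / 2 - (1 - max θ 0) / 4) (by linarith) hbF
    (fun σ hσ => q.dat.fiG (lt_of_le_of_lt hRH hσ)) hb hγ hR₀ hR
  refine h1.trans (le_of_eq ?_)
  field_simp

/-- no multiple zeros -/
theorem QD.simple (q : QD f Q) (hRH : zetaSup ≤ 1 / 2) {θ : ℝ} (hθ : θ < 1) {P : Set ℝ} (hP : Meets θ P)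
    {D : ℝ} (hle : ∃ y₀ : ℝ, ∀ y ∈ P, y₀ ≤ y → S f y ≤ D * y ^ (1 / 2 : ℝ)) {β : ℂ}
    (hβ : Tendsto (fun σ : ℝ => ((σ - 1 / 2 : ℝ) : ℂ) * Q σ) (𝓝[>] (1 / 2)) (𝓝 β)) {γ : ℝ} (hγ : γ ≠ 0)
    {m : ℕ} {g : ℂ → ℂ} (hg : ContinuousAt g (1 / 2 + γ * Complex.I)) (hg0 : g (1 / 2 + γ * Complex.I) ≠ 0)
    (hζ : ∀ᶠ z in 𝓝 (1 / 2 + γ * Complex.I : ℂ), riemannZeta z = (z - (1 / 2 + γ * Complex.I)) ^ m * g z) :
    m ≤ 1 := by
  by_contra hm
  push Not at hm
  obtain ⟨j, rfl⟩ : ∃ j, m = j + 2 := ⟨m - 2, by omega⟩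
  set ρ : ℂ := 1 / 2 + γ * Complex.I with hρ
  have hR := q.lim_zero hRH hγ hg hg0 hζ
  rw [← hρ] at hR
  set R : ℂ := Q ρ / (ρ * g ρ) with hRdef
  have hρ0 : ρ ≠ 0 := by
    intro h
    have : ρ.re = 0 := by rw [h]; simp
    rw [hρ] at this; simp at this
  have hRne : R ≠ 0 := div_ne_zero (q.ne' γ hγ) (mul_ne_zero hρ0 hg0)
  have hR₀ : Tendsto (fun σ : ℝ => ((σ - 1 / 2 : ℝ) : ℂ) ^ (j + 1 + 1) * LL (G f) σ) (𝓝[>] (1 / 2)) (𝓝 0) := by
    have h1 := (tendsto_sub_half j).mul (q.lim_real hRH hβ)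
    rw [zero_mul] at h1
    refine h1.congr fun σ => ?_
    ring
  have key : ∀ ε : ℝ, 0 < ε → ‖R‖ ≤ ε * (j + 1).factorial := by
    intro ε hε
    have h1 := q.pole hRH hθ hP (D := ε) (j := j + 1) ?_ hγ hR₀ hR
    · simpa using h1
    · obtain ⟨y₀, h⟩ := hle
      refine ⟨max y₀ (Real.exp (max (D / ε) 1)), fun y hy hy0 => ?_⟩
      have h2 := h y hy ((le_max_left _ _).trans hy0)
      have h3 : Real.exp (max (D / ε) 1) ≤ y := (le_max_right _ _).trans hy0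
      have hypos : 0 < y := (Real.exp_pos _).trans_le h3
      have h4 : max (D / ε) 1 ≤ Real.log y := by rwa [Real.le_log_iff_exp_le hypos]
      have h5 : 1 ≤ Real.log y := (le_max_right _ _).trans h4
      have h6 : D ≤ ε * Real.log y := by
        have := (le_max_left (D / ε) 1).trans h4
        rw [div_le_iff₀ hε] at this
        linarith
      have h7 : Real.log y ≤ Real.log y ^ (j + 1) := le_self_pow₀ h5 (by omega)
      have h8 : 0 < y ^ (1 / 2 : ℝ) := by positivity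
      calc S f y ≤ D * y ^ (1 / 2 : ℝ) := h2
        _ ≤ (ε * Real.log y ^ (j + 1)) * y ^ (1 / 2 : ℝ) := by
          apply mul_le_mul_of_nonneg_right _ h8.le
          nlinarith
        _ = _ := by ring
  have hpos : 0 < ‖R‖ := norm_pos_iff.2 hRne
  have hj : (0:ℝ) < (j + 1).factorial := by exact_mod_cast Nat.factorial_pos (j + 1)
  have := key (‖R‖ / (2 * (j + 1).factorial)) (by positivity)
  have e : ‖R‖ / (2 * (j + 1).factorial) * (j + 1).factorial = ‖R‖ / 2 := by field_simp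
  rw [e] at this
  linarith

/-- the residue function -/
def Rf (Q : ℂ → ℂ) (β₀ : ℂ) (x : ℝ) : ℂ :=
  if x = 0 then β₀ else if riemannZeta (1 / 2 + x * Complex.I) = 0 then
    Q (1 / 2 + x * Complex.I) / ((1 / 2 + x * Complex.I) * deriv riemannZeta (1 / 2 + x * Complex.I)) else 0

lemma QD.lim_all (q : QD f Q) (hRH : zetaSup ≤ 1 / 2) {β : ℂ}
    (hβ : Tendsto (fun σ : ℝ => ((σ - 1 / 2 : ℝ) : ℂ) * Q σ) (𝓝[>] (1 / 2)) (𝓝 β))
    (hsimple : ∀ γ : ℝ, riemannZeta (1 / 2 + γ * Complex.I) = 0 → deriv riemannZeta (1 / 2 + γ * Complex.I) ≠ 0)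
    (x : ℝ) : Tendsto (fun σ : ℝ => ((σ - 1 / 2 : ℝ) : ℂ) ^ (0 + 1) * LL (G f) (σ + x * Complex.I)) (𝓝[>] (1 / 2))
      (𝓝 (Rf Q (2 * β / riemannZeta (1 / 2)) x)) := by
  unfold Rf
  split_ifs with h0 hz
  · have := q.lim_real hRH hβ
    refine this.congr fun σ => ?_
    rw [h0]; simp
  · set ρ : ℂ := 1 / 2 + x * Complex.I with hρ
    have hρ1 : ρ ≠ 1 := by
      intro h
      have := congrArg Complex.im h
      rw [hρ] at this; simp at this
      exact h0 this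
    obtain ⟨m, g, hg, hg0, hge⟩ := order_fact hρ1
    have hζ : HasDerivAt riemannZeta (deriv riemannZeta ρ) ρ := (differentiableAt_riemannZeta hρ1).hasDerivAt
    have hm : m = 1 := by
      have hge0 := hge.self_of_nhds
      rcases Nat.lt_or_ge m 1 with hm | hm
      · have : m = 0 := by omega
        rw [this, hz] at hge0
        simp at hge0
        exact absurd hge0.symm hg0
      · by_contra hm1
        obtain ⟨k, rfl⟩ : ∃ k, m = k + 2 := ⟨m - 2, by omega⟩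
        have h1 : HasDerivAt (fun z => (z - ρ) ^ (k + 2) * g z) 0 ρ := by
          have h2 := ((((hasDerivAt_id ρ).sub_const ρ).fun_pow (k + 2)).mul hg.differentiableAt.hasDerivAt)
          refine h2.congr_deriv ?_
          simp
        have h3 := hζ.unique (h1.congr_of_eventuallyEq hge)
        exact hsimple x hz h3
    rw [hm] at hge
    have hgd : g ρ = deriv riemannZeta ρ := by
      have h1 : HasDerivAt (fun z => (z - ρ) ^ 1 * g z) (g ρ) ρ := by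
        have h2 := ((((hasDerivAt_id ρ).sub_const ρ).fun_pow 1).mul hg.differentiableAt.hasDerivAt)
        refine h2.congr_deriv ?_
        simp
      exact (h1.congr_of_eventuallyEq hge).unique hζ
    have := q.lim_zero hRH h0 hg.continuousAt hg0 hge
    rw [← hρ, hgd] at this
    exact this
  · set ρ : ℂ := 1 / 2 + x * Complex.I with hρ
    have hρ1 : ρ ≠ 1 := by
      intro h
      have := congrArg Complex.im h
      rw [hρ] at this; simp at this
      exact h0 this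
    have h1 := q.lim_zero hRH h0 (m := 0) (g := riemannZeta) (differentiableAt_riemannZeta hρ1).continuousAt hz
      (Eventually.of_forall fun z => by simp)
    have h2 := (tendsto_sub_half 0).mul h1
    rw [zero_mul] at h2
    refine h2.congr fun σ => ?_
    ring

/-- **Ingham's inequality along a sparse set.** -/
theorem QD.ingham (q : QD f Q) (hRH : zetaSup ≤ 1 / 2) {θ : ℝ} (hθ : θ < 1) {P : Set ℝ} (hP : Meets θ P)
    {D : ℝ} (hle : ∃ y₀ : ℝ, ∀ y ∈ P, y₀ ≤ y → S f y ≤ D * y ^ (1 / 2 : ℝ)) {β : ℂ}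
    (hβ : Tendsto (fun σ : ℝ => ((σ - 1 / 2 : ℝ) : ℂ) * Q σ) (𝓝[>] (1 / 2)) (𝓝 β))
    (hsimple : ∀ γ : ℝ, riemannZeta (1 / 2 + γ * Complex.I) = 0 → deriv riemannZeta (1 / 2 + γ * Complex.I) ≠ 0)
    {T : ℝ} (hT : 0 < T) (v₀ : ℝ) (Z : Finset ℝ)
    (hZ : ∀ γ : ℝ, |γ| < T → γ = 0 ∨ riemannZeta (1 / 2 + γ * Complex.I) = 0 → γ ∈ Z) :
    ∑ γ ∈ Z, max (1 - |γ| / T) 0 *
      (Complex.exp (γ * v₀ * Complex.I) * Rf Q (2 * β / riemannZeta (1 / 2)) γ).re ≤ D := by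
  have hθ' : max θ 0 < 1 := max_lt hθ one_pos
  refine le_of_forall_pos_le_add fun ε hε => ?_
  obtain ⟨b, hbm, hb0, hbF, hb⟩ := q.dat.transfer (le_max_right θ 0) hθ' hP.nonneg
    (τ := 1 / 2 - (1 - max θ 0) / 4) (by linarith) (c := 1 / 2)
    (show D < D + ε by linarith) 0 (by
      obtain ⟨y₀, h⟩ := hle
      exact ⟨y₀, fun y hy hy0 => by simpa using h y hy hy0⟩)
  set w : ℝ → ℝ := fun γ => (Complex.exp (γ * v₀ * Complex.I) * Rf Q (2 * β / riemannZeta (1 / 2)) γ).re with hw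
  refine Q241SPL.ingham (w := w) (D := D + ε) ?_ hT Z ?_
  · intro F
    have h1 := pole_ineq (a := 1 / 2) (τ := 1 / 2 - (1 - max θ 0) / 4) (j := 0) (by linarith) hbF
      (fun σ hσ => q.dat.fiG (lt_of_le_of_lt hRH hσ)) hb (F ×ˢ F)
      (fun p => Complex.exp ((p.1 - p.2) * v₀ * Complex.I)) (fun p => p.1 - p.2)
      (fun p => Rf Q (2 * β / riemannZeta (1 / 2)) (p.1 - p.2)) ?_ ?_
    · refine h1.trans (le_of_eq ?_)
      rw [Finset.sum_product]
      refine Finset.sum_congr rfl fun a _ => Finset.sum_congr rfl fun b _ => ?_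
      simp only
      by_cases h : a - b = 0
      · rw [if_pos h, if_pos h, mul_sub, Complex.sub_re, hw]
        simp only [h]
        have h2 : (a:ℂ) - b = 0 := by exact_mod_cast congrArg (fun x : ℝ => (x : ℂ)) h
        rw [h2]
        simp
      · rw [if_neg h, if_neg h, mul_sub, mul_zero, hw]
        simp only
        push_cast
        rfl
    · intro v _
      rw [Finset.sum_product]
      have e : ∑ a ∈ F, ∑ b ∈ F, (Complex.exp (((a : ℂ) - b) * v₀ * Complex.I) *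
          Complex.exp (-(((a - b : ℝ) : ℂ) * v * Complex.I))).re =
          ((∑ a ∈ F, Complex.exp (a * (v₀ - v) * Complex.I)) *
            (starRingEnd ℂ) (∑ a ∈ F, Complex.exp (a * (v₀ - v) * Complex.I))).re := by
        rw [map_sum, Finset.sum_mul_sum, Complex.re_sum]
        refine Finset.sum_congr rfl fun a _ => ?_
        rw [Complex.re_sum]
        refine Finset.sum_congr rfl fun b _ => ?_
        congr 1
        rw [← Complex.exp_conj, ← Complex.exp_add, ← Complex.exp_add]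
        congr 1
        simp only [map_mul, map_sub, Complex.conj_ofReal, Complex.conj_I]
        push_cast
        ring
      rw [e, Complex.mul_conj, Complex.ofReal_re]
      exact Complex.normSq_nonneg _
    · intro p _
      have := q.lim_all hRH hβ hsimple (p.1 - p.2)
      simpa using this
  · intro γ hγ hwγ
    refine hZ γ hγ ?_
    by_contra hcon
    push Not at hcon
    apply hwγ
    rw [hw]
    simp only [Rf]
    rw [if_neg hcon.1, if_neg hcon.2, mul_zero, Complex.zero_re]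

end

end Q241SPL
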