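import Pool.Agent.Q297.ChLandau
import Mathlib

/-!
Laplace transforms over the half line and Landau's theorem for functions bounded on one side.
-/

set_option autoImplicit false

open MeasureTheory Filter Topology Set ProbabilityTheory
open scoped ENNReal NNReal

namespace Q241SPL

noncomputable section

/-- the Laplace transform over the half line -/
def LL (φ : ℝ → ℝ) (s : ℂ) : ℂ := ∫ v in Ici (0:ℝ), (φ v : ℂ) * Complex.exp (-(s * v))

/-- absolute convergence of the Laplace transform at `σ` -/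
def Fi (φ : ℝ → ℝ) (σ : ℝ) : Prop := IntegrableOn (fun v => φ v * Real.exp (-(σ * v))) (Ici 0)

variable {φ ψ : ℝ → ℝ} {A σ : ℝ}

lemma norm_cexp_neg (s : ℂ) (v : ℝ) : ‖Complex.exp (-(s * v))‖ = Real.exp (-(s.re * v)) := by
  rw [Complex.norm_exp]; simp

lemma Fi.mono (h : Fi φ σ) {σ' : ℝ} (hσ : σ ≤ σ') : Fi φ σ' := by
  unfold Fi at *
  have e : ∀ v : ℝ, φ v * Real.exp (-(σ' * v)) = (φ v * Real.exp (-(σ * v))) * Real.exp (-((σ' - σ) * v)) := by
    intro v
    rw [mul_assoc, ← Real.exp_add]; congr 2; ring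
  simp_rw [e]
  refine Integrable.mono h ?_ ?_
  · exact h.aestronglyMeasurable.mul (Continuous.aestronglyMeasurable (by fun_prop))
  · filter_upwards [ae_restrict_mem measurableSet_Ici] with v hv
    rw [norm_mul]
    have h1 : ‖Real.exp (-((σ' - σ) * v))‖ ≤ 1 := by
      rw [Real.norm_of_nonneg (Real.exp_pos _).le]
      have hv0 : (0:ℝ) ≤ v := hv
      exact Real.exp_le_one_iff.2 (by have := mul_nonneg (sub_nonneg.2 hσ) hv0; linarith)
    exact mul_le_of_le_one_right (norm_nonneg _) h1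

lemma Fi.add (h1 : Fi φ σ) (h2 : Fi ψ σ) : Fi (fun v => φ v + ψ v) σ := by
  unfold Fi at *
  simp_rw [add_mul]
  exact Integrable.add h1 h2

lemma Fi.sub (h1 : Fi φ σ) (h2 : Fi ψ σ) : Fi (fun v => φ v - ψ v) σ := by
  unfold Fi at *
  simp_rw [sub_mul]
  exact Integrable.sub h1 h2

lemma Fi.congr (h1 : Fi φ σ) (h2 : ∀ v, 0 ≤ v → φ v = ψ v) : Fi ψ σ := by
  unfold Fi at *
  refine h1.congr_fun (fun v hv => ?_) measurableSet_Ici
  simp only [h2 v hv]

lemma Fi.cplx {s : ℂ} (h : Fi φ s.re) : IntegrableOn (fun v : ℝ => (φ v : ℂ) * Complex.exp (-(s * v))) (Ici 0) := by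
  unfold Fi at h
  have e : ∀ v : ℝ, (φ v : ℂ) * Complex.exp (-(s * v)) =
      ((φ v * Real.exp (-(s.re * v)) : ℝ) : ℂ) * Complex.exp (-(s.im * v * Complex.I)) := by
    intro v
    push_cast
    rw [mul_assoc, ← Complex.exp_add]
    congr 2
    conv_lhs => rw [← Complex.re_add_im s]
    ring
  simp_rw [e]
  refine Integrable.mono h ?_ ?_
  · exact (Complex.continuous_ofReal.comp_aestronglyMeasurable h.aestronglyMeasurable).mul
      (Continuous.aestronglyMeasurable (by fun_prop))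
  · refine Eventually.of_forall fun v => ?_
    rw [norm_mul, Complex.norm_real]
    have : ‖Complex.exp (-(s.im * v * Complex.I))‖ = 1 := by
      rw [Complex.norm_exp]; simp
    rw [this, mul_one]

lemma LL_add {s : ℂ} (h1 : Fi φ s.re) (h2 : Fi ψ s.re) : LL (fun v => φ v + ψ v) s = LL φ s + LL ψ s := by
  unfold LL
  rw [← integral_add h1.cplx h2.cplx]
  refine integral_congr_ae (Eventually.of_forall fun v => ?_)
  simp only
  push_cast; ring

lemma LL_sub {s : ℂ} (h1 : Fi φ s.re) (h2 : Fi ψ s.re) : LL (fun v => φ v - ψ v) s = LL φ s - LL ψ s := by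
  unfold LL
  rw [← integral_sub h1.cplx h2.cplx]
  refine integral_congr_ae (Eventually.of_forall fun v => ?_)
  simp only
  push_cast; ring

lemma LL_congr {s : ℂ} (h : ∀ v, 0 ≤ v → φ v = ψ v) : LL φ s = LL ψ s := by
  unfold LL
  refine setIntegral_congr_fun measurableSet_Ici (fun v hv => ?_)
  simp only [h v hv]

lemma LL_real (φ : ℝ → ℝ) (σ : ℝ) : LL φ σ = ((∫ v in Ici (0:ℝ), φ v * Real.exp (-(σ * v)) : ℝ) : ℂ) := by
  unfold LL
  rw [← integral_complex_ofReal]
  refine integral_congr_ae (Eventually.of_forall fun v => ?_)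
  change (φ v : ℂ) * Complex.exp (-((σ : ℂ) * v)) = ((φ v * Real.exp (-(σ * v)) : ℝ) : ℂ)
  rw [Complex.ofReal_mul, Complex.ofReal_exp, Complex.ofReal_neg, Complex.ofReal_mul]

lemma norm_LL_le (h0 : ∀ v, 0 ≤ v → 0 ≤ φ v) (s : ℂ) :
    ‖LL φ s‖ ≤ ∫ v in Ici (0:ℝ), φ v * Real.exp (-(s.re * v)) := by
  unfold LL
  refine (norm_integral_le_integral_norm _).trans (le_of_eq ?_)
  refine setIntegral_congr_fun measurableSet_Ici (fun v hv => ?_)
  rw [norm_mul, norm_cexp_neg, Complex.norm_real, Real.norm_of_nonneg (h0 v hv)]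

lemma v_mul_exp_le {δ v : ℝ} (hδ : 0 < δ) (hv : 0 ≤ v) : v ≤ 1 / δ * Real.exp (δ * v) := by
  have := Real.add_one_le_exp (δ * v)
  rw [one_div, ← div_eq_inv_mul, le_div_iff₀ hδ]
  nlinarith

lemma LL_hasDerivAt (h : ∀ σ, A < σ → Fi φ σ) {s : ℂ} (hs : A < s.re) :
    HasDerivAt (LL φ) (-(LL (fun v => v * φ v) s)) s := by
  set δ : ℝ := (s.re - A) / 3 with hδ
  have hδ0 : 0 < δ := by rw [hδ]; linarith
  have hbd := h (A + δ) (by linarith)
  have key := hasDerivAt_integral_of_dominated_loc_of_deriv_le (μ := volume.restrict (Ici (0:ℝ))) (𝕜 := ℂ)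
    (F := fun (z : ℂ) (u : ℝ) => (φ u : ℂ) * Complex.exp (-(z * u)))
    (F' := fun (z : ℂ) (u : ℝ) => (φ u : ℂ) * (-(u : ℂ) * Complex.exp (-(z * u))))
    (x₀ := s) (s := Metric.ball s δ)
    (bound := fun u => 1 / δ * ‖φ u * Real.exp (-((A + δ) * u))‖)
    (Metric.ball_mem_nhds s hδ0) ?_ ?_ ?_ ?_ ?_ ?_
  · have e : -(LL (fun v => v * φ v) s) = ∫ u in Ici (0:ℝ), (φ u : ℂ) * (-(u : ℂ) * Complex.exp (-(s * u))) := by
      unfold LL
      rw [← integral_neg]
      refine integral_congr_ae (Eventually.of_forall fun u => ?_)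
      simp only
      push_cast; ring
    rw [e]
    exact key.2
  · filter_upwards [Metric.ball_mem_nhds s hδ0] with z hz
    have hz2 : A < z.re := by
      rw [Metric.mem_ball, dist_eq_norm] at hz
      have h2 := (abs_lt.mp (lt_of_le_of_lt (Complex.abs_re_le_norm (z - s)) hz)).1
      rw [Complex.sub_re] at h2
      linarith
    exact (h z.re hz2).cplx.aestronglyMeasurable
  · exact (h s.re hs).cplx
  · have h1 := (h s.re hs).cplx.aestronglyMeasurable
    have h2 : AEStronglyMeasurable (fun u : ℝ => -(u : ℂ)) (volume.restrict (Ici (0:ℝ))) :=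
      Continuous.aestronglyMeasurable (by fun_prop)
    refine (h2.mul h1).congr (Eventually.of_forall fun u => ?_)
    simp only [Pi.mul_apply]; ring
  · filter_upwards [ae_restrict_mem measurableSet_Ici] with u hu z hz
    have hu0 : (0:ℝ) ≤ u := hu
    have hz2 : s.re - δ < z.re := by
      rw [Metric.mem_ball, dist_eq_norm] at hz
      have h2 := (abs_lt.mp (lt_of_le_of_lt (Complex.abs_re_le_norm (z - s)) hz)).1
      rw [Complex.sub_re] at h2
      linarith
    rw [norm_mul, norm_mul, norm_cexp_neg, norm_neg, Complex.norm_real, Complex.norm_real,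
      Real.norm_eq_abs u, abs_of_nonneg hu0, norm_mul, Real.norm_of_nonneg (Real.exp_pos _).le]
    have h3 := v_mul_exp_le hδ0 hu0
    have h4 : Real.exp (δ * u) * Real.exp (-(z.re * u)) ≤ Real.exp (-((A + δ) * u)) := by
      rw [← Real.exp_add]
      apply Real.exp_le_exp.2
      have : (z.re - A - 2 * δ) * u ≥ 0 := mul_nonneg (by rw [hδ] at hz2 ⊢; linarith) hu0
      nlinarith
    calc ‖φ u‖ * (u * Real.exp (-(z.re * u)))
        ≤ ‖φ u‖ * ((1 / δ * Real.exp (δ * u)) * Real.exp (-(z.re * u))) := by gcongr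
      _ = 1 / δ * (‖φ u‖ * (Real.exp (δ * u) * Real.exp (-(z.re * u)))) := by ring
      _ ≤ _ := by gcongr
  · exact (hbd.norm).const_mul _
  · refine Eventually.of_forall fun u z _ => ?_
    have h1 : HasDerivAt (fun z : ℂ => -(z * u)) (-(u : ℂ)) z := by
      have := ((hasDerivAt_id z).mul_const (u : ℂ)).neg
      rw [one_mul] at this
      exact this
    have h2 := (h1.cexp).const_mul (φ u : ℂ)
    refine h2.congr_deriv ?_
    ring

lemma LL_differentiableAt (h : ∀ σ, A < σ → Fi φ σ) {s : ℂ} (hs : A < s.re) :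
    DifferentiableAt ℂ (LL φ) s := (LL_hasDerivAt h hs).differentiableAt

lemma halfplane_open' (A : ℝ) : IsOpen {s : ℂ | A < s.re} := isOpen_lt continuous_const Complex.continuous_re

lemma LL_analyticAt (h : ∀ σ, A < σ → Fi φ σ) {s : ℂ} (hs : A < s.re) : AnalyticAt ℂ (LL φ) s := by
  have hd : DifferentiableOn ℂ (LL φ) {s : ℂ | A < s.re} := fun z hz =>
    (LL_differentiableAt h hz).differentiableWithinAt
  exact hd.analyticAt ((halfplane_open' A).mem_nhds hs)

/-- the measure with density `φ` on the half line -/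
def dens (φ : ℝ → ℝ) : Measure ℝ :=
  (volume.restrict (Ici 0)).withDensity (fun v => ((Real.toNNReal (φ v) : ℝ≥0) : ℝ≥0∞))

lemma dens_integrable (hm : Measurable φ) (h0 : ∀ v, 0 ≤ v → 0 ≤ φ v) (t : ℝ) :
    t ∈ integrableExpSet (fun v : ℝ => -v) (dens φ) ↔ Fi φ t := by
  unfold integrableExpSet dens Fi
  rw [Set.mem_ofPred_eq, integrable_withDensity_iff_integrable_smul hm.real_toNNReal]
  refine integrable_congr ?_
  filter_upwards [ae_restrict_mem measurableSet_Ici] with v hv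
  rw [NNReal.smul_def, Real.coe_toNNReal _ (h0 v hv), smul_eq_mul]
  congr 2; ring

lemma dens_mgf (hm : Measurable φ) (h0 : ∀ v, 0 ≤ v → 0 ≤ φ v) (t : ℝ) :
    mgf (fun v : ℝ => -v) (dens φ) t = ∫ v in Ici (0:ℝ), φ v * Real.exp (-(t * v)) := by
  unfold mgf dens
  rw [integral_withDensity_eq_integral_smul hm.real_toNNReal]
  refine setIntegral_congr_fun measurableSet_Ici (fun v hv => ?_)
  simp only
  rw [NNReal.smul_def, Real.coe_toNNReal _ (h0 v hv), smul_eq_mul]
  congr 2; ring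

/-- **Landau's theorem** for a function bounded above by a function with convergent Laplace
transform. -/
theorem landau_step {G φ₀ : ℝ → ℝ} (hGm : Measurable G) (hφm : Measurable φ₀) {A Θ : ℝ}
    (hG : ∀ σ, Θ < σ → Fi G σ) (hφ : ∀ σ, A < σ → Fi φ₀ σ) (hle : ∀ v, 0 ≤ v → G v ≤ φ₀ v)
    {Hx : ℂ → ℂ} (hH : ∀ σ : ℝ, A < σ → AnalyticAt ℂ Hx σ) (heq : ∀ σ : ℝ, Θ < σ → LL G σ = Hx σ) :
    ∀ σ, A < σ → Fi G σ := by
  intro σ hσ
  set t₁ : ℝ := max (max A Θ) σ + 1 with ht₁
  have ht₁A : A < t₁ := lt_of_le_of_lt ((le_max_left _ _).trans (le_max_left _ _)) (by linarith)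
  have ht₁Θ : Θ < t₁ := lt_of_le_of_lt ((le_max_right _ _).trans (le_max_left _ _)) (by linarith)
  set X : ℝ → ℝ := fun v => φ₀ v - G v with hX
  have hXm : Measurable X := hφm.sub hGm
  have hX0 : ∀ v, 0 ≤ v → 0 ≤ X v := fun v hv => sub_nonneg.2 (hle v hv)
  have hneg : ∀ᵐ ω ∂(dens X), (fun v : ℝ => -v) ω ≤ 0 := by
    have h1 : ∀ᵐ ω ∂(volume.restrict (Ici (0:ℝ))), (fun v : ℝ => -v) ω ≤ 0 := by
      filter_upwards [ae_restrict_mem measurableSet_Ici] with v hv
      have : (0:ℝ) ≤ v := hv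
      simpa using this
    exact (withDensity_absolutelyContinuous _ _).ae_le h1
  set ψ : ℝ → ℝ := fun t => (LL φ₀ t).re - (Hx t).re with hψ
  have hψa : AnalyticOnNhd ℝ ψ (Ioo A (t₁ + 1)) := by
    intro t ht
    have h1 : AnalyticAt ℂ (LL φ₀) (t : ℂ) := LL_analyticAt hφ (by simpa using ht.1)
    exact h1.re_ofReal.sub (hH t ht.1).re_ofReal
  have hint : ∀ t, t₁ < t → t ∈ integrableExpSet (fun v : ℝ => -v) (dens X) := by
    intro t ht
    rw [dens_integrable hXm hX0]
    exact (hφ t (by linarith)).sub (hG t (by linarith))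
  have hval : ∀ t ∈ Ioo t₁ (t₁ + 1), mgf (fun v : ℝ => -v) (dens X) t = ψ t := by
    intro t ht
    rw [dens_mgf hXm hX0]
    have h1 := LL_real X t
    have h2 : LL X t = LL φ₀ t - LL G t := LL_sub (s := (t:ℂ)) (by simpa using hφ t (by linarith [ht.1]))
      (by simpa using hG t (by linarith [ht.1]))
    rw [h2, heq t (by linarith [ht.1])] at h1
    have h3 := congrArg Complex.re h1
    rw [Complex.sub_re, Complex.ofReal_re] at h3
    exact h3.symm
  obtain ⟨hmain, -⟩ := Q297.ChL.landau (X := fun v : ℝ => -v) (μ := dens X) (by fun_prop) hneg ht₁A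
    (show t₁ < t₁ + 1 by linarith) hψa hint hval
  have h1 := hmain σ hσ
  rw [dens_integrable hXm hX0] at h1
  refine ((hφ σ hσ).sub h1).congr fun v _ => ?_
  simp only [hX]; ring

end

end Q241SPL
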