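import Pool.Agent.Q241.SPL.Fns
import Pool.Agent.H313R3.TK.J

/-!
Large values of both signs on a sparse set, in every window `[x, x log x]`.
-/

set_option autoImplicit false

open MeasureTheory Filter Topology Set
open H313.TK

namespace Q241SPL

noncomputable section

lemma kp_exp_le {q : ℝ} (h0 : 0 ≤ q) (h2 : q ≤ 2) (v : ℝ) : Real.exp (-(q * v)) * kp v ≤ 4 * C0 := by
  have hC0 := C0_nonneg
  have h3 : Real.exp (-(q * v)) ≤ Real.exp (2 * |v|) := by
    refine Real.exp_le_exp.2 ?_
    have h4 := neg_abs_le v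
    have h5 := abs_nonneg v
    nlinarith
  calc Real.exp (-(q * v)) * kp v ≤ Real.exp (2 * |v|) * (C0 * W v) :=
        mul_le_mul h3 (kp_bounds v).2 (kp_nonneg v) (Real.exp_pos _).le
    _ = C0 * (W v * Real.exp (2 * |v|)) := by ring
    _ ≤ C0 * (4 * Real.exp (-|v|)) := mul_le_mul_of_nonneg_left (W_decay v) hC0
    _ ≤ C0 * (4 * 1) := by
        have : Real.exp (-|v|) ≤ 1 := Real.exp_le_one_iff.2 (by linarith [abs_nonneg v])
        gcongr
    _ = _ := by ring

/-- restriction to a slightly smaller window -/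
theorem win' (β : ℝ) (hβ : 1 / 2 ≤ β) (Lf : ℝ → ℝ) (hL : ∀ᶠ t in atTop, 1 ≤ Lf t)
    (hcore : ∃ c : ℝ, 0 < c ∧ ∀ᶠ t : ℝ in atTop, ∀ s : ℝ, s = 1 ∨ s = -1 →
      c * (Lf t * Real.exp (β * t)) ≤ ∫ v : ℝ, max (s * mm (t - v)) 0 * kp v) :
    ∃ c : ℝ, 0 < c ∧ ∀ᶠ l : ℝ in atTop, ∀ s : ℝ, s = 1 ∨ s = -1 →
      c * (Lf (ct l) * Real.exp (β * ct l)) ≤
        ∫ v in Icc (-(Real.log l / 2 - 1 / 20)) (Real.log l / 2 - 1 / 20), max (s * mm (ct l - v)) 0 * kp v := by
  obtain ⟨c, hc, hev⟩ := hcore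
  refine ⟨c / 2, by positivity, ?_⟩
  have hC0 := C0_nonneg
  have hD1 := D1_nonneg
  set B : ℝ := 8 * C0 * D1 with hB
  have hB0 : 0 ≤ B := by positivity
  have hlim : ∀ᶠ l : ℝ in atTop, B * (l * Real.exp (-(l / 5))) ≤ c / 2 := by
    have h1 : Tendsto (fun l : ℝ => l * Real.exp (-(l / 5))) atTop (𝓝 0) := by
      have h2 : Tendsto (fun l : ℝ => l / 5) atTop atTop := tendsto_id.atTop_div_const (by norm_num)
      have h3 := (Real.tendsto_pow_mul_exp_neg_atTop_nhds_zero 1).comp h2
      have h4 : Tendsto (fun l : ℝ => 5 * ((l / 5) ^ 1 * Real.exp (-(l / 5)))) atTop (𝓝 (5 * 0)) := h3.const_mul 5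
      rw [mul_zero] at h4
      refine h4.congr fun l => ?_
      ring
    have h5 : Tendsto (fun l : ℝ => B * (l * Real.exp (-(l / 5)))) atTop (𝓝 (B * 0)) := h1.const_mul B
    rw [mul_zero] at h5
    exact h5.eventually (ge_mem_nhds (by positivity))
  filter_upwards [ct_tendsto.eventually hev, ct_tendsto.eventually hL, hlim, eventually_ge_atTop (Real.exp 1)]
    with l h1 h2 h3 h4e s hs
  have h4 : 1 ≤ l := (Real.one_le_exp (by norm_num)).trans h4e
  set a : ℝ := Real.log l / 2 - 1 / 20 with ha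
  have hl0 : 0 < l := by linarith
  have hlog1 : 1 ≤ Real.log l := by rwa [Real.le_log_iff_exp_le hl0]
  have ha0 : 0 ≤ a := by rw [ha]; linarith
  have hm := mm_meas
  have k1 := h1 s hs
  have k2 := tail (fun u => max (s * mm u) 0) (by fun_prop) (fun u => le_max_right _ _)
    (fun u => (le_abs_self _).trans ((part_le s hs _).trans (abs_mm_le u))) (ct l) a ha0
  have k3 : Real.exp (ct l + a) * W (-a) ≤ l * Real.exp (3 / 10 * l) := by
    have e1 : Real.exp (ct l + a) ≤ l * Real.exp l := by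
      have : ct l + a ≤ Real.log l + l := by unfold ct; rw [ha]; linarith
      calc Real.exp (ct l + a) ≤ Real.exp (Real.log l + l) := Real.exp_le_exp.2 this
        _ = l * Real.exp l := by rw [Real.exp_add, Real.exp_log hl0]
    have e2 : W (-a) ≤ Real.exp (-(7 / 10 * l)) := by
      unfold W
      refine Real.exp_le_exp.2 ?_
      rw [max_eq_right (by linarith), abs_neg, abs_of_nonneg ha0]
      have e3 : 2 * a = Real.log l - 1 / 10 := by rw [ha]; ring
      have e4 : Real.exp (2 * a) ≥ 9 / 10 * l := by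
        rw [e3, sub_eq_add_neg, Real.exp_add, Real.exp_log hl0]
        have := Real.add_one_le_exp (-(1 / 10) : ℝ)
        nlinarith
      have := Real.pi_gt_d2
      nlinarith
    calc Real.exp (ct l + a) * W (-a) ≤ l * Real.exp l * Real.exp (-(7 / 10 * l)) :=
          mul_le_mul e1 e2 (W_pos _).le (by positivity)
      _ = l * (Real.exp l * Real.exp (-(7 / 10 * l))) := by ring
      _ = _ := by rw [← Real.exp_add]; congr 2; ring
  have k4 : B * (Real.exp (ct l + a) * W (-a)) ≤ c / 2 * Real.exp (β * ct l) := by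
    have e1 : B * (Real.exp (ct l + a) * W (-a)) ≤ B * (l * Real.exp (3 / 10 * l)) := mul_le_mul_of_nonneg_left k3 hB0
    have e2 : B * (l * Real.exp (3 / 10 * l)) = (B * (l * Real.exp (-(l / 5)))) * Real.exp (l / 2) := by
      have : Real.exp (3 / 10 * l) = Real.exp (-(l / 5)) * Real.exp (l / 2) := by
        rw [← Real.exp_add]; congr 1; ring
      rw [this]
      ring
    have e3 : Real.exp (l / 2) ≤ Real.exp (β * ct l) := by
      refine Real.exp_le_exp.2 ?_
      have : l ≤ ct l := by unfold ct; linarith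
      nlinarith
    calc B * (Real.exp (ct l + a) * W (-a)) ≤ (B * (l * Real.exp (-(l / 5)))) * Real.exp (l / 2) := by rw [← e2]; exact e1
      _ ≤ c / 2 * Real.exp (l / 2) := mul_le_mul_of_nonneg_right h3 (Real.exp_pos _).le
      _ ≤ _ := mul_le_mul_of_nonneg_left e3 (by positivity)
  have k5 : Real.exp (β * ct l) ≤ Lf (ct l) * Real.exp (β * ct l) := le_mul_of_one_le_left (Real.exp_pos _).le h2
  have k6 := mul_le_mul_of_nonneg_left k5 (by positivity : 0 ≤ c / 2)
  linarith

/-- **Localised large values on whole intervals.** -/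
theorem loc {θ : ℝ} (hθ0 : 0 ≤ θ) (hθ : θ < 1)
    (β : ℝ) (hβ : 1 / 2 ≤ β) (hβ1 : β ≤ 1) (hβΘ : Pool.Agent.H295R2.zetaSup - (1 - θ) / 2 < β)
    (Lf : ℝ → ℝ) (hL : ∀ᶠ t in atTop, 1 ≤ Lf t)
    (hcore : ∃ c : ℝ, 0 < c ∧ ∀ᶠ t : ℝ in atTop, ∀ s : ℝ, s = 1 ∨ s = -1 →
      c * (Lf t * Real.exp (β * t)) ≤ ∫ v : ℝ, max (s * mm (t - v)) 0 * kp v) :
    ∃ c : ℝ, 0 < c ∧ ∀ᶠ X : ℝ in atTop, ∀ s : ℝ, s = 1 ∨ s = -1 →
      ∃ x : ℝ, X ≤ x - x ^ θ ∧ x + x ^ θ ≤ X * Real.log X ∧
        ∀ y : ℝ, |y - x| ≤ x ^ θ → c * (Lf (ct (Real.log X)) * y ^ β) ≤ s * MM y := by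
  obtain ⟨c, hc, hev⟩ := win' β hβ Lf hL hcore
  have hC0 := C0_nonneg
  have hD1 := D1_nonneg
  have h12 := Pool.Agent.H295R2.half_le_zetaSup
  -- the exponent
  set κ : ℝ := ((2 * Pool.Agent.H295R2.zetaSup - 1 + θ) + 2 * β) / 2 with hκ
  have hκ1 : 2 * Pool.Agent.H295R2.zetaSup - 1 + θ < κ := by rw [hκ]; linarith
  have hκ2 : κ < 2 * β := by rw [hκ]; linarith
  have hκ0 : 0 < κ := by linarith
  obtain ⟨B, hBm, hB0, hBi, v₀, hv₀, hB⟩ := qd_mu.dat.maximal hθ0 hθ hκ1
  obtain ⟨hmi, hmass⟩ := mass_le β (by linarith) (by linarith)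
  obtain ⟨hmi2, hmass2⟩ := mass_le (κ / 2) (by linarith) (by linarith)
  set IB : ℝ := ∫ v in Ici (0:ℝ), B v * Real.exp (-(κ * v)) with hIB
  have hIB0 : 0 ≤ IB := integral_nonneg fun v => mul_nonneg (hB0 v) (Real.exp_pos _).le
  set E1 : ℝ := 2 * C0 * D1 + 2 * C0 * IB with hE1
  have hE10 : 0 ≤ E1 := by positivity
  -- the constant
  set δ : ℝ := c / (4 * (4 * C0 * D1 + 1)) with hδ
  have hδ0 : 0 < δ := by positivity
  refine ⟨δ, hδ0, ?_⟩
  -- small errors
  have hsmall : ∀ᶠ t : ℝ in atTop, E1 * Real.exp (κ / 2 * t) ≤ c / 4 * Real.exp (β * t) := by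
    have h1 : Tendsto (fun t : ℝ => Real.exp (-((β - κ / 2) * t))) atTop (𝓝 0) := by
      refine Real.tendsto_exp_neg_atTop_nhds_zero.comp ?_
      exact tendsto_id.const_mul_atTop (by linarith)
    have h2 : Tendsto (fun t : ℝ => E1 * Real.exp (-((β - κ / 2) * t))) atTop (𝓝 (E1 * 0)) := h1.const_mul E1
    rw [mul_zero] at h2
    filter_upwards [h2.eventually (ge_mem_nhds (show 0 < c / 4 by positivity))] with t ht
    have e : Real.exp (κ / 2 * t) = Real.exp (-((β - κ / 2) * t)) * Real.exp (β * t) := by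
      rw [← Real.exp_add]; congr 1; ring
    rw [e, ← mul_assoc]
    exact mul_le_mul_of_nonneg_right ht (Real.exp_pos _).le
  have hexp0 : Tendsto (fun u : ℝ => Real.exp (-((1 - θ) * u))) atTop (𝓝 0) := by
    refine Real.tendsto_exp_neg_atTop_nhds_zero.comp ?_
    exact tendsto_id.const_mul_atTop (by linarith)
  obtain ⟨U, hU⟩ := eventually_atTop.1 (hexp0.eventually (ge_mem_nhds (show (0:ℝ) < 1 / 100 by norm_num)))
  have hmain : ∀ᶠ l : ℝ in atTop, ∀ s : ℝ, s = 1 ∨ s = -1 →
      ∃ u : ℝ, Real.exp l ≤ Real.exp u - Real.exp (θ * u) ∧ Real.exp u + Real.exp (θ * u) ≤ Real.exp l * l ∧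
        ∀ y : ℝ, |y - Real.exp u| ≤ Real.exp (θ * u) → δ * (Lf (ct l) * y ^ β) ≤ s * MM y := by
    filter_upwards [hev, ct_tendsto.eventually hL, ct_tendsto.eventually hsmall, eventually_ge_atTop (Real.exp 1),
      eventually_ge_atTop (max v₀ U)] with l h1 h2 h3 h4e h5 s hs
    have h4 : 1 ≤ l := (Real.one_le_exp (by norm_num)).trans h4e
    have hl0 : 0 < l := by linarith
    have hlog1 : 1 ≤ Real.log l := by rwa [Real.le_log_iff_exp_le hl0]
    have h5a : v₀ ≤ l := (le_max_left _ _).trans h5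
    have h5b : U ≤ l := (le_max_right _ _).trans h5
    by_contra hcon
    push Not at hcon
    set a : ℝ := Real.log l / 2 - 1 / 20 with ha
    have ha0 : 0 ≤ a := by rw [ha]; linarith
    have k1 := h1 s hs
    have hm := mm_meas
    have hi := avg_int (fun u => max (s * mm u) 0) (by fun_prop) (fun u => (part_le s hs _).trans (abs_mm_le u)) (ct l)
    -- pointwise bound
    have hpt : ∀ u ∈ Icc (l + 1 / 20) (l + Real.log l - 1 / 20),
        max (s * mm u) 0 ≤ 2 * δ * Lf (ct l) * Real.exp (β * u) + Real.sqrt (B u) := by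
      intro u hu
      have hul : l ≤ u := by linarith [hu.1]
      have hu0 : 0 ≤ u := by linarith
      have hu1 := hU u (h5b.trans hul)
      have heu := Real.exp_pos u
      have hE : Real.exp (θ * u) = Real.exp u * Real.exp (-((1 - θ) * u)) := by rw [← Real.exp_add]; congr 1; ring
      have hE2 : Real.exp (θ * u) ≤ Real.exp u / 100 := by
        rw [hE]
        nlinarith
      have hul2 : Real.exp l ≤ Real.exp u - Real.exp (θ * u) := by
        have e1 : Real.exp l * (1 + 1 / 20) ≤ Real.exp u := by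
          calc Real.exp l * (1 + 1 / 20) ≤ Real.exp l * Real.exp (1 / 20) := by
                have := Real.add_one_le_exp (1 / 20 : ℝ)
                have h6 := Real.exp_pos l
                nlinarith
            _ = Real.exp (l + 1 / 20) := by rw [Real.exp_add]
            _ ≤ Real.exp u := Real.exp_le_exp.2 hu.1
        have := Real.exp_pos l
        linarith
      have huu2 : Real.exp u + Real.exp (θ * u) ≤ Real.exp l * l := by
        have e1 : Real.exp u * (1 + 1 / 20) ≤ Real.exp l * l := by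
          calc Real.exp u * (1 + 1 / 20) ≤ Real.exp u * Real.exp (1 / 20) := by
                have := Real.add_one_le_exp (1 / 20 : ℝ)
                nlinarith
            _ = Real.exp (u + 1 / 20) := by rw [Real.exp_add]
            _ ≤ Real.exp (l + Real.log l) := Real.exp_le_exp.2 (by linarith [hu.2])
            _ = Real.exp l * l := by rw [Real.exp_add, Real.exp_log hl0]
        linarith
      obtain ⟨y, hy, h6⟩ := hcon u hul2 huu2
      have hy3 := abs_le.1 hy
      have h7 := hB u (h5a.trans hul) y hy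
      have h8 : s * mm u - s * MM y ≤ Real.sqrt (B u) := by
        apply Real.le_sqrt_of_sq_le
        have e2 : (s * mm u - s * MM y) ^ 2 = (S Pool.Agent.H295R2.mu y - S Pool.Agent.H295R2.mu (Real.exp u)) ^ 2 := by
          have e3 : S Pool.Agent.H295R2.mu y = MM y := rfl
          have e4 : S Pool.Agent.H295R2.mu (Real.exp u) = mm u := rfl
          rw [e3, e4]
          rcases hs with h | h <;> rw [h] <;> ring
        rw [e2]
        exact h7
      have hypos : 0 < y := by
        have := Real.exp_pos l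
        linarith [hy3.1]
      have h9 : y ^ β ≤ 2 * Real.exp (β * u) := by
        have e5 : y ≤ 2 * Real.exp u := by linarith [hy3.2]
        calc y ^ β ≤ (2 * Real.exp u) ^ β := Real.rpow_le_rpow hypos.le e5 (by linarith)
          _ = 2 ^ β * Real.exp (β * u) := by
            rw [Real.mul_rpow (by norm_num) heu.le, ← Real.exp_mul, mul_comm u]
          _ ≤ 2 * Real.exp (β * u) := by
            have : (2:ℝ) ^ β ≤ 2 ^ (1:ℝ) := Real.rpow_le_rpow_of_exponent_le (by norm_num) hβ1
            rw [Real.rpow_one] at this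
            gcongr
      have hL0 : 0 ≤ Lf (ct l) := by linarith
      refine max_le ?_ (by have := Real.sqrt_nonneg (B u); positivity)
      have h10 : δ * (Lf (ct l) * y ^ β) ≤ 2 * δ * Lf (ct l) * Real.exp (β * u) := by
        calc δ * (Lf (ct l) * y ^ β) ≤ δ * (Lf (ct l) * (2 * Real.exp (β * u))) := by gcongr
          _ = _ := by ring
      linarith
    -- integrate
    set F1 : ℝ → ℝ := fun v => 2 * δ * Lf (ct l) * Real.exp (β * ct l) * (Real.exp (-(β * v)) * kp v) with hF1
    set F2 : ℝ → ℝ := fun v => 1 / 2 * Real.exp (κ / 2 * ct l) * (Real.exp (-(κ / 2 * v)) * kp v) with hF2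
    set B' : ℝ → ℝ := (Ici (0:ℝ)).indicator (fun u => B u * Real.exp (-(κ * u))) with hB'
    set F3 : ℝ → ℝ := fun v => 2 * C0 * Real.exp (κ / 2 * ct l) * B' (ct l - v) with hF3
    have hB'i : Integrable B' := (integrable_indicator_iff measurableSet_Ici).2 hBi
    have hB'0 : ∀ u, 0 ≤ B' u := fun u => indicator_nonneg (fun w _ => mul_nonneg (hB0 w) (Real.exp_pos _).le) u
    have hF1i : Integrable F1 := hmi.const_mul _
    have hF2i : Integrable F2 := hmi2.const_mul _
    have hF3i : Integrable F3 := (hB'i.comp_sub_left (ct l)).const_mul _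
    have hLct : 0 ≤ Lf (ct l) := by linarith
    have k2 : ∫ v in Icc (-a) a, max (s * mm (ct l - v)) 0 * kp v ≤ ∫ v in Icc (-a) a, (F1 v + F2 v + F3 v) := by
      refine setIntegral_mono_on hi.integrableOn ((hF1i.add hF2i).add hF3i).integrableOn measurableSet_Icc fun v hv => ?_
      have hu : ct l - v ∈ Icc (l + 1 / 20) (l + Real.log l - 1 / 20) := by
        unfold ct
        constructor <;> linarith [hv.1, hv.2]
      have hu0 : ct l - v ∈ Ici (0:ℝ) := by
        have := hu.1
        show (0:ℝ) ≤ _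
        linarith
      have p1 := hpt _ hu
      have p2 : Real.sqrt (B (ct l - v)) * kp v ≤ F2 v + F3 v := by
        set u := ct l - v with hudef
        set q := Real.sqrt (B u * Real.exp (-(κ * u))) with hq
        have e1 : Real.sqrt (B u) = q * Real.exp (κ / 2 * u) := by
          rw [hq, Real.sqrt_mul (hB0 u)]
          have e2 : Real.sqrt (Real.exp (-(κ * u))) = Real.exp (-(κ / 2 * u)) := by
            rw [Real.sqrt_eq_iff_mul_self_eq (Real.exp_pos _).le (Real.exp_pos _).le, ← Real.exp_add]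
            congr 1; ring
          rw [e2, mul_assoc, ← Real.exp_add]
          have : -(κ / 2 * u) + κ / 2 * u = 0 := by ring
          rw [this, Real.exp_zero, mul_one]
        have e3 : q ≤ 1 / 2 * (1 + q ^ 2) := by nlinarith [sq_nonneg (q - 1)]
        have e4 : q ^ 2 = B' u := by
          rw [hq, Real.sq_sqrt (mul_nonneg (hB0 u) (Real.exp_pos _).le), hB', indicator_of_mem hu0]
        rw [e4] at e3
        have e5 : Real.exp (κ / 2 * u) = Real.exp (κ / 2 * ct l) * Real.exp (-(κ / 2 * v)) := by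
          rw [← Real.exp_add, hudef]; congr 1; ring
        have e6 := kp_exp_le (q := κ / 2) (by linarith) (by linarith) v
        have e7 := kp_nonneg v
        calc Real.sqrt (B u) * kp v = q * (Real.exp (κ / 2 * u) * kp v) := by rw [e1]; ring
          _ ≤ (1 / 2 * (1 + B' u)) * (Real.exp (κ / 2 * u) * kp v) := by gcongr
          _ = 1 / 2 * Real.exp (κ / 2 * ct l) * (Real.exp (-(κ / 2 * v)) * kp v) +
              1 / 2 * Real.exp (κ / 2 * ct l) * B' u * (Real.exp (-(κ / 2 * v)) * kp v) := by rw [e5]; ring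
          _ ≤ 1 / 2 * Real.exp (κ / 2 * ct l) * (Real.exp (-(κ / 2 * v)) * kp v) +
              1 / 2 * Real.exp (κ / 2 * ct l) * B' u * (4 * C0) := by
              have := hB'0 u
              gcongr
          _ = F2 v + F3 v := by rw [hF2, hF3]; ring
      have e8 : 2 * δ * Lf (ct l) * Real.exp (β * (ct l - v)) * kp v = F1 v := by
        rw [hF1]
        have : Real.exp (β * (ct l - v)) = Real.exp (β * ct l) * Real.exp (-(β * v)) := by
          rw [← Real.exp_add]; congr 1; ring
        rw [this]; ring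
      calc max (s * mm (ct l - v)) 0 * kp v
          ≤ (2 * δ * Lf (ct l) * Real.exp (β * (ct l - v)) + Real.sqrt (B (ct l - v))) * kp v :=
            mul_le_mul_of_nonneg_right p1 (kp_nonneg v)
        _ = F1 v + Real.sqrt (B (ct l - v)) * kp v := by rw [add_mul, e8]
        _ ≤ F1 v + F2 v + F3 v := by linarith
    have k3 : ∫ v in Icc (-a) a, (F1 v + F2 v + F3 v) ≤ ∫ v, (F1 v + F2 v + F3 v) := by
      refine setIntegral_le_integral ((hF1i.add hF2i).add hF3i) (ae_of_all _ fun v => ?_)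
      have e1 := kp_nonneg v
      have e2 := hB'0 (ct l - v)
      show 0 ≤ F1 v + F2 v + F3 v
      rw [hF1, hF2, hF3]
      positivity
    have k4 : ∫ v, (F1 v + F2 v + F3 v) ≤ 2 * δ * Lf (ct l) * Real.exp (β * ct l) * (4 * C0 * D1) +
        E1 * Real.exp (κ / 2 * ct l) := by
      have hadd : ∫ v, (F1 v + F2 v + F3 v) = (∫ v, F1 v) + (∫ v, F2 v) + ∫ v, F3 v := by
        have h12' : Integrable (fun v => F1 v + F2 v) := hF1i.add hF2i
        have h := integral_add (f := fun v => F1 v + F2 v) (g := F3) h12' hF3i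
        rw [h, integral_add hF1i hF2i]
      rw [hadd]
      have q1 : ∫ v, F1 v ≤ 2 * δ * Lf (ct l) * Real.exp (β * ct l) * (4 * C0 * D1) := by
        rw [hF1, integral_const_mul]; gcongr
      have q2 : ∫ v, F2 v ≤ 1 / 2 * Real.exp (κ / 2 * ct l) * (4 * C0 * D1) := by
        rw [hF2, integral_const_mul]; gcongr
      have q3 : ∫ v, F3 v = 2 * C0 * Real.exp (κ / 2 * ct l) * IB := by
        rw [hF3, integral_const_mul, integral_sub_left_eq_self (fun u => B' u) volume (ct l), hB',
          integral_indicator measurableSet_Ici]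
      rw [q3]
      have e9 : 1 / 2 * Real.exp (κ / 2 * ct l) * (4 * C0 * D1) + 2 * C0 * Real.exp (κ / 2 * ct l) * IB =
          E1 * Real.exp (κ / 2 * ct l) := by rw [hE1]; ring
      linarith
    have k5 := ((k1.trans k2).trans k3).trans k4
    have k6 : 2 * δ * Lf (ct l) * Real.exp (β * ct l) * (4 * C0 * D1) ≤ c / 2 * (Lf (ct l) * Real.exp (β * ct l)) := by
      have e1 : 2 * δ * (4 * C0 * D1) ≤ c / 2 := by
        rw [hδ]
        have : 0 < 4 * C0 * D1 + 1 := by positivity
        rw [show 2 * (c / (4 * (4 * C0 * D1 + 1))) * (4 * C0 * D1) = (c / 2) * ((4 * C0 * D1) / (4 * C0 * D1 + 1)) by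
          field_simp; ring]
        have h8 : (4 * C0 * D1) / (4 * C0 * D1 + 1) ≤ 1 := by rw [div_le_one this]; linarith
        nlinarith
      calc 2 * δ * Lf (ct l) * Real.exp (β * ct l) * (4 * C0 * D1)
          = (2 * δ * (4 * C0 * D1)) * (Lf (ct l) * Real.exp (β * ct l)) := by ring
        _ ≤ _ := mul_le_mul_of_nonneg_right e1 (by positivity)
    have k7 : c / 4 * Real.exp (β * ct l) ≤ c / 4 * (Lf (ct l) * Real.exp (β * ct l)) := by
      have := le_mul_of_one_le_left (Real.exp_pos (β * ct l)).le h2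
      gcongr
    have k8 : 0 < c * (Lf (ct l) * Real.exp (β * ct l)) := by
      have : 0 < Lf (ct l) := by linarith
      positivity
    linarith
  filter_upwards [Real.tendsto_log_atTop.eventually hmain, eventually_gt_atTop 0] with X hX hX0 s hs
  obtain ⟨u, h2, h3, h4⟩ := hX s hs
  rw [Real.exp_log hX0] at h2 h3
  have e : Real.exp (θ * u) = (Real.exp u) ^ θ := by rw [← Real.exp_mul, mul_comm]
  rw [e] at h2 h3 h4
  exact ⟨Real.exp u, h2, h3, h4⟩

end

end Q241SPL
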