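import Pool.Agent.Q241.SPL.Glue
import Pool.Agent.W120.WM.Lim

/-!
Mean squares of sampled values of the Mertens function.
-/

set_option autoImplicit false

open MeasureTheory Filter Topology Set
open Pool.Agent.H295R2

namespace Q241SPL

noncomputable section

/-- for `x ≥ a` the number `m(x)` differs from `M(x)` by at most the difference of two values of `M` on
`[x - x^θ, x + x^θ]` -/
structure Between (θ a : ℝ) (m : ℝ → ℝ) : Prop where
  meas : Measurable m
  mid : ∀ x : ℝ, a ≤ x → ∃ y y' : ℝ, |y - x| ≤ x ^ θ ∧ |y' - x| ≤ x ^ θ ∧ |m x - Mx x| ≤ |Mx y - Mx y'|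

lemma Between.err {θ a : ℝ} {m : ℝ → ℝ} (h : Between θ a m) (hθ0 : 0 ≤ θ) (hθ : θ < 1) {κ : ℝ}
    (hκ : 2 * zetaSup - 1 + θ < κ) :
    ∃ B : ℝ → ℝ, Measurable B ∧ (∀ v, 0 ≤ B v) ∧ IntegrableOn (fun v => B v * Real.exp (-(κ * v))) (Ici 0) ∧
      ∃ V : ℝ, 0 ≤ V ∧ a ≤ Real.exp V ∧ ∀ v : ℝ, V ≤ v → (m (Real.exp v) - Mx (Real.exp v)) ^ 2 ≤ B v := by
  obtain ⟨B, hBm, hB0, hBi, v₀, hv₀, hB⟩ := qd_mu.dat.maximal hθ0 hθ hκ
  refine ⟨fun v => 4 * B v, hBm.const_mul 4, fun v => by have := hB0 v; positivity, ?_,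
    max v₀ (Real.log (max a 1)), le_trans hv₀ (le_max_left _ _), ?_, fun v hv => ?_⟩
  · refine (hBi.const_mul 4).congr (Eventually.of_forall fun v => ?_)
    simp only
    ring
  · calc a ≤ max a 1 := le_max_left _ _
      _ = Real.exp (Real.log (max a 1)) := (Real.exp_log (by positivity)).symm
      _ ≤ _ := Real.exp_le_exp.2 (le_max_right _ _)
  · have hav : a ≤ Real.exp v := by
      calc a ≤ max a 1 := le_max_left _ _
        _ = Real.exp (Real.log (max a 1)) := (Real.exp_log (by positivity)).symm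
        _ ≤ _ := Real.exp_le_exp.2 ((le_max_right _ _).trans hv)
    obtain ⟨y, y', hy, hy', h1⟩ := h.mid _ hav
    rw [← Real.exp_mul, mul_comm v] at hy hy'
    have b1 := hB v ((le_max_left _ _).trans hv) y hy
    have b2 := hB v ((le_max_left _ _).trans hv) y' hy'
    have e : ∀ z, S mu z = Mx z := fun z => rfl
    have c1 : (m (Real.exp v) - Mx (Real.exp v)) ^ 2 ≤ (Mx y - Mx y') ^ 2 := sq_le_sq.2 h1
    have c2 : (Mx y - Mx y') ^ 2 ≤ 2 * (Mx y - Mx (Real.exp v)) ^ 2 + 2 * (Mx y' - Mx (Real.exp v)) ^ 2 := by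
      nlinarith [sq_nonneg (Mx y + Mx y' - 2 * Mx (Real.exp v))]
    rw [e] at b1 b2
    rw [e (Real.exp v)] at b1 b2
    show _ ≤ 4 * B v
    linarith

/-- the integral of the error over a window -/
lemma window_err {B : ℝ → ℝ} {κ : ℝ} (hBm : Measurable B) (hB0 : ∀ v, 0 ≤ B v)
    (hBi : IntegrableOn (fun v => B v * Real.exp (-(κ * v))) (Ici 0)) :
    ∃ K : ℝ, 0 ≤ K ∧ ∀ A L : ℝ, 0 ≤ A → A ≤ L →
      IntegrableOn (fun v => B v * Real.exp (-v)) (Ioc A L) ∧
      ∫ v in Ioc A L, B v * Real.exp (-v) ≤ K * (Real.exp ((κ - 1) * A) + Real.exp ((κ - 1) * L)) := by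
  set K : ℝ := ∫ v in Ici (0:ℝ), B v * Real.exp (-(κ * v)) with hK
  have hK0 : 0 ≤ K := integral_nonneg fun v => mul_nonneg (hB0 v) (Real.exp_pos _).le
  refine ⟨K, hK0, fun A L hA hAL => ?_⟩
  set W : ℝ := Real.exp ((κ - 1) * A) + Real.exp ((κ - 1) * L) with hW
  have hW0 : 0 < W := by rw [hW]; positivity
  have hsub : Ioc A L ⊆ Ici (0:ℝ) := fun v hv => hA.trans hv.1.le
  have hpt : ∀ v ∈ Ioc A L, B v * Real.exp (-v) ≤ W * (B v * Real.exp (-(κ * v))) := by
    intro v hv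
    have e1 : Real.exp (-v) = Real.exp ((κ - 1) * v) * Real.exp (-(κ * v)) := by
      rw [← Real.exp_add]; congr 1; ring
    have e2 : Real.exp ((κ - 1) * v) ≤ W := by
      rcases le_or_gt 0 (κ - 1) with h | h
      · have : Real.exp ((κ - 1) * v) ≤ Real.exp ((κ - 1) * L) :=
          Real.exp_le_exp.2 (mul_le_mul_of_nonneg_left hv.2 h)
        have := Real.exp_pos ((κ - 1) * A)
        linarith
      · have : Real.exp ((κ - 1) * v) ≤ Real.exp ((κ - 1) * A) :=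
          Real.exp_le_exp.2 (mul_le_mul_of_nonpos_left hv.1.le h.le)
        have := Real.exp_pos ((κ - 1) * L)
        linarith
    rw [e1]
    have h3 := hB0 v
    have h4 := Real.exp_pos (-(κ * v))
    calc B v * (Real.exp ((κ - 1) * v) * Real.exp (-(κ * v))) = Real.exp ((κ - 1) * v) * (B v * Real.exp (-(κ * v))) := by ring
      _ ≤ _ := by gcongr
  have hi2 : IntegrableOn (fun v => W * (B v * Real.exp (-(κ * v)))) (Ioc A L) := (hBi.mono_set hsub).const_mul W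
  have hi : IntegrableOn (fun v => B v * Real.exp (-v)) (Ioc A L) := by
    refine Integrable.mono' hi2 ?_ ?_
    · exact (hBm.mul (by fun_prop)).aestronglyMeasurable
    · filter_upwards [ae_restrict_mem measurableSet_Ioc] with v hv
      rw [Real.norm_of_nonneg (mul_nonneg (hB0 v) (Real.exp_pos _).le)]
      exact hpt v hv
  refine ⟨hi, ?_⟩
  calc ∫ v in Ioc A L, B v * Real.exp (-v) ≤ ∫ v in Ioc A L, W * (B v * Real.exp (-(κ * v))) :=
        setIntegral_mono_on hi hi2 measurableSet_Ioc hpt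
    _ = W * ∫ v in Ioc A L, B v * Real.exp (-(κ * v)) := integral_const_mul _ _
    _ ≤ W * K := by
        gcongr
        exact setIntegral_mono_set hBi (Eventually.of_forall fun v => mul_nonneg (hB0 v) (Real.exp_pos _).le)
          (Eventually.of_forall hsub)
    _ = _ := by ring

/-- `∫ p(m(e^v))² e^{-v} dv` -/
def JP (p : ℝ → ℝ) (m : ℝ → ℝ) (A L : ℝ) : ℝ := ∫ v in Ioc A L, p (m (Real.exp v)) ^ 2 * Real.exp (-v)

lemma JP_id (A L : ℝ) : JP id Mx A L = JW A L := rfl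

lemma Mx_sq_int (p : ℝ → ℝ) (hp : Measurable p) (hp1 : ∀ x, |p x| ≤ |x|) {A L : ℝ} (hA : 0 ≤ A) :
    IntegrableOn (fun v => p (Mx (Real.exp v)) ^ 2 * Real.exp (-v)) (Ioc A L) := by
  refine Integrable.mono' (JW_integrable (A := A) (L := L) hA) ?_ ?_
  · exact (((hp.comp (Mx_meas.comp Real.measurable_exp)).pow_const 2).mul (by fun_prop)).aestronglyMeasurable
  · refine Eventually.of_forall fun v => ?_
    rw [Real.norm_of_nonneg (by positivity)]
    have h1 := hp1 (Mx (Real.exp v))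
    have h2 : p (Mx (Real.exp v)) ^ 2 ≤ Mx (Real.exp v) ^ 2 := sq_le_sq.2 h1
    gcongr

/-- **Comparison of mean squares.** `p` is a contraction with `p(0) = 0`. -/
theorem Between.compare {θ a : ℝ} {m : ℝ → ℝ} (h : Between θ a m) (hθ0 : 0 ≤ θ) (hθ : θ < 1) {κ : ℝ}
    (hκ : 2 * zetaSup - 1 + θ < κ) :
    ∃ K V : ℝ, 0 ≤ K ∧ 0 ≤ V ∧ a ≤ Real.exp V ∧ ∀ p : ℝ → ℝ, Measurable p → (∀ x, |p x| ≤ |x|) →
      (∀ x y, |p x - p y| ≤ |x - y|) → ∀ A L : ℝ, V ≤ A → A ≤ L →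
      IntegrableOn (fun v => p (m (Real.exp v)) ^ 2 * Real.exp (-v)) (Ioc A L) ∧ ∀ ε : ℝ, 0 < ε →
      JP p m A L ≤ (1 + ε) * JP p Mx A L + (1 + 1 / ε) * (K * (Real.exp ((κ - 1) * A) + Real.exp ((κ - 1) * L))) ∧
      JP p Mx A L ≤ (1 + ε) * JP p m A L + (1 + 1 / ε) * (K * (Real.exp ((κ - 1) * A) + Real.exp ((κ - 1) * L))) := by
  obtain ⟨B, hBm, hB0, hBi, V, hV, haV, hB⟩ := h.err hθ0 hθ hκ
  obtain ⟨K, hK0, hK⟩ := window_err hBm hB0 hBi
  refine ⟨K, V, hK0, hV, haV, fun p hp hp1 hp2 A L hA hAL => ?_⟩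
  have hA0 : 0 ≤ A := hV.trans hA
  obtain ⟨hiB, hKB⟩ := hK A L hA0 hAL
  have hiM := Mx_sq_int p hp hp1 (A := A) (L := L) hA0
  have hmm : Measurable (fun v => p (m (Real.exp v)) ^ 2 * Real.exp (-v)) :=
    ((hp.comp (h.meas.comp Real.measurable_exp)).pow_const 2).mul (by fun_prop)
  -- elementary inequality
  have hel : ∀ ε : ℝ, 0 < ε → ∀ x y z : ℝ, (x - y) ^ 2 ≤ z → x ^ 2 ≤ (1 + ε) * y ^ 2 + (1 + 1 / ε) * z := by
    intro ε hε x y z hz
    have h1 : x ^ 2 ≤ (1 + ε) * y ^ 2 + (1 + 1 / ε) * (x - y) ^ 2 := by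
      have h2 : 0 ≤ (ε * y - (x - y)) ^ 2 / ε := by positivity
      have h3 : (1 + ε) * y ^ 2 + (1 + 1 / ε) * (x - y) ^ 2 - x ^ 2 = (ε * y - (x - y)) ^ 2 / ε := by
        field_simp; ring
      linarith
    have h4 : (1 + 1 / ε) * (x - y) ^ 2 ≤ (1 + 1 / ε) * z := by gcongr
    linarith
  have hdiff : ∀ v ∈ Ioc A L, (p (m (Real.exp v)) - p (Mx (Real.exp v))) ^ 2 ≤ B v := by
    intro v hv
    refine le_trans ?_ (hB v (hA.trans hv.1.le))
    exact sq_le_sq.2 (hp2 _ _)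
  have hdiff' : ∀ v ∈ Ioc A L, (p (Mx (Real.exp v)) - p (m (Real.exp v))) ^ 2 ≤ B v := by
    intro v hv
    have := hdiff v hv
    calc (p (Mx (Real.exp v)) - p (m (Real.exp v))) ^ 2 = (p (m (Real.exp v)) - p (Mx (Real.exp v))) ^ 2 := by ring
      _ ≤ _ := this
  have hi : IntegrableOn (fun v => p (m (Real.exp v)) ^ 2 * Real.exp (-v)) (Ioc A L) := by
    refine Integrable.mono' ((hiM.const_mul 2).add (hiB.const_mul 2)) hmm.aestronglyMeasurable ?_
    filter_upwards [ae_restrict_mem measurableSet_Ioc] with v hv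
    rw [Real.norm_of_nonneg (by positivity)]
    have h1 := hel 1 one_pos _ _ _ (hdiff v hv)
    have h2 := Real.exp_pos (-v)
    simp only [Pi.add_apply]
    nlinarith
  refine ⟨hi, fun ε hε => ⟨?_, ?_⟩⟩
  · have h1 : JP p m A L ≤ ∫ v in Ioc A L, ((1 + ε) * (p (Mx (Real.exp v)) ^ 2 * Real.exp (-v)) +
        (1 + 1 / ε) * (B v * Real.exp (-v))) := by
      refine setIntegral_mono_on hi ((hiM.const_mul _).add (hiB.const_mul _)) measurableSet_Ioc fun v hv => ?_
      have h2 := hel ε hε _ _ _ (hdiff v hv)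
      have h3 := mul_le_mul_of_nonneg_right h2 (Real.exp_pos (-v)).le
      refine h3.trans (le_of_eq ?_)
      ring
    rw [integral_add (hiM.const_mul _) (hiB.const_mul _), integral_const_mul, integral_const_mul] at h1
    refine h1.trans ?_
    have : (1 + 1 / ε) * ∫ v in Ioc A L, B v * Real.exp (-v) ≤
        (1 + 1 / ε) * (K * (Real.exp ((κ - 1) * A) + Real.exp ((κ - 1) * L))) := by gcongr
    unfold JP
    linarith
  · have h1 : JP p Mx A L ≤ ∫ v in Ioc A L, ((1 + ε) * (p (m (Real.exp v)) ^ 2 * Real.exp (-v)) +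
        (1 + 1 / ε) * (B v * Real.exp (-v))) := by
      refine setIntegral_mono_on hiM ((hi.const_mul _).add (hiB.const_mul _)) measurableSet_Ioc fun v hv => ?_
      have h2 := hel ε hε _ _ _ (hdiff' v hv)
      have h3 := mul_le_mul_of_nonneg_right h2 (Real.exp_pos (-v)).le
      refine h3.trans (le_of_eq ?_)
      ring
    rw [integral_add (hi.const_mul _) (hiB.const_mul _), integral_const_mul, integral_const_mul] at h1
    refine h1.trans ?_
    have : (1 + 1 / ε) * ∫ v in Ioc A L, B v * Real.exp (-v) ≤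
        (1 + 1 / ε) * (K * (Real.exp ((κ - 1) * A) + Real.exp ((κ - 1) * L))) := by gcongr
    unfold JP
    linarith

end

end Q241SPL
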