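import Pool.Agent.Q241.SPL.MS

/-!
Mean squares of sampled values of the Mertens function: the limit and the one-sided windows.
-/

set_option autoImplicit false

open MeasureTheory Filter Topology Set
open Pool.Agent.H295R2

namespace Q241SPL

noncomputable section

/-- change of variables -/
lemma JP_eq (p m : ℝ → ℝ) {A L : ℝ} (hAL : A ≤ L) :
    ∫ u in (Real.exp A)..(Real.exp L), (p (m u) / u) ^ 2 = JP p m A L := by
  rw [intervalIntegral.integral_of_le (Real.exp_le_exp.2 hAL)]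
  have h := integral_image_eq_integral_abs_deriv_smul (s := Ioc A L) (f := Real.exp) (f' := Real.exp)
    measurableSet_Ioc (fun x _ => (Real.hasDerivAt_exp x).hasDerivWithinAt) (Real.exp_injective.injOn)
    (fun u => (p (m u) / u) ^ 2)
  have himg : Real.exp '' Ioc A L = Ioc (Real.exp A) (Real.exp L) := by
    ext y
    simp only [mem_image, mem_Ioc]
    constructor
    · rintro ⟨x, hx, rfl⟩
      exact ⟨Real.exp_lt_exp.2 hx.1, Real.exp_le_exp.2 hx.2⟩
    · intro hy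
      have hy0 : 0 < y := (Real.exp_pos A).trans hy.1
      exact ⟨Real.log y, ⟨(Real.lt_log_iff_exp_lt hy0).2 hy.1, (Real.log_le_iff_le_exp hy0).2 hy.2⟩, Real.exp_log hy0⟩
  rw [himg] at h
  rw [h]
  unfold JP
  refine integral_congr_ae (Eventually.of_forall fun s => ?_)
  simp only
  rw [abs_of_pos (Real.exp_pos s), smul_eq_mul, Real.exp_neg]
  have := (Real.exp_pos s).ne'
  field_simp

lemma JP_eq' (p m : ℝ → ℝ) {a b : ℝ} (ha : 0 < a) (hab : a ≤ b) :
    ∫ u in a..b, (p (m u) / u) ^ 2 = JP p m (Real.log a) (Real.log b) := by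
  rw [← JP_eq p m (Real.log_le_log ha hab), Real.exp_log ha, Real.exp_log (ha.trans_le hab)]

lemma Mx_abs (y : ℝ) : |Mx y| ≤ |y| := by
  rcases lt_or_ge y 1 with h | h
  · have : ⌊y⌋₊ = 0 := Nat.floor_eq_zero.2 h
    unfold Mx
    rw [this]
    simp
  · have h1 : |Mx y| ≤ ∑ k ∈ Finset.Icc 1 ⌊y⌋₊, (1:ℝ) := by
      unfold Mx
      refine (Finset.abs_sum_le_sum_abs _ _).trans (Finset.sum_le_sum fun k _ => ?_)
      exact abs_mu_le k
    rw [Finset.sum_const, Nat.card_Icc, nsmul_eq_mul, mul_one] at h1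
    have h2 : ((⌊y⌋₊ : ℕ) : ℝ) ≤ y := Nat.floor_le (by linarith)
    rw [abs_of_nonneg (by linarith : (0:ℝ) ≤ y)]
    simpa using h1.trans h2

lemma Between.bd {θ a : ℝ} {m : ℝ → ℝ} (h : Between θ a m) (hθ : θ < 1) (ha : 1 ≤ a) {x : ℝ} (hx : a ≤ x) :
    |m x| ≤ 5 * x := by
  have hx1 : 1 ≤ x := ha.trans hx
  have hx0 : 0 ≤ x := by linarith
  obtain ⟨y, y', h1, h2, h3⟩ := h.mid x hx
  have h4 : x ^ θ ≤ x := by
    calc x ^ θ ≤ x ^ (1:ℝ) := Real.rpow_le_rpow_of_exponent_le hx1 hθ.le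
      _ = x := Real.rpow_one x
  have e : ∀ z : ℝ, |z - x| ≤ x ^ θ → |Mx z| ≤ 2 * x := by
    intro z hz
    have h5 := Mx_abs z
    have h6 : |z| ≤ |z - x| + |x| := by
      have := abs_add_le (z - x) x
      simpa using this
    rw [abs_of_nonneg hx0] at h6
    linarith
  have h7 := e y h1
  have h8 := e y' h2
  have h9 := Mx_abs x
  rw [abs_of_nonneg hx0] at h9
  have h10 : |Mx y - Mx y'| ≤ |Mx y| + |Mx y'| := abs_sub _ _
  have h11 : |m x| ≤ |m x - Mx x| + |Mx x| := by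
    have := abs_add_le (m x - Mx x) (Mx x)
    simpa using this
  linarith

lemma Between.integrable {θ a : ℝ} {m : ℝ → ℝ} (h : Between θ a m) (hθ : θ < 1) (ha : 1 ≤ a)
    {p : ℝ → ℝ} (hp : Measurable p) (hp1 : ∀ x, |p x| ≤ |x|) {A L : ℝ} (hA : Real.log a ≤ A) :
    IntegrableOn (fun v => p (m (Real.exp v)) ^ 2 * Real.exp (-v)) (Ioc A L) := by
  have hmm : Measurable (fun v => p (m (Real.exp v)) ^ 2 * Real.exp (-v)) :=
    ((hp.comp (h.meas.comp Real.measurable_exp)).pow_const 2).mul (by fun_prop)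
  refine Measure.integrableOn_of_bounded (M := 25 * Real.exp L) (by simp) hmm.aestronglyMeasurable ?_
  filter_upwards [ae_restrict_mem measurableSet_Ioc] with v hv
  have hav : a ≤ Real.exp v := by
    rw [← Real.log_le_iff_le_exp (by linarith)]
    exact hA.trans hv.1.le
  have h1 := h.bd hθ ha hav
  have h2 := (hp1 (m (Real.exp v))).trans h1
  have h3 : p (m (Real.exp v)) ^ 2 ≤ (5 * Real.exp v) ^ 2 := by
    rw [← sq_abs]
    exact pow_le_pow_left₀ (abs_nonneg _) h2 2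
  rw [Real.norm_of_nonneg (by positivity)]
  have h4 : Real.exp v ≤ Real.exp L := Real.exp_le_exp.2 hv.2
  have h5 : Real.exp v * Real.exp (-v) = 1 := by rw [← Real.exp_add]; simp
  calc p (m (Real.exp v)) ^ 2 * Real.exp (-v) ≤ (5 * Real.exp v) ^ 2 * Real.exp (-v) := by gcongr
    _ = 25 * Real.exp v * (Real.exp v * Real.exp (-v)) := by ring
    _ = 25 * Real.exp v := by rw [h5, mul_one]
    _ ≤ _ := by gcongr

lemma JP_nonneg (p m : ℝ → ℝ) (A L : ℝ) : 0 ≤ JP p m A L := integral_nonneg fun v => by positivity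

lemma JP_add {p m : ℝ → ℝ} {A B C : ℝ} (h1 : A ≤ B) (h2 : B ≤ C)
    (hi : IntegrableOn (fun v => p (m (Real.exp v)) ^ 2 * Real.exp (-v)) (Ioc A C)) :
    JP p m A C = JP p m A B + JP p m B C := by
  unfold JP
  rw [← Ioc_union_Ioc_eq_Ioc h1 h2]
  exact setIntegral_union (Set.disjoint_left.2 fun x hx hx' => by
    exact absurd hx.2 (not_le.2 hx'.1)) measurableSet_Ioc (hi.mono_set (Ioc_subset_Ioc_right h2))
    (hi.mono_set (Ioc_subset_Ioc_left h1))

lemma JP_mono {p m : ℝ → ℝ} {A A' B B' : ℝ} (h1 : A ≤ A') (h2 : B' ≤ B)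
    (hi : IntegrableOn (fun v => p (m (Real.exp v)) ^ 2 * Real.exp (-v)) (Ioc A B)) :
    JP p m A' B' ≤ JP p m A B :=
  setIntegral_mono_set hi (Eventually.of_forall fun v => by positivity)
    (Eventually.of_forall (Ioc_subset_Ioc h1 h2))

/-! ### transfer of limits -/

lemma lim_transfer {ι : Type*} {l : Filter ι} {ℓ F G : ι → ℝ} (hℓ : Tendsto ℓ l atTop) {T : ℝ}
    (h1 : ∀ ε : ℝ, 0 < ε → ∃ C : ℝ, ∀ᶠ L in l, F L ≤ (1 + ε) * G L + C)
    (h2 : ∀ ε : ℝ, 0 < ε → ∃ C : ℝ, ∀ᶠ L in l, G L ≤ (1 + ε) * F L + C)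
    (hG : Tendsto (fun L => G L / ℓ L) l (𝓝 T)) : Tendsto (fun L => F L / ℓ L) l (𝓝 T) := by
  have hnear : ∀ b : ℝ, Tendsto (fun ε : ℝ => b * (1 + ε)) (𝓝[>] 0) (𝓝 b) := by
    intro b
    have hc : Continuous (fun ε : ℝ => b * (1 + ε)) := by fun_prop
    have := (hc.tendsto 0).mono_left (nhdsWithin_le_nhds (s := Ioi 0))
    simpa using this
  rw [tendsto_order]
  constructor
  · intro b hb
    obtain ⟨ε, hε1, hε⟩ := (((hnear b).eventually (gt_mem_nhds hb)).and self_mem_nhdsWithin).exists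
    obtain ⟨C, hC⟩ := h2 ε hε
    have hε0 : (0:ℝ) < ε := hε
    have h4 : Tendsto (fun L => G L / ℓ L - C / ℓ L) l (𝓝 (T - 0)) := hG.sub (tendsto_const_nhds.div_atTop hℓ)
    rw [sub_zero] at h4
    filter_upwards [hC, h4.eventually (lt_mem_nhds hε1), hℓ.eventually_gt_atTop 0] with L k1 k2 k3
    rw [← sub_div, lt_div_iff₀ k3] at k2
    rw [lt_div_iff₀ k3]
    by_contra hcon
    push Not at hcon
    nlinarith
  · intro b hb
    obtain ⟨ε, hε1, hε⟩ := (((hnear T).eventually (gt_mem_nhds hb)).and self_mem_nhdsWithin).exists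
    obtain ⟨C, hC⟩ := h1 ε hε
    have h4 : Tendsto (fun L => (G L / ℓ L) * (1 + ε) + C / ℓ L) l (𝓝 (T * (1 + ε) + 0)) :=
      (hG.mul_const _).add (tendsto_const_nhds.div_atTop hℓ)
    rw [add_zero] at h4
    filter_upwards [hC, h4.eventually (gt_mem_nhds hε1), hℓ.eventually_gt_atTop 0] with L k1 k2 k3
    rw [div_lt_iff₀ k3]
    have k4 : (G L / ℓ L * (1 + ε) + C / ℓ L) * ℓ L = (1 + ε) * G L + C := by field_simp
    nlinarith

lemma top_transfer {ι : Type*} {l : Filter ι} {ℓ F G : ι → ℝ} (hℓ : Tendsto ℓ l atTop)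
    (h2 : ∀ ε : ℝ, 0 < ε → ∃ C : ℝ, ∀ᶠ L in l, G L ≤ (1 + ε) * F L + C)
    (hG : Tendsto (fun L => G L / ℓ L) l atTop) : Tendsto (fun L => F L / ℓ L) l atTop := by
  obtain ⟨C, hC⟩ := h2 1 one_pos
  rw [tendsto_atTop] at hG ⊢
  intro b
  filter_upwards [hC, hG (2 * b + |C|), hℓ.eventually_gt_atTop 0, hℓ.eventually_ge_atTop 1] with L k1 k2 k3 k4
  rw [le_div_iff₀ k3] at k2 ⊢
  have k5 : C ≤ |C| * ℓ L := by
    have := le_abs_self C
    have := abs_nonneg C
    nlinarith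
  nlinarith

end

end Q241SPL
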