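import Pool.Agent.Q241.SPL.MT

/-!
Mean squares of sampled values of the Mertens function: the limit.
-/

set_option autoImplicit false

open MeasureTheory Filter Topology Set
open Pool.Agent.H295R2

namespace Q241SPL

noncomputable section

/-- comparison on the windows `[(1-δ)L, L]`, on RH -/
lemma Between.comp_RH {θ a : ℝ} {m : ℝ → ℝ} (h : Between θ a m) (hθ0 : 0 ≤ θ) (hθ : θ < 1) (ha : 1 ≤ a)
    (hRH : zetaSup ≤ 1 / 2) {δ : ℝ} (hδ : 0 < δ) (hδ1 : δ ≤ 1) (ε : ℝ) (hε : 0 < ε) :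
    ∃ C : ℝ, ∀ᶠ L : ℝ in atTop,
      JP id m (max (Real.log a) ((1 - δ) * L)) L ≤ (1 + ε) * JP id Mx ((1 - δ) * L) L + C ∧
      JP id Mx ((1 - δ) * L) L ≤ (1 + ε) * JP id m (max (Real.log a) ((1 - δ) * L)) L + C := by
  have hla : 0 ≤ Real.log a := Real.log_nonneg ha
  obtain ⟨K, V, hK, hV, haV, hc⟩ := h.compare hθ0 hθ (κ := (1 + θ) / 2) (by linarith)
  have hlaV : Real.log a ≤ V := by rwa [Real.log_le_iff_le_exp (by linarith)]
  have hid1 : ∀ x : ℝ, |id x| ≤ |x| := fun x => le_rfl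
  have hid2 : ∀ x y : ℝ, |id x - id y| ≤ |x - y| := fun x y => le_rfl
  refine ⟨JP id m (Real.log a) V + (1 + ε) * JP id Mx 0 V + (1 + 1 / ε) * (K * 2), ?_⟩
  filter_upwards [eventually_ge_atTop V, eventually_ge_atTop 0] with L hL hL0
  have h1δ : 0 ≤ (1 - δ) * L := mul_nonneg (by linarith) hL0
  have h1δ' : (1 - δ) * L ≤ L := by nlinarith
  set A : ℝ := max (Real.log a) ((1 - δ) * L) with hA
  set A' : ℝ := max V ((1 - δ) * L) with hA'
  have hAA' : A ≤ A' := max_le_max hlaV le_rfl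
  have hA'L : A' ≤ L := max_le hL h1δ'
  have hVA' : V ≤ A' := le_max_left _ _
  have hA0 : 0 ≤ A' := hV.trans hVA'
  obtain ⟨hi, hcc⟩ := hc id measurable_id hid1 hid2 A' L hVA' hA'L
  obtain ⟨h1, h2⟩ := hcc ε hε
  have hkk : Real.exp (((1 + θ) / 2 - 1) * A') + Real.exp (((1 + θ) / 2 - 1) * L) ≤ 2 := by
    have e1 : Real.exp (((1 + θ) / 2 - 1) * A') ≤ 1 := Real.exp_le_one_iff.2 (by nlinarith)
    have e2 : Real.exp (((1 + θ) / 2 - 1) * L) ≤ 1 := Real.exp_le_one_iff.2 (by nlinarith)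
    linarith
  have hkk2 : (1 + 1 / ε) * (K * (Real.exp (((1 + θ) / 2 - 1) * A') + Real.exp (((1 + θ) / 2 - 1) * L))) ≤
      (1 + 1 / ε) * (K * 2) := by gcongr
  have him : IntegrableOn (fun v => id (m (Real.exp v)) ^ 2 * Real.exp (-v)) (Ioc A L) :=
    h.integrable hθ ha measurable_id hid1 (le_max_left _ _)
  have hiM : IntegrableOn (fun v => id (Mx (Real.exp v)) ^ 2 * Real.exp (-v)) (Ioc ((1 - δ) * L) L) :=
    Mx_sq_int id measurable_id hid1 h1δ
  -- the pieces
  have h3 : JP id m A L = JP id m A A' + JP id m A' L := JP_add hAA' hA'L him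
  have h4 : JP id Mx ((1 - δ) * L) L = JP id Mx ((1 - δ) * L) A' + JP id Mx A' L :=
    JP_add (le_max_right _ _) hA'L hiM
  have h5 : JP id m A A' ≤ JP id m (Real.log a) V := by
    rcases le_or_gt V ((1 - δ) * L) with hh | hh
    · have : A = A' := by rw [hA, hA', max_eq_right (hlaV.trans hh), max_eq_right hh]
      rw [this]
      unfold JP
      rw [Ioc_self, setIntegral_empty]
      exact JP_nonneg id m _ _
    · have : A' = V := by rw [hA', max_eq_left hh.le]
      rw [this]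
      exact JP_mono (le_max_left _ _) le_rfl (h.integrable hθ ha measurable_id hid1 le_rfl)
  have h6 : JP id Mx ((1 - δ) * L) A' ≤ JP id Mx 0 V := by
    rcases le_or_gt V ((1 - δ) * L) with hh | hh
    · have : A' = (1 - δ) * L := by rw [hA', max_eq_right hh]
      rw [this]
      unfold JP
      rw [Ioc_self, setIntegral_empty]
      exact JP_nonneg id Mx _ _
    · have : A' = V := by rw [hA', max_eq_left hh.le]
      rw [this]
      exact JP_mono h1δ le_rfl (Mx_sq_int id measurable_id hid1 le_rfl)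
  have n1 := JP_nonneg id m A A'
  have n2 := JP_nonneg id Mx ((1 - δ) * L) A'
  have n3 := JP_nonneg id m (Real.log a) V
  have n4 := JP_nonneg id Mx 0 V
  have n5 := JP_nonneg id m A' L
  have n6 := JP_nonneg id Mx A' L
  constructor
  · rw [h3, h4]
    nlinarith
  · rw [h3, h4]
    nlinarith

/-! ### windows -/

/-- one-sided part -/
def ps (s : ℝ) (t : ℝ) : ℝ := max (s * t) 0

lemma ps_meas (s : ℝ) : Measurable (ps s) := by
  unfold ps
  fun_prop

lemma ps_abs {s : ℝ} (hs : s = 1 ∨ s = -1) (x : ℝ) : |ps s x| ≤ |x| := by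
  unfold ps
  rw [abs_of_nonneg (le_max_right _ _)]
  refine max_le ?_ (abs_nonneg _)
  rcases hs with rfl | rfl
  · rw [one_mul]; exact le_abs_self x
  · rw [neg_one_mul]; exact neg_le_abs x

lemma ps_lip {s : ℝ} (hs : s = 1 ∨ s = -1) (x y : ℝ) : |ps s x - ps s y| ≤ |x - y| := by
  unfold ps
  have h := abs_max_sub_max_le_abs (s * x) (s * y) 0
  refine h.trans (le_of_eq ?_)
  rw [← mul_sub, abs_mul]
  rcases hs with rfl | rfl <;> simp

lemma ps_id {s : ℝ} (hs : s = 1 ∨ s = -1) (x : ℝ) : ps s x ^ 2 ≤ x ^ 2 := sq_le_sq.2 (ps_abs hs x)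

/-- lower bounds on windows pass to the sampled values -/
lemma Between.window {θ a : ℝ} {m : ℝ → ℝ} (h : Between θ a m) (hθ0 : 0 ≤ θ) (hθ : θ < 1) {β : ℝ}
    (h12 : 1 / 2 ≤ β) (h1 : β < 1) (hβ : zetaSup - (1 - θ) / 2 < β) {W : ℝ → ℝ} (hW : ∀ᶠ x in atTop, 1 ≤ W x)
    (hlow : ∃ c : ℝ, 0 < c ∧ ∀ᶠ x : ℝ in atTop, ∀ s : ℝ, s = 1 ∨ s = -1 →
      c * (W x * x ^ (2 * β - 1)) ≤ ∫ y in x..(x * Real.log x), (max (s * Mx y) 0 / y) ^ 2) :
    ∃ c : ℝ, 0 < c ∧ ∀ᶠ x : ℝ in atTop, ∀ s : ℝ, s = 1 ∨ s = -1 →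
      c * (W x * x ^ (2 * β - 1)) ≤ ∫ y in x..(x * Real.log x), (max (s * m y) 0 / y) ^ 2 := by
  obtain ⟨c, hc, hlow⟩ := hlow
  obtain ⟨κ, hκ1, hκ2⟩ := exists_between (show 2 * zetaSup - 1 + θ < 2 * β by linarith)
  obtain ⟨K, V, hK, hV, -, hcmp⟩ := h.compare hθ0 hθ hκ1
  refine ⟨c / 4, by positivity, ?_⟩
  have hlog : ∀ᶠ x : ℝ in atTop, 4 * K * (x ^ (κ - 1) * Real.log x) ≤ c / 2 * x ^ (2 * β - 1) := by
    have h4 := isLittleO_log_rpow_atTop (r := 2 * β - κ) (by linarith)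
    filter_upwards [h4.bound (show (0:ℝ) < c / (8 * (K + 1)) by positivity), eventually_ge_atTop 1] with x hx hx1
    have hx0 : 0 < x := by linarith
    rw [Real.norm_of_nonneg (Real.log_nonneg hx1), Real.norm_of_nonneg (by positivity)] at hx
    have e : x ^ (κ - 1) * x ^ (2 * β - κ) = x ^ (2 * β - 1) := by
      rw [← Real.rpow_add hx0]; congr 1; ring
    calc 4 * K * (x ^ (κ - 1) * Real.log x) ≤ 4 * (K + 1) * (x ^ (κ - 1) * (c / (8 * (K + 1)) * x ^ (2 * β - κ))) := by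
          have := Real.log_nonneg hx1
          gcongr
          linarith
      _ = c / 2 * (x ^ (κ - 1) * x ^ (2 * β - κ)) := by field_simp; ring
      _ = _ := by rw [e]
  filter_upwards [hlow, hlog, hW, eventually_ge_atTop (Real.exp 1), eventually_ge_atTop (Real.exp V)]
    with x hx1 hx2 hx3 hx4 hx5 s hs
  have hx0 : 0 < x := (Real.exp_pos 1).trans_le hx4
  have hl1 : 1 ≤ Real.log x := by rwa [Real.le_log_iff_exp_le hx0]
  have hlV : V ≤ Real.log x := by rwa [Real.le_log_iff_exp_le hx0]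
  have hxx : x ≤ x * Real.log x := by nlinarith
  have hxl0 : 0 < x * Real.log x := by positivity
  have e1 : ∀ m' : ℝ → ℝ, ∫ y in x..(x * Real.log x), (max (s * m' y) 0 / y) ^ 2 =
      JP (ps s) m' (Real.log x) (Real.log (x * Real.log x)) := fun m' => JP_eq' (ps s) m' hx0 hxx
  have hx1s := hx1 s hs
  rw [e1] at hx1s ⊢
  obtain ⟨-, hcc⟩ := hcmp (ps s) (ps_meas s) (ps_abs hs) (ps_lip hs) (Real.log x) (Real.log (x * Real.log x)) hlV
    (Real.log_le_log hx0 hxx)
  have h2 := (hcc 1 one_pos).2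
  have e2 : Real.exp ((κ - 1) * Real.log x) = x ^ (κ - 1) := by
    rw [Real.rpow_def_of_pos hx0, mul_comm]
  have e3 : Real.exp ((κ - 1) * Real.log (x * Real.log x)) = x ^ (κ - 1) * Real.log x ^ (κ - 1) := by
    rw [← Real.mul_rpow hx0.le (by linarith), Real.rpow_def_of_pos hxl0, mul_comm]
  have e4 : Real.log x ^ (κ - 1) ≤ Real.log x := by
    calc Real.log x ^ (κ - 1) ≤ Real.log x ^ (1:ℝ) := Real.rpow_le_rpow_of_exponent_le hl1 (by linarith)
      _ = _ := Real.rpow_one _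
  have e5 : Real.exp ((κ - 1) * Real.log x) + Real.exp ((κ - 1) * Real.log (x * Real.log x)) ≤
      2 * (x ^ (κ - 1) * Real.log x) := by
    rw [e2, e3]
    have : 0 < x ^ (κ - 1) := Real.rpow_pos_of_pos hx0 _
    nlinarith
  have e6 : (1 + 1 / 1) * (K * (Real.exp ((κ - 1) * Real.log x) + Real.exp ((κ - 1) * Real.log (x * Real.log x)))) ≤
      4 * K * (x ^ (κ - 1) * Real.log x) := by
    calc (1 + 1 / 1) * (K * (Real.exp ((κ - 1) * Real.log x) + Real.exp ((κ - 1) * Real.log (x * Real.log x))))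
        ≤ (1 + 1 / 1) * (K * (2 * (x ^ (κ - 1) * Real.log x))) := by gcongr
      _ = _ := by ring
  have hpos : 0 < x ^ (2 * β - 1) := Real.rpow_pos_of_pos hx0 _
  have e7 : c / 2 * x ^ (2 * β - 1) ≤ c / 2 * (W x * x ^ (2 * β - 1)) := by
    have : x ^ (2 * β - 1) ≤ W x * x ^ (2 * β - 1) := by nlinarith
    gcongr
  linarith

/-- if RH fails the mean square is large -/
lemma Between.not_RH {θ a : ℝ} {m : ℝ → ℝ} (h : Between θ a m) (hθ0 : 0 ≤ θ) (hθ : θ < 1) (ha : 1 ≤ a)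
    (hRH : 1 / 2 < zetaSup) {δ : ℝ} (hδ : 0 < δ) (hδ1 : δ ≤ 1) :
    Tendsto (fun L : ℝ => JP id m (max (Real.log a) ((1 - δ) * L)) L / L) atTop atTop := by
  obtain ⟨ρ, hρ, h12, hρ2⟩ := exists_right (κ := min ((1 - θ) / 2) ((zetaSup - 1 / 2) / 2)) (by
    apply lt_min <;> linarith)
  have hm1 := min_le_left ((1 - θ) / 2) ((zetaSup - 1 / 2) / 2)
  have hm2 := min_le_right ((1 - θ) / 2) ((zetaSup - 1 / 2) / 2)
  have hβ : 1 / 2 < ρ.re := by linarith
  obtain ⟨c, hc, hw⟩ := h.window hθ0 hθ h12 hρ.2.2 (by linarith) (W := fun _ => 1) (Eventually.of_forall fun _ => le_rfl) (by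
    obtain ⟨c, hc, h2⟩ := H313.TK.sq_low1 ρ hρ.1 h12 hρ.2.2
    exact ⟨c, hc, h2.mono fun x hx s hs => by rw [one_mul]; exact hx s hs⟩)
  -- the point `x = e^{L/(1+η)}`-type windows: use `x = e^{L} / L`
  have hx : Tendsto (fun L : ℝ => Real.exp (L - Real.log L)) atTop atTop := by
    refine Real.tendsto_exp_atTop.comp ?_
    have h3 : ∀ᶠ L : ℝ in atTop, L / 2 ≤ L - Real.log L := by
      filter_upwards [Real.isLittleO_log_id_atTop.bound (show (0:ℝ) < 1 / 2 by norm_num), eventually_ge_atTop 1] with L hL hL1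
      rw [Real.norm_of_nonneg (Real.log_nonneg hL1), id, Real.norm_of_nonneg (by linarith)] at hL
      linarith
    exact tendsto_atTop_mono' _ h3 (tendsto_id.atTop_div_const (by norm_num))
  have hev := hx.eventually hw
  have hgrow : Tendsto (fun L : ℝ => c * Real.exp ((2 * ρ.re - 1) * (L - Real.log L)) / L) atTop atTop := by
    have h4 : Tendsto (fun L : ℝ => c * (Real.exp ((2 * ρ.re - 1) / 2 * L) / L ^ (1:ℝ))) atTop atTop :=
      (tendsto_exp_mul_div_rpow_atTop 1 ((2 * ρ.re - 1) / 2) (by linarith)).const_mul_atTop hc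
    refine tendsto_atTop_mono' _ ?_ h4
    filter_upwards [Real.isLittleO_log_id_atTop.bound (show (0:ℝ) < 1 / 2 by norm_num), eventually_ge_atTop 1] with L hL hL1
    rw [Real.norm_of_nonneg (Real.log_nonneg hL1), id, Real.norm_of_nonneg (by linarith)] at hL
    have hL0 : 0 < L := by linarith
    have e2 : (2 * ρ.re - 1) / 2 * L ≤ (2 * ρ.re - 1) * (L - Real.log L) := by nlinarith
    rw [Real.rpow_one]
    calc c * (Real.exp ((2 * ρ.re - 1) / 2 * L) / L) ≤ c * (Real.exp ((2 * ρ.re - 1) * (L - Real.log L)) / L) := by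
          gcongr
      _ = _ := by ring
  refine tendsto_atTop_mono' _ ?_ hgrow
  have hδL : ∀ᶠ L : ℝ in atTop, max (Real.log a) ((1 - δ) * L) ≤ L - Real.log L := by
    filter_upwards [Real.isLittleO_log_id_atTop.bound (show (0:ℝ) < min δ (1/2) by positivity), eventually_ge_atTop 1,
      eventually_ge_atTop (2 * Real.log a)] with L hL hL1 hL2
    rw [Real.norm_of_nonneg (Real.log_nonneg hL1), id, Real.norm_of_nonneg (by linarith)] at hL
    have k1 : min δ (1 / 2) * L ≤ δ * L := by gcongr; exact min_le_left _ _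
    have k2 : min δ (1 / 2) * L ≤ 1 / 2 * L := by gcongr; exact min_le_right _ _
    refine max_le ?_ ?_ <;> linarith
  filter_upwards [hev, hδL, eventually_ge_atTop (Real.exp 1), eventually_ge_atTop 1] with L hL hL2 hLe hL1
  have hL0 : 0 < L := by linarith
  have hlL : 1 ≤ Real.log L := by rwa [Real.le_log_iff_exp_le hL0]
  set x : ℝ := Real.exp (L - Real.log L) with hxd
  have hx0 : 0 < x := Real.exp_pos _
  have hlx : Real.log x = L - Real.log L := by rw [hxd, Real.log_exp]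
  have hlx1 : 1 ≤ Real.log x := by
    rw [hlx]
    have := Real.log_le_sub_one_of_pos hL0
    linarith
  have h5 := hL 1 (Or.inl rfl)
  have hxx : x ≤ x * Real.log x := by nlinarith
  have e1 : ∫ y in x..(x * Real.log x), (max (1 * m y) 0 / y) ^ 2 =
      JP (ps 1) m (Real.log x) (Real.log (x * Real.log x)) := JP_eq' (ps 1) m hx0 hxx
  rw [e1, one_mul] at h5
  have hupper : Real.log (x * Real.log x) ≤ L := by
    rw [Real.log_mul hx0.ne' (by linarith), hlx]
    have : Real.log (L - Real.log L) ≤ Real.log L := by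
      apply Real.log_le_log
      · rw [← hlx]; linarith
      · linarith
    linarith
  have hi := h.integrable hθ ha measurable_id (fun x => le_rfl) (A := max (Real.log a) ((1 - δ) * L)) (L := L) (le_max_left _ _)
  have h6 : JP (ps 1) m (Real.log x) (Real.log (x * Real.log x)) ≤ JP id m (Real.log x) (Real.log (x * Real.log x)) := by
    have hsub : Ioc (Real.log x) (Real.log (x * Real.log x)) ⊆ Ioc (max (Real.log a) ((1 - δ) * L)) L :=
      Ioc_subset_Ioc (by rw [hlx]; exact hL2) hupper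
    refine setIntegral_mono_on ?_ (hi.mono_set hsub) measurableSet_Ioc fun v _ => ?_
    · exact h.integrable hθ ha (ps_meas 1) (ps_abs (Or.inl rfl)) (by
        rw [hlx]; exact (le_max_left _ _).trans hL2)
    · have := ps_id (Or.inl rfl) (s := 1) (m (Real.exp v))
      simp only [id]
      gcongr
  have h7 : JP id m (Real.log x) (Real.log (x * Real.log x)) ≤ JP id m (max (Real.log a) ((1 - δ) * L)) L :=
    JP_mono (by rw [hlx]; exact hL2) hupper hi
  have h8 : x ^ (2 * ρ.re - 1) = Real.exp ((2 * ρ.re - 1) * (L - Real.log L)) := by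
    rw [hxd, ← Real.exp_mul, mul_comm]
  rw [h8] at h5
  gcongr
  linarith

open Pool.Agent.W120.WM (ZC NT) in
/-- **The limit of the sampled mean square.** -/
theorem Between.limit {θ a : ℝ} {m : ℝ → ℝ} (h : Between θ a m) (hθ0 : 0 ≤ θ) (hθ : θ < 1) (ha : 1 ≤ a)
    {δ : ℝ} (hδ : 0 < δ) (hδ1 : δ ≤ 1) :
    (ZC → Tendsto (fun L : ℝ => JP id m (max (Real.log a) ((1 - δ) * L)) L / L) atTop
      (𝓝 (δ * ∑' ρ : NT, 1 / ‖(ρ : ℂ) * deriv riemannZeta ρ‖ ^ 2))) ∧
    (¬ ZC → Tendsto (fun L : ℝ => JP id m (max (Real.log a) ((1 - δ) * L)) L / L) atTop atTop) := by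
  have hf := Pool.Agent.W120.WM.final3 δ hδ hδ1
  -- the same for `M`, in the variable `L`
  have hconv : ∀ l : Filter ℝ, Tendsto (fun x : ℝ => Pool.Agent.W120.WM.msq (x ^ (1 - δ)) x / Real.log x) atTop l →
      Tendsto (fun L : ℝ => JP id Mx ((1 - δ) * L) L / L) atTop l := by
    intro l hl
    refine (hl.comp Real.tendsto_exp_atTop).congr' ?_
    filter_upwards [eventually_ge_atTop 0] with L hL
    simp only [Function.comp]
    rw [Real.log_exp]
    congr 1
    have e1 : Real.exp L ^ (1 - δ) = Real.exp ((1 - δ) * L) := by rw [← Real.exp_mul, mul_comm]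
    rw [e1, Pool.Agent.W120.WM.msq_eq (Real.exp_pos _) (Real.exp_le_exp.2 (by nlinarith)), Real.log_exp, Real.log_exp]
    rfl
  rcases le_or_gt zetaSup (1 / 2) with hRH | hRH
  · have hc := fun ε hε => h.comp_RH hθ0 hθ ha hRH hδ hδ1 ε hε
    have c1 : ∀ ε : ℝ, 0 < ε → ∃ C : ℝ, ∀ᶠ L : ℝ in atTop,
        JP id m (max (Real.log a) ((1 - δ) * L)) L ≤ (1 + ε) * JP id Mx ((1 - δ) * L) L + C := by
      intro ε hε
      obtain ⟨C, hC⟩ := hc ε hε
      exact ⟨C, hC.mono fun _ h => h.1⟩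
    have c2 : ∀ ε : ℝ, 0 < ε → ∃ C : ℝ, ∀ᶠ L : ℝ in atTop,
        JP id Mx ((1 - δ) * L) L ≤ (1 + ε) * JP id m (max (Real.log a) ((1 - δ) * L)) L + C := by
      intro ε hε
      obtain ⟨C, hC⟩ := hc ε hε
      exact ⟨C, hC.mono fun _ h => h.2⟩
    exact ⟨fun hZ => lim_transfer (ℓ := fun L => L) tendsto_id c1 c2 (hconv _ (hf.1 hZ)),
      fun hZ => top_transfer (ℓ := fun L => L) tendsto_id c2 (hconv _ (hf.2 hZ))⟩
  · refine ⟨fun hZ => absurd hRH (not_lt.2 ?_), fun _ => h.not_RH hθ0 hθ ha hRH hδ hδ1⟩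
    exact zetaSup_le fun ρ hρ => ((hZ.1 ρ hρ).1).le

end

end Q241SPL
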