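import Pool.Agent.Q241.SPL.Win
import Pool.Agent.Q241.SPL.Landau

/-!
From a one-sided bound on a sparse set to a one-sided bound in mean.
-/

set_option autoImplicit false

open MeasureTheory Filter Topology Set

namespace Q241SPL

noncomputable section

variable {f : ℕ → ℝ} {Θ : ℝ} {H : ℂ → ℂ}

/-- `P` meets every interval `[x - x^θ, x + x^θ]` with `x` large -/
def Meets (θ : ℝ) (P : Set ℝ) : Prop := ∃ x₀ : ℝ, ∀ x : ℝ, x₀ ≤ x → ∃ y ∈ P, |y - x| ≤ x ^ θ

lemma Meets.nonneg {θ : ℝ} {P : Set ℝ} (h : Meets θ P) : Meets (max θ 0) P := by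
  obtain ⟨x₀, h⟩ := h
  refine ⟨max x₀ 1, fun x hx => ?_⟩
  obtain ⟨y, hy, h1⟩ := h x ((le_max_left _ _).trans hx)
  refine ⟨y, hy, h1.trans ?_⟩
  exact Real.rpow_le_rpow_of_exponent_le ((le_max_right _ _).trans hx) (le_max_left _ _)

lemma ratio {θ c D D' : ℝ} (hθ : θ < 1) (hD : D < D') (j : ℕ) :
    ∃ v₁ : ℝ, 1 ≤ v₁ ∧ ∀ v : ℝ, v₁ ≤ v → ∀ y : ℝ, |y - Real.exp v| ≤ Real.exp (θ * v) →
      Real.exp v / 2 ≤ y ∧ D * (y ^ c * (Real.log y) ^ j) ≤ D' * (Real.exp (c * v) * v ^ j) := by
  set l : Filter (ℝ × ℝ) := comap Prod.fst atTop ⊓ 𝓟 {p : ℝ × ℝ | |p.2 - Real.exp p.1| ≤ Real.exp (θ * p.1)} with hl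
  have hv : Tendsto (fun p : ℝ × ℝ => p.1) l atTop := tendsto_comap.mono_left inf_le_left
  have hmem : ∀ᶠ p in l, |p.2 - Real.exp p.1| ≤ Real.exp (θ * p.1) :=
    Filter.mem_inf_of_right (Filter.mem_principal_self _)
  have he : Tendsto (fun p : ℝ × ℝ => Real.exp (-((1 - θ) * p.1))) l (𝓝 0) := by
    refine Real.tendsto_exp_neg_atTop_nhds_zero.comp ?_
    exact hv.const_mul_atTop (by linarith)
  have ha : Tendsto (fun p : ℝ × ℝ => p.2 / Real.exp p.1) l (𝓝 1) := by
    have h1 : Tendsto (fun p : ℝ × ℝ => p.2 / Real.exp p.1 - 1) l (𝓝 0) := by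
      refine squeeze_zero_norm' ?_ he
      filter_upwards [hmem] with p hp
      have hep := Real.exp_pos p.1
      have e1 : p.2 / Real.exp p.1 - 1 = (p.2 - Real.exp p.1) / Real.exp p.1 := by field_simp
      rw [e1, Real.norm_eq_abs, abs_div, abs_of_pos hep, div_le_iff₀ hep, ← Real.exp_add]
      have e2 : -((1 - θ) * p.1) + p.1 = θ * p.1 := by ring
      rw [e2]; exact hp
    have h2 := h1.add_const 1
    simpa using h2
  have hla : Tendsto (fun p : ℝ × ℝ => Real.log (p.2 / Real.exp p.1)) l (𝓝 0) := by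
    have := (Real.continuousAt_log (show (1:ℝ) ≠ 0 by norm_num)).tendsto.comp ha
    rw [Real.log_one] at this
    exact this
  have hb : Tendsto (fun p : ℝ × ℝ => 1 + Real.log (p.2 / Real.exp p.1) / p.1) l (𝓝 1) := by
    have h1 : Tendsto (fun p : ℝ × ℝ => Real.log (p.2 / Real.exp p.1) / p.1) l (𝓝 0) := hla.div_atTop hv
    have h2 := h1.const_add 1
    simpa using h2
  have hR : Tendsto (fun p : ℝ × ℝ => D * ((p.2 / Real.exp p.1) ^ c * (1 + Real.log (p.2 / Real.exp p.1) / p.1) ^ j)) l (𝓝 D) := by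
    have h1 : Tendsto (fun p : ℝ × ℝ => (p.2 / Real.exp p.1) ^ c) l (𝓝 (1 ^ c)) :=
      (Real.continuousAt_rpow_const 1 c (Or.inl (by norm_num))).tendsto.comp ha
    have h2 := (h1.mul (hb.pow j)).const_mul D
    simpa using h2
  have hev : ∀ᶠ p in l, Real.exp p.1 / 2 ≤ p.2 ∧ D * (p.2 ^ c * (Real.log p.2) ^ j) ≤ D' * (Real.exp (c * p.1) * p.1 ^ j) := by
    filter_upwards [hR.eventually (gt_mem_nhds hD), ha.eventually (lt_mem_nhds (show (1/2:ℝ) < 1 by norm_num)),
      hv.eventually (eventually_gt_atTop 0)] with p h1 h2 h3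
    have hep := Real.exp_pos p.1
    rw [lt_div_iff₀ hep] at h2
    refine ⟨by linarith, ?_⟩
    have hp2 : 0 < p.2 := by linarith
    set a := p.2 / Real.exp p.1 with haa
    have ha0 : 0 < a := by rw [haa]; positivity
    have hpa : p.2 = a * Real.exp p.1 := by rw [haa]; field_simp
    have hlog : Real.log p.2 = (1 + Real.log a / p.1) * p.1 := by
      rw [hpa, Real.log_mul ha0.ne' hep.ne', Real.log_exp]; field_simp; ring
    have hpow : p.2 ^ c = a ^ c * Real.exp (c * p.1) := by
      rw [hpa, Real.mul_rpow ha0.le hep.le, ← Real.exp_mul, mul_comm p.1]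
    rw [hlog, hpow, mul_pow]
    have hpos : 0 ≤ Real.exp (c * p.1) * p.1 ^ j := by positivity
    calc D * (a ^ c * Real.exp (c * p.1) * ((1 + Real.log a / p.1) ^ j * p.1 ^ j))
        = (D * (a ^ c * (1 + Real.log a / p.1) ^ j)) * (Real.exp (c * p.1) * p.1 ^ j) := by ring
      _ ≤ D' * (Real.exp (c * p.1) * p.1 ^ j) := mul_le_mul_of_nonneg_right h1.le hpos
  rw [hl, eventually_inf_principal, eventually_comap] at hev
  obtain ⟨v₁, h⟩ := eventually_atTop.1 hev
  refine ⟨max v₁ 1, le_max_right _ _, fun v hv' y hy => ?_⟩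
  exact h v ((le_max_left _ _).trans hv') (v, y) rfl hy

/-- **Transfer.** -/
theorem Dat.transfer (d : Dat f Θ H) {θ : ℝ} (hθ0 : 0 ≤ θ) (hθ : θ < 1) {P : Set ℝ} (hP : Meets θ P)
    {τ : ℝ} (hτ : Θ - (1 - θ) / 2 < τ) {c D D' : ℝ} (hD : D < D') (j : ℕ)
    (hle : ∃ y₀ : ℝ, ∀ y ∈ P, y₀ ≤ y → S f y ≤ D * (y ^ c * (Real.log y) ^ j)) :
    ∃ b : ℝ → ℝ, Measurable b ∧ (∀ v, 0 ≤ b v) ∧ Fi b τ ∧
      ∀ v, 0 ≤ v → G f v ≤ D' * (Real.exp (c * v) * v ^ j) + b v := by
  obtain ⟨x₀, hP⟩ := hP
  obtain ⟨y₀, hle⟩ := hle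
  set κ : ℝ := ((2 * Θ - 1 + θ) + 2 * τ) / 2 with hκ
  have hκ1 : 2 * Θ - 1 + θ < κ := by rw [hκ]; linarith
  have hκ2 : κ < 2 * τ := by rw [hκ]; linarith
  obtain ⟨B, hBm, hB0, hBi, v₀, hv₀, hB⟩ := d.maximal hθ0 hθ hκ1
  obtain ⟨v₁, hv₁, hr⟩ := ratio (c := c) hθ hD j
  obtain ⟨C, hC⟩ := d.bound (Θ + 1) (by linarith)
  have hC0 : 0 ≤ C := by
    have := (abs_nonneg _).trans (hC 1 le_rfl)
    simpa using this
  set V : ℝ := max (max v₀ v₁) (max (Real.log (max x₀ 1)) (Real.log (max (2 * y₀) 1))) with hV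
  have hV1 : v₀ ≤ V := (le_max_left _ _).trans (le_max_left _ _)
  have hV2 : v₁ ≤ V := (le_max_right _ _).trans (le_max_left _ _)
  have hV3 : Real.log (max x₀ 1) ≤ V := (le_max_left _ _).trans (le_max_right _ _)
  have hV4 : Real.log (max (2 * y₀) 1) ≤ V := (le_max_right _ _).trans (le_max_right _ _)
  have hV0 : 0 ≤ V := by linarith
  set M : ℝ := C * Real.exp ((Θ + 1) * V) + |D'| * (Real.exp (|c| * V) * V ^ j) with hM
  have hM0 : 0 ≤ M := by rw [hM]; positivity
  set b : ℝ → ℝ := fun v => Real.sqrt (B v) + (Iio V).indicator (fun _ => M) v with hb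
  have hind0 : ∀ v, 0 ≤ (Iio V).indicator (fun _ : ℝ => M) v := fun v => indicator_nonneg (fun _ _ => hM0) v
  refine ⟨b, ?_, ?_, ?_, ?_⟩
  · exact (hBm.sqrt).add (measurable_const.indicator measurableSet_Iio)
  · intro v
    exact add_nonneg (Real.sqrt_nonneg _) (hind0 v)
  · refine Fi.add ?_ ?_
    · unfold Fi
      have h1 : IntegrableOn (fun v => (1/2) * (B v * Real.exp (-(κ * v)) + Real.exp (-(2 * τ - κ) * v))) (Ici 0) := by
        refine Integrable.const_mul (Integrable.add hBi ?_) _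
        have h2 : IntegrableOn (fun v : ℝ => Real.exp (-(2 * τ - κ) * v)) (Ioi 0) :=
          integrableOn_exp_mul_Ioi (by linarith) 0
        exact (integrableOn_Ici_iff_integrableOn_Ioi).2 h2
      refine Integrable.mono' h1 ?_ ?_
      · exact (hBm.sqrt.mul (Continuous.measurable (by fun_prop))).aestronglyMeasurable
      · refine Eventually.of_forall fun v => ?_
        rw [Real.norm_of_nonneg (mul_nonneg (Real.sqrt_nonneg _) (Real.exp_pos _).le)]
        set p := Real.sqrt (B v) * Real.exp (-(κ * v) / 2) with hp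
        set q := Real.exp (-(2 * τ - κ) * v / 2) with hq
        have e1 : Real.sqrt (B v) * Real.exp (-(τ * v)) = p * q := by
          rw [hp, hq, mul_assoc, ← Real.exp_add]; congr 2; ring
        have e2 : p ^ 2 = B v * Real.exp (-(κ * v)) := by
          rw [hp, mul_pow, Real.sq_sqrt (hB0 v), ← Real.exp_nat_mul]; congr 2; push_cast; ring
        have e3 : q ^ 2 = Real.exp (-(2 * τ - κ) * v) := by
          rw [hq, ← Real.exp_nat_mul]; congr 1; push_cast; ring
        rw [e1, ← e2, ← e3]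
        nlinarith [sq_nonneg (p - q)]
    · unfold Fi
      have h1 : IntegrableOn (fun v : ℝ => M * Real.exp (-(τ * v))) (Icc 0 V) :=
        Continuous.integrableOn_Icc (by fun_prop)
      have h2 : Integrable ((Icc (0:ℝ) V).indicator (fun v : ℝ => M * Real.exp (-(τ * v)))) :=
        (integrable_indicator_iff measurableSet_Icc).2 h1
      refine Integrable.mono' h2.integrableOn ?_ ?_
      · exact ((measurable_const.indicator measurableSet_Iio).mul (Continuous.measurable (by fun_prop))).aestronglyMeasurable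
      · filter_upwards [ae_restrict_mem measurableSet_Ici] with v hv
        rw [Real.norm_of_nonneg (mul_nonneg (hind0 v) (Real.exp_pos _).le)]
        by_cases h3 : v < V
        · rw [indicator_of_mem (show v ∈ Iio V from h3), indicator_of_mem (show v ∈ Icc 0 V from ⟨hv, h3.le⟩)]
        · rw [indicator_of_notMem (show v ∉ Iio V from h3), zero_mul]
          exact indicator_nonneg (fun _ _ => by positivity) _
  · intro v hv
    rw [hb]
    by_cases h3 : v < V
    · simp only
      rw [indicator_of_mem (show v ∈ Iio V from h3)]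
      have h4 : G f v ≤ C * Real.exp ((Θ + 1) * V) := by
        unfold G
        refine (le_abs_self _).trans ((hC _ (Real.one_le_exp hv)).trans ?_)
        rw [← Real.exp_mul, mul_comm v]
        have : (Θ + 1) * v ≤ (Θ + 1) * V := mul_le_mul_of_nonneg_left h3.le (by linarith [d.half])
        gcongr
      have h5 : -(|D'| * (Real.exp (|c| * V) * V ^ j)) ≤ D' * (Real.exp (c * v) * v ^ j) := by
        have h6 : Real.exp (c * v) * v ^ j ≤ Real.exp (|c| * V) * V ^ j := by
          have h7 : c * v ≤ |c| * V := by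
            calc c * v ≤ |c| * v := mul_le_mul_of_nonneg_right (le_abs_self c) hv
              _ ≤ |c| * V := mul_le_mul_of_nonneg_left h3.le (abs_nonneg c)
          gcongr
        have h8 : 0 ≤ Real.exp (c * v) * v ^ j := by positivity
        calc -(|D'| * (Real.exp (|c| * V) * V ^ j)) ≤ -(|D'| * (Real.exp (c * v) * v ^ j)) := by
              apply neg_le_neg
              gcongr
          _ = (-|D'|) * (Real.exp (c * v) * v ^ j) := by ring
          _ ≤ _ := mul_le_mul_of_nonneg_right (neg_abs_le D') h8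
      have := Real.sqrt_nonneg (B v)
      linarith
    · simp only
      rw [indicator_of_notMem (show v ∉ Iio V from h3), add_zero]
      push Not at h3
      have hx : x₀ ≤ Real.exp v := by
        calc x₀ ≤ max x₀ 1 := le_max_left _ _
          _ = Real.exp (Real.log (max x₀ 1)) := (Real.exp_log (by positivity)).symm
          _ ≤ Real.exp v := Real.exp_le_exp.2 (hV3.trans h3)
      have hy : 2 * y₀ ≤ Real.exp v := by
        calc 2 * y₀ ≤ max (2 * y₀) 1 := le_max_left _ _
          _ = Real.exp (Real.log (max (2 * y₀) 1)) := (Real.exp_log (by positivity)).symm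
          _ ≤ Real.exp v := Real.exp_le_exp.2 (hV4.trans h3)
      obtain ⟨y, hyP, hy1⟩ := hP _ hx
      rw [← Real.exp_mul, mul_comm v] at hy1
      obtain ⟨h4, h5⟩ := hr v (hV2.trans h3) y hy1
      have h6 := hB v (hV1.trans h3) y hy1
      have h7 := hle y hyP (by linarith)
      have h8 : S f (Real.exp v) - S f y ≤ Real.sqrt (B v) := by
        apply Real.le_sqrt_of_sq_le
        calc (S f (Real.exp v) - S f y) ^ 2 = (S f y - S f (Real.exp v)) ^ 2 := by ring
          _ ≤ B v := h6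
      unfold G
      linarith

end

end Q241SPL
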