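import Pool.Agent.Q241.SPL.Chain

/-!
Sampling principle, part 3: the maximal inequality in short intervals.
-/

set_option autoImplicit false

open MeasureTheory Filter Topology Set
open Pool.Agent.H295R2

namespace Q241SPL

noncomputable section

variable {f : ℕ → ℝ} {Θ : ℝ} {H : ℂ → ℂ}

lemma lev_meas {g : ℝ → ℝ} (hg : Measurable g) (h : ℝ) (i : ℕ) : Measurable (lev g h i) := by
  unfold lev
  refine Finset.measurable_sum _ fun m _ => ?_
  refine ((hg.comp (measurable_id.sub_const _)).sub (hg.comp ?_)).pow_const 2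
  exact (measurable_id.sub_const _).sub_const _

/-- weighted integral of one dyadic level -/
theorem Dat.lev_int (d : Dat f Θ H) {σ δ : ℝ} (hσ : Θ < σ) (hσ2 : σ ≤ 2) (hδ : 0 < δ) (hδ1 : δ < 1) :
    ∃ C : ℝ, 0 ≤ C ∧ ∀ h : ℝ, 0 < h → ∀ i : ℕ,
      Integrable (fun w => lev (G f) h i w * Real.exp (-(2 * σ * w))) ∧
      ∫ w, lev (G f) h i w * Real.exp (-(2 * σ * w)) ≤ C * h ^ (1 - δ) * ((2:ℝ) ^ δ) ^ i := by
  obtain ⟨C, hC0, hC⟩ := d.inc hσ hσ2 hδ hδ1
  have hσ0 : 0 < σ := by linarith [d.half]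
  refine ⟨C, hC0, fun h hh i => ?_⟩
  set τ : ℝ := h / 2 ^ i with hτ
  have hτ0 : 0 < τ := by rw [hτ]; positivity
  obtain ⟨hi1, hi2⟩ := hC τ hτ0
  have hterm : ∀ a : ℝ, ∀ w : ℝ, (G f (w - a) - G f (w - a - τ)) ^ 2 * Real.exp (-(2 * σ * w)) =
      Real.exp (-(2 * σ * a)) * ((fun u => ‖dF f τ u‖ ^ 2 * Real.exp (-(2 * σ * u))) (w - a)) := by
    intro a w
    simp only [norm_dF_sq]
    rw [mul_left_comm, ← Real.exp_add]
    congr 2; ring
  have hint : ∀ a : ℝ, Integrable (fun w => (G f (w - a) - G f (w - a - τ)) ^ 2 * Real.exp (-(2 * σ * w))) := by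
    intro a
    simp_rw [hterm a]
    exact (hi1.comp_sub_right a).const_mul _
  have hval : ∀ a : ℝ, 0 ≤ a → ∫ w, (G f (w - a) - G f (w - a - τ)) ^ 2 * Real.exp (-(2 * σ * w)) ≤
      C * τ ^ (1 - δ) := by
    intro a ha
    simp_rw [hterm a]
    rw [integral_const_mul, integral_sub_right_eq_self (fun u => ‖dF f τ u‖ ^ 2 * Real.exp (-(2 * σ * u))) a]
    have h1 : Real.exp (-(2 * σ * a)) ≤ 1 := Real.exp_le_one_iff.2 (by nlinarith)
    have h2 : 0 ≤ ∫ u, ‖dF f τ u‖ ^ 2 * Real.exp (-(2 * σ * u)) := integral_nonneg fun u => by positivity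
    calc _ ≤ 1 * ∫ u, ‖dF f τ u‖ ^ 2 * Real.exp (-(2 * σ * u)) := by gcongr
      _ ≤ _ := by rw [one_mul]; exact hi2
  have e1 : (fun w => lev (G f) h i w * Real.exp (-(2 * σ * w))) =
      fun w => ∑ m ∈ Finset.range (2 ^ i),
        (G f (w - m * τ) - G f (w - m * τ - τ)) ^ 2 * Real.exp (-(2 * σ * w)) := by
    funext w
    unfold lev
    rw [Finset.sum_mul]
  rw [e1]
  refine ⟨integrable_finsetSum _ fun m _ => hint _, ?_⟩
  rw [integral_finsetSum _ fun m _ => hint _]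
  calc ∑ m ∈ Finset.range (2 ^ i), ∫ w, (G f (w - m * τ) - G f (w - m * τ - τ)) ^ 2 * Real.exp (-(2 * σ * w))
      ≤ ∑ m ∈ Finset.range (2 ^ i), C * τ ^ (1 - δ) :=
        Finset.sum_le_sum fun m _ => hval _ (by positivity)
    _ = (2:ℝ) ^ i * (C * τ ^ (1 - δ)) := by simp
    _ = C * h ^ (1 - δ) * ((2:ℝ) ^ δ) ^ i := by
      rw [hτ, Real.div_rpow hh.le (by positivity), ← Real.rpow_natCast ((2:ℝ) ^ δ) i, ← Real.rpow_mul (by norm_num),
        ← Real.rpow_natCast 2 i, ← Real.rpow_mul (by norm_num)]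
      have h2 : (2:ℝ) ^ (i:ℝ) = (2:ℝ) ^ ((i:ℝ) * (1 - δ)) * (2:ℝ) ^ (δ * i) := by
        rw [← Real.rpow_add (by norm_num)]; congr 1; ring
      have h3 : (2:ℝ) ^ ((i:ℝ) * (1 - δ)) ≠ 0 := (by positivity : (0:ℝ) < (2:ℝ) ^ ((i:ℝ) * (1 - δ))).ne'
      calc (2:ℝ) ^ (i:ℝ) * (C * (h ^ (1 - δ) / (2:ℝ) ^ ((i:ℝ) * (1 - δ))))
          = ((2:ℝ) ^ ((i:ℝ) * (1 - δ)) * (2:ℝ) ^ (δ * i)) * (C * (h ^ (1 - δ) / (2:ℝ) ^ ((i:ℝ) * (1 - δ)))) := by
            rw [← h2]
        _ = _ := by field_simp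

/-- length of the intervals in the window `[k, k+1)` -/
def hk (θ : ℝ) (k : ℕ) : ℝ := 4 * Real.exp (-((1 - θ) * k))

/-- the maximal function on the window `[k, k+1)` -/
def Bk (f : ℕ → ℝ) (θ C η : ℝ) (k : ℕ) (v : ℝ) : ℝ :=
  8 * (((2 * k + 5 : ℕ) : ℝ) + 1) * (∑ i ∈ Finset.range (2 * k + 5 + 1), lev (G f) (hk θ k) i (v + hk θ k / 2)) +
    200 * C ^ 2 * Real.exp (2 * η * (k + 3))

lemma Bk_nonneg (f : ℕ → ℝ) (θ C η : ℝ) (k : ℕ) (v : ℝ) : 0 ≤ Bk f θ C η k v := by
  unfold Bk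
  have : 0 ≤ ∑ i ∈ Finset.range (2 * k + 5 + 1), lev (G f) (hk θ k) i (v + hk θ k / 2) :=
    Finset.sum_nonneg fun i _ => lev_nonneg _ _ _ _
  positivity

lemma Bk_meas (f : ℕ → ℝ) (θ C η : ℝ) (k : ℕ) : Measurable (Bk f θ C η k) := by
  unfold Bk
  refine (Measurable.const_mul ?_ _).add_const _
  refine Finset.measurable_sum _ fun i _ => ?_
  exact (lev_meas (G_meas f) _ _).comp (measurable_id.add_const _)

lemma exp_three_le : Real.exp 3 ≤ 32 := by
  have h1 := Real.exp_one_lt_d9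
  have h2 : Real.exp 3 = Real.exp 1 * Real.exp 1 * Real.exp 1 := by
    rw [← Real.exp_add, ← Real.exp_add]; norm_num
  rw [h2]
  have h0 := Real.exp_pos 1
  nlinarith [mul_pos h0 h0]

/-- pointwise bound in the window -/
lemma Bk_bound {C η θ : ℝ} (hη : 0 < η) (hC : ∀ n : ℕ, 1 ≤ n → |f n| ≤ C * (n : ℝ) ^ η)
    (hθ : θ ≤ 1) {k : ℕ} {v u : ℝ} (hv1 : v < k + 1) (hu : |u - v| ≤ hk θ k / 2) :
    (G f u - G f v) ^ 2 ≤ Bk f θ C η k v := by
  set h : ℝ := hk θ k with hh
  have hC0 : 0 ≤ C := by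
    have := (abs_nonneg _).trans (hC 1 le_rfl)
    simpa using this
  have hh0 : 0 < h := by rw [hh]; unfold hk; positivity
  have hh4 : h ≤ 4 := by
    rw [hh]; unfold hk
    have : Real.exp (-((1 - θ) * k)) ≤ 1 := Real.exp_le_one_iff.2 (by
      have : 0 ≤ (1 - θ) * k := mul_nonneg (by linarith) (Nat.cast_nonneg k)
      linarith)
    linarith
  set w : ℝ := v + h / 2 with hw
  have hu' := abs_le.1 hu
  have b1 := chain_G hη hC hh0 (w := w) (u := u) (by rw [hw]; linarith [hu'.1]) (by rw [hw]; linarith [hu'.2]) (2 * k + 5)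
  have b2 := chain_G hη hC hh0 (w := w) (u := v) (by rw [hw]; linarith) (by rw [hw]; linarith) (2 * k + 5)
  have hwk : w ≤ k + 3 := by rw [hw]; linarith
  have b3 : Real.exp w * (h / 2 ^ (2 * k + 5)) + 1 ≤ 5 := by
    have h1 : Real.exp w ≤ 2 ^ (2 * k + 5) := by
      calc Real.exp w ≤ Real.exp (k + 3) := Real.exp_le_exp.2 hwk
        _ = Real.exp 1 ^ k * Real.exp 3 := by rw [Real.exp_add, ← Real.exp_nat_mul, mul_one]
        _ ≤ 4 ^ k * 32 := by
          have := Real.exp_one_lt_d9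
          have h3 := exp_three_le
          gcongr
          linarith
        _ = 2 ^ (2 * k + 5) := by rw [pow_add, pow_mul]; norm_num
    have h2 : (0:ℝ) < 2 ^ (2 * k + 5) := by positivity
    have h3 : Real.exp w * (h / 2 ^ (2 * k + 5)) ≤ h := by
      rw [mul_div_assoc', div_le_iff₀ h2, mul_comm h]
      gcongr
    linarith
  have b4 : (C * Real.exp (η * w) * (Real.exp w * (h / 2 ^ (2 * k + 5)) + 1)) ^ 2 ≤
      25 * C ^ 2 * Real.exp (2 * η * (k + 3)) := by
    calc (C * Real.exp (η * w) * (Real.exp w * (h / 2 ^ (2 * k + 5)) + 1)) ^ 2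
        ≤ (C * Real.exp (η * (k + 3)) * 5) ^ 2 := by
          gcongr
      _ = _ := by
        rw [mul_pow, mul_pow, ← Real.exp_nat_mul]
        push_cast
        ring_nf
  have b5 : (G f u - G f v) ^ 2 ≤ 2 * (G f w - G f u) ^ 2 + 2 * (G f w - G f v) ^ 2 := by
    nlinarith [sq_nonneg ((G f w - G f u) + (G f w - G f v))]
  unfold Bk
  rw [← hh]
  linarith

/-- the constant bounding the integral over the window -/
theorem Dat.Bk_int (d : Dat f Θ H) {θ C η : ℝ} (hθ0 : 0 ≤ θ) (hθ : θ < 1) (hη : 0 < η)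
    (hC : ∀ n : ℕ, 1 ≤ n → |f n| ≤ C * (n : ℝ) ^ η) {κ : ℝ} (hκ : 2 * Θ - 1 + θ < κ) (hηκ : 2 * η < κ) :
    IntegrableOn (fun v => Bk f θ C η ⌊v⌋₊ v * Real.exp (-(κ * v))) (Ici 0) := by
  have hκ0 : 0 < κ := by linarith [d.half]
  set g : ℝ := κ - (2 * Θ - 1 + θ) with hg
  have hg0 : 0 < g := by rw [hg]; linarith
  set t : ℝ := min (g / 8) 1 with ht
  have ht0 : 0 < t := by rw [ht]; positivity
  have ht1 : t ≤ g / 8 := min_le_left _ _
  have ht2 : t ≤ 1 := min_le_right _ _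
  set δ : ℝ := min (g / 8) (1 / 2) with hδdef
  have hδ0 : 0 < δ := by rw [hδdef]; positivity
  have hδ1 : δ ≤ g / 8 := min_le_left _ _
  have hδ2 : δ ≤ 1 / 2 := min_le_right _ _
  set σ : ℝ := Θ + t with hσ
  have hσ0 : 0 < σ := by rw [hσ]; linarith [d.half]
  obtain ⟨K, hK0, hK⟩ := d.lev_int (σ := σ) (δ := δ) (by rw [hσ]; linarith) (by rw [hσ]; linarith [d.one]) hδ0 (by linarith)
  have hpiece : ∀ k : ℕ, IntegrableOn (fun v => Bk f θ C η k v * Real.exp (-(κ * v))) (Ico (k:ℝ) (k + 1)) ∧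
      ∫ v in Ico (k:ℝ) (k + 1), Bk f θ C η k v * Real.exp (-(κ * v)) ≤
        8 * (2 * k + 6) ^ 2 * (K * 4 * Real.exp (6 * σ) * 2 ^ 5) *
          Real.exp (2 * σ - κ - (1 - θ) * (1 - δ) + 2 * δ * Real.log 2) ^ k +
        200 * C ^ 2 * Real.exp (6 * η) * Real.exp (2 * η - κ) ^ k := by
    intro k
    set h : ℝ := hk θ k with hh
    have hh0 : 0 < h := by rw [hh]; unfold hk; positivity
    have hh4 : h ≤ 4 := by
      rw [hh]; unfold hk
      have : Real.exp (-((1 - θ) * k)) ≤ 1 := Real.exp_le_one_iff.2 (by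
        have : 0 ≤ (1 - θ) * k := mul_nonneg (by linarith) (Nat.cast_nonneg k)
        linarith)
      linarith
    -- one level
    have hlev : ∀ i : ℕ, IntegrableOn (fun v => lev (G f) h i (v + h / 2) * Real.exp (-(κ * v))) (Ico (k:ℝ) (k + 1)) ∧
        ∫ v in Ico (k:ℝ) (k + 1), lev (G f) h i (v + h / 2) * Real.exp (-(κ * v)) ≤
          Real.exp (-(κ * k) + 2 * σ * (k + 3)) * (K * h ^ (1 - δ) * ((2:ℝ) ^ δ) ^ i) := by
      intro i
      obtain ⟨h1, h2⟩ := hK h hh0 i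
      set ψ : ℝ → ℝ := fun w => lev (G f) h i w * Real.exp (-(2 * σ * w)) with hψ
      have h3 : Integrable (fun v => ψ (v + h / 2)) := h1.comp_add_right (h / 2)
      have hψ0 : ∀ w, 0 ≤ ψ w := fun w => mul_nonneg (lev_nonneg _ _ _ _) (Real.exp_pos _).le
      have hle : ∀ v ∈ Ico (k:ℝ) (k + 1), lev (G f) h i (v + h / 2) * Real.exp (-(κ * v)) ≤
          Real.exp (-(κ * k) + 2 * σ * (k + 3)) * ψ (v + h / 2) := by
        intro v hv
        simp only [hψ]
        rw [mul_left_comm, ← Real.exp_add]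
        apply mul_le_mul_of_nonneg_left _ (lev_nonneg _ _ _ _)
        apply Real.exp_le_exp.2
        have h4 : v + h / 2 ≤ k + 3 := by linarith [hv.2]
        have h5 : 2 * σ * (v + h / 2) ≤ 2 * σ * (k + 3) := by gcongr
        have h6 : κ * k ≤ κ * v := by gcongr; exact hv.1
        linarith
      have hint : IntegrableOn (fun v => lev (G f) h i (v + h / 2) * Real.exp (-(κ * v))) (Ico (k:ℝ) (k + 1)) := by
        refine Integrable.mono' (h3.const_mul (Real.exp (-(κ * k) + 2 * σ * (k + 3)))).integrableOn ?_ ?_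
        · refine Measurable.aestronglyMeasurable ?_
          refine ((lev_meas (G_meas f) h i).comp (measurable_id.add_const _)).mul ?_
          exact Continuous.measurable (by fun_prop)
        · filter_upwards [ae_restrict_mem measurableSet_Ico] with v hv
          rw [Real.norm_of_nonneg (mul_nonneg (lev_nonneg _ _ _ _) (Real.exp_pos _).le)]
          exact hle v hv
      refine ⟨hint, ?_⟩
      calc ∫ v in Ico (k:ℝ) (k + 1), lev (G f) h i (v + h / 2) * Real.exp (-(κ * v))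
          ≤ ∫ v in Ico (k:ℝ) (k + 1), Real.exp (-(κ * k) + 2 * σ * (k + 3)) * ψ (v + h / 2) :=
            setIntegral_mono_on hint (h3.const_mul _).integrableOn measurableSet_Ico hle
        _ ≤ ∫ v, Real.exp (-(κ * k) + 2 * σ * (k + 3)) * ψ (v + h / 2) :=
            setIntegral_le_integral (h3.const_mul _) (Eventually.of_forall fun v => by
              have := hψ0 (v + h / 2); positivity)
        _ = Real.exp (-(κ * k) + 2 * σ * (k + 3)) * ∫ w, ψ w := by
            rw [integral_const_mul, integral_add_right_eq_self ψ (h / 2)]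
        _ ≤ _ := by gcongr
    have hconst : IntegrableOn (fun v => 200 * C ^ 2 * Real.exp (2 * η * (k + 3)) * Real.exp (-(κ * v))) (Ico (k:ℝ) (k + 1)) := by
      refine (Continuous.integrableOn_Icc (by fun_prop)).mono_set Ico_subset_Icc_self
    have e1 : (fun v => Bk f θ C η k v * Real.exp (-(κ * v))) =
        fun v => 8 * (((2 * k + 5 : ℕ) : ℝ) + 1) *
          (∑ i ∈ Finset.range (2 * k + 5 + 1), lev (G f) h i (v + h / 2) * Real.exp (-(κ * v))) +
          200 * C ^ 2 * Real.exp (2 * η * (k + 3)) * Real.exp (-(κ * v)) := by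
      funext v
      unfold Bk
      rw [← hh, add_mul, mul_assoc, Finset.sum_mul]
    have hsumint : IntegrableOn (fun v => ∑ i ∈ Finset.range (2 * k + 5 + 1), lev (G f) h i (v + h / 2) * Real.exp (-(κ * v))) (Ico (k:ℝ) (k + 1)) :=
      integrable_finsetSum _ fun i _ => (hlev i).1
    rw [e1]
    refine ⟨(hsumint.const_mul _).add hconst, ?_⟩
    rw [integral_add (hsumint.const_mul _) hconst, integral_const_mul,
      integral_finsetSum _ fun i _ => (hlev i).1]
    have p1 : ∑ i ∈ Finset.range (2 * k + 5 + 1), ∫ v in Ico (k:ℝ) (k + 1), lev (G f) h i (v + h / 2) * Real.exp (-(κ * v)) ≤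
        (2 * k + 6) * (Real.exp (-(κ * k) + 2 * σ * (k + 3)) * (K * h ^ (1 - δ) * ((2:ℝ) ^ δ) ^ (2 * k + 5))) := by
      calc _ ≤ ∑ i ∈ Finset.range (2 * k + 5 + 1), Real.exp (-(κ * k) + 2 * σ * (k + 3)) * (K * h ^ (1 - δ) * ((2:ℝ) ^ δ) ^ (2 * k + 5)) := by
            refine Finset.sum_le_sum fun i hi => (hlev i).2.trans ?_
            have hi' : i ≤ 2 * k + 5 := by have := Finset.mem_range.1 hi; omega
            have h2δ : (1:ℝ) ≤ (2:ℝ) ^ δ := Real.one_le_rpow (by norm_num) hδ0.le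
            have := pow_le_pow_right₀ h2δ hi'
            have hhp : 0 ≤ h ^ (1 - δ) := by positivity
            gcongr
        _ = _ := by
          rw [Finset.sum_const, Finset.card_range, nsmul_eq_mul]; push_cast; ring
    have p2 : ∫ v in Ico (k:ℝ) (k + 1), 200 * C ^ 2 * Real.exp (2 * η * (k + 3)) * Real.exp (-(κ * v)) ≤
        200 * C ^ 2 * Real.exp (6 * η) * Real.exp (2 * η - κ) ^ k := by
      calc _ ≤ ∫ v in Ico (k:ℝ) (k + 1), 200 * C ^ 2 * Real.exp (2 * η * (k + 3)) * Real.exp (-(κ * k)) := by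
            refine setIntegral_mono_on hconst (integrableOn_const (by simp)) measurableSet_Ico fun v hv => ?_
            gcongr
            exact hv.1
        _ = 200 * C ^ 2 * Real.exp (2 * η * (k + 3)) * Real.exp (-(κ * k)) := by
            rw [setIntegral_const]; simp
        _ = _ := by
            rw [mul_assoc, mul_assoc (200 * C ^ 2), ← Real.exp_add, ← Real.exp_nat_mul, ← Real.exp_add]
            congr 2; ring
    have hpow : h ^ (1 - δ) ≤ 4 * Real.exp (-((1 - θ) * (1 - δ) * k)) := by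
      rw [hh]; unfold hk
      rw [Real.mul_rpow (by norm_num) (Real.exp_pos _).le, ← Real.exp_mul]
      have h4 : (4:ℝ) ^ (1 - δ) ≤ 4 := by
        calc (4:ℝ) ^ (1 - δ) ≤ (4:ℝ) ^ (1:ℝ) := Real.rpow_le_rpow_of_exponent_le (by norm_num) (by linarith)
          _ = 4 := Real.rpow_one _
      have e2 : -((1 - θ) * (k:ℝ)) * (1 - δ) = -((1 - θ) * (1 - δ) * k) := by ring
      rw [e2]
      gcongr
    have hpow2 : ((2:ℝ) ^ δ) ^ (2 * k + 5) ≤ 2 ^ 5 * Real.exp (2 * δ * Real.log 2 * k) := by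
      have e3 : (2:ℝ) ^ δ = Real.exp (δ * Real.log 2) := by
        rw [Real.rpow_def_of_pos (by norm_num), mul_comm]
      have h5 : ((2:ℝ) ^ δ) ^ 5 ≤ 2 ^ 5 := by
        apply pow_le_pow_left₀ (by positivity)
        calc (2:ℝ) ^ δ ≤ (2:ℝ) ^ (1:ℝ) := Real.rpow_le_rpow_of_exponent_le (by norm_num) (by linarith)
          _ = 2 := Real.rpow_one _
      rw [pow_add, mul_comm]
      have h6 : ((2:ℝ) ^ δ) ^ (2 * k) = Real.exp (2 * δ * Real.log 2 * k) := by
        rw [e3, ← Real.exp_nat_mul]; congr 1; push_cast; ring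
      rw [h6]
      gcongr
    have p3 : 8 * (((2 * k + 5 : ℕ) : ℝ) + 1) *
        ((2 * k + 6) * (Real.exp (-(κ * k) + 2 * σ * (k + 3)) * (K * h ^ (1 - δ) * ((2:ℝ) ^ δ) ^ (2 * k + 5)))) ≤
        8 * (2 * k + 6) ^ 2 * (K * 4 * Real.exp (6 * σ) * 2 ^ 5) *
          Real.exp (2 * σ - κ - (1 - θ) * (1 - δ) + 2 * δ * Real.log 2) ^ k := by
      calc _ ≤ 8 * (((2 * k + 5 : ℕ) : ℝ) + 1) *
        ((2 * k + 6) * (Real.exp (-(κ * k) + 2 * σ * (k + 3)) * (K * (4 * Real.exp (-((1 - θ) * (1 - δ) * k))) *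
          (2 ^ 5 * Real.exp (2 * δ * Real.log 2 * k))))) := by gcongr
        _ = 8 * (2 * k + 6) ^ 2 * (K * 4 * 2 ^ 5) *
          (Real.exp (-(κ * k) + 2 * σ * (k + 3)) * Real.exp (-((1 - θ) * (1 - δ) * k)) * Real.exp (2 * δ * Real.log 2 * k)) := by
            push_cast; ring
        _ = 8 * (2 * k + 6) ^ 2 * (K * 4 * 2 ^ 5) *
          (Real.exp (6 * σ) * Real.exp (2 * σ - κ - (1 - θ) * (1 - δ) + 2 * δ * Real.log 2) ^ k) := by
            congr 1
            rw [← Real.exp_nat_mul, ← Real.exp_add, ← Real.exp_add, ← Real.exp_add]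
            congr 1; ring
        _ = _ := by ring
    have p4 : 8 * (((2 * k + 5 : ℕ) : ℝ) + 1) * (∑ i ∈ Finset.range (2 * k + 5 + 1), ∫ v in Ico (k:ℝ) (k + 1), lev (G f) h i (v + h / 2) * Real.exp (-(κ * v))) ≤
        8 * (((2 * k + 5 : ℕ) : ℝ) + 1) *
        ((2 * k + 6) * (Real.exp (-(κ * k) + 2 * σ * (k + 3)) * (K * h ^ (1 - δ) * ((2:ℝ) ^ δ) ^ (2 * k + 5)))) := by
      gcongr
    linarith
  -- sum over the windows
  have hcover : (Ici (0:ℝ)) = ⋃ k : ℕ, Ico (k:ℝ) (k + 1) := by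
    ext v
    simp only [mem_Ici, mem_iUnion, mem_Ico]
    constructor
    · intro hv
      exact ⟨⌊v⌋₊, Nat.floor_le hv, Nat.lt_floor_add_one v⟩
    · rintro ⟨k, h1, _⟩
      exact (Nat.cast_nonneg k).trans h1
  have hfl : ∀ k : ℕ, ∀ v ∈ Ico (k:ℝ) (k + 1), ⌊v⌋₊ = k := by
    intro k v hv
    exact (Nat.floor_eq_iff ((Nat.cast_nonneg k).trans hv.1)).2 hv
  rw [hcover]
  refine integrableOn_iUnion_of_summable_integral_norm ?_ ?_
  · intro k
    refine (hpiece k).1.congr_fun (fun v hv => ?_) measurableSet_Ico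
    simp only [hfl k v hv]
  · have hr1 : Real.exp (2 * σ - κ - (1 - θ) * (1 - δ) + 2 * δ * Real.log 2) < 1 := by
      rw [Real.exp_lt_one_iff]
      have hlog : Real.log 2 ≤ 1 := by linarith [Real.log_two_lt_d9]
      have h1 : (1 - θ) * δ ≤ δ := by nlinarith
      have h2 : 2 * δ * Real.log 2 ≤ 2 * δ := by nlinarith
      have h3 : 2 * σ = 2 * Θ + 2 * t := by rw [hσ]; ring
      nlinarith
    have hr2 : Real.exp (2 * η - κ) < 1 := by
      rw [Real.exp_lt_one_iff]; linarith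
    have s1 : Summable (fun k : ℕ => 8 * (2 * (k:ℝ) + 6) ^ 2 * (K * 4 * Real.exp (6 * σ) * 2 ^ 5) *
          Real.exp (2 * σ - κ - (1 - θ) * (1 - δ) + 2 * δ * Real.log 2) ^ k) := by
      set r : ℝ := Real.exp (2 * σ - κ - (1 - θ) * (1 - δ) + 2 * δ * Real.log 2) with hr
      have hrn : ‖r‖ < 1 := by rw [Real.norm_of_nonneg (Real.exp_pos _).le]; exact hr1
      have a0 := (summable_pow_mul_geometric_of_norm_lt_one 0 hrn).mul_left 36
      have a1 := (summable_pow_mul_geometric_of_norm_lt_one 1 hrn).mul_left 24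
      have a2 := (summable_pow_mul_geometric_of_norm_lt_one 2 hrn).mul_left 4
      refine (((a0.add a1).add a2).mul_left (8 * (K * 4 * Real.exp (6 * σ) * 2 ^ 5))).congr fun k => ?_
      ring
    have s2 : Summable (fun k : ℕ => 200 * C ^ 2 * Real.exp (6 * η) * Real.exp (2 * η - κ) ^ k) :=
      (summable_geometric_of_lt_one (Real.exp_pos _).le hr2).mul_left _
    refine Summable.of_nonneg_of_le (fun k => integral_nonneg fun v => norm_nonneg _) (fun k => ?_) (s1.add s2)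
    refine le_trans (le_of_eq ?_) (hpiece k).2
    refine setIntegral_congr_fun measurableSet_Ico fun v hv => ?_
    simp only [hfl k v hv]
    rw [Real.norm_of_nonneg (mul_nonneg (Bk_nonneg _ _ _ _ _ _) (Real.exp_pos _).le)]

/-- **The maximal inequality.** If `S` has the above properties, the square of the variation of `S`
on the interval `|y - e^v| ≤ e^(θ v)` is bounded by a function `B(v)` with
`∫ B(v) e^(-κ v) dv` finite for `κ > 2Θ - 1 + θ`. -/
theorem Dat.maximal (d : Dat f Θ H) {θ : ℝ} (hθ0 : 0 ≤ θ) (hθ : θ < 1) {κ : ℝ} (hκ : 2 * Θ - 1 + θ < κ) :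
    ∃ B : ℝ → ℝ, Measurable B ∧ (∀ v, 0 ≤ B v) ∧
      IntegrableOn (fun v => B v * Real.exp (-(κ * v))) (Ici 0) ∧
      ∃ v₀ : ℝ, 0 ≤ v₀ ∧ ∀ v : ℝ, v₀ ≤ v → ∀ y : ℝ, |y - Real.exp v| ≤ Real.exp (θ * v) →
        (S f y - S f (Real.exp v)) ^ 2 ≤ B v := by
  have hκ0 : 0 < κ := by linarith [d.half]
  obtain ⟨C, hC⟩ := d.coef (κ / 4) (by positivity)
  refine ⟨fun v => Bk f θ C (κ / 4) ⌊v⌋₊ v, ?_, fun v => Bk_nonneg _ _ _ _ _ _,
    d.Bk_int hθ0 hθ (by positivity) hC hκ (by linarith), Real.log 2 / (1 - θ), ?_, ?_⟩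
  · have h1 : Measurable (fun p : ℕ × ℝ => Bk f θ C (κ / 4) p.1 p.2) :=
      measurable_from_prod_countable_right fun k => Bk_meas f θ C (κ / 4) k
    exact h1.comp (Nat.measurable_floor.prodMk measurable_id)
  · exact div_nonneg (Real.log_nonneg (by norm_num)) (by linarith)
  · intro v hv y hy
    have h1θ : 0 < 1 - θ := by linarith
    have hv0 : 0 ≤ v := le_trans (div_nonneg (Real.log_nonneg (by norm_num)) h1θ.le) hv
    rw [div_le_iff₀ h1θ] at hv
    set a : ℝ := Real.exp (-((1 - θ) * v)) with ha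
    have ha0 : 0 < a := Real.exp_pos _
    have ha2 : a ≤ 1 / 2 := by
      have h1 : a ≤ Real.exp (-Real.log 2) := Real.exp_le_exp.2 (by linarith)
      rw [Real.exp_neg, Real.exp_log (by norm_num)] at h1
      linarith
    have hE : Real.exp (θ * v) = Real.exp v * a := by rw [ha, ← Real.exp_add]; congr 1; ring
    set τ : ℝ := (y - Real.exp v) / Real.exp v with hτ
    have hev := Real.exp_pos v
    have hτ1 : |τ| ≤ a := by
      rw [hτ, abs_div, abs_of_pos hev, div_le_iff₀ hev, mul_comm a, ← hE]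
      exact hy
    have hyτ : y = Real.exp v * (1 + τ) := by rw [hτ]; field_simp; ring
    have hτ2 := abs_le.1 hτ1
    have hpos : 0 < 1 + τ := by linarith [hτ2.1]
    have hlog : |Real.log (1 + τ)| ≤ 2 * a := by
      rw [abs_le]
      constructor
      · have h1 := Real.one_sub_inv_le_log_of_pos hpos
        have h2 : -(2 * a) ≤ 1 - (1 + τ)⁻¹ := by
          have h3 : (1 + τ)⁻¹ ≤ 1 + 2 * a := by
            rw [inv_le_comm₀ hpos (by positivity)]
            rw [inv_le_iff_one_le_mul₀ (by positivity)]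
            nlinarith [hτ2.1]
          linarith
        linarith
      · have h1 := Real.log_le_sub_one_of_pos hpos
        linarith [hτ2.2]
    have hy0 : 0 < y := by rw [hyτ]; positivity
    set u : ℝ := Real.log y with hu
    have huv : u - v = Real.log (1 + τ) := by
      rw [hu, hyτ, Real.log_mul hev.ne' hpos.ne', Real.log_exp]; ring
    have hyu : y = Real.exp u := by rw [hu, Real.exp_log hy0]
    have hak : 2 * a ≤ hk θ ⌊v⌋₊ / 2 := by
      unfold hk
      have : a ≤ Real.exp (-((1 - θ) * ⌊v⌋₊)) := by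
        rw [ha]
        apply Real.exp_le_exp.2
        have := Nat.floor_le hv0
        nlinarith
      linarith
    rw [hyu]
    exact Bk_bound (f := f) (by positivity) hC hθ.le (Nat.lt_floor_add_one v) (by rw [huv]; exact hlog.trans hak)

end

end Q241SPL
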